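import Mathlib
import Pool.Agent.H43.G.R_seed8.H373R2.T3.TypeI

/-! Vaughan's identity: a general bound for sums over primes. -/

namespace Pool.Agent.H373R2.T7
open Finset
open Pool.Agent.Helper112 (betaV LamII)
open Pool.Agent.Helper112.TI (mu1 l1 mu1_apply l1_apply)
open Pool.Agent.Helper112.TII (betaV_abs betaV_zero)
open Pool.Agent.H373R2.T3 (dyadic_sum hyp abel_Ioc vaughan_sum conv_abs_le conv_zero)

/-- total bilinear sum from its dyadic pieces -/
theorem bil_gen (E : ℕ → ℂ) (N N' U : ℕ) (hU : 1 ≤ U) (a b : ℕ → ℂ) (R : ℝ) (hR0 : 0 ≤ R)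
    (ha : ∀ m, m ≤ U → a m = 0) (hb : ∀ l, l ≤ U → b l = 0)
    (hpiece : ∀ M L : ℕ, 1 ≤ M → 1 ≤ L → U < 2 * M → U < 2 * L → M * L ≤ N' →
      ‖∑ m ∈ Ioc M (2 * M), ∑ l ∈ Ioc L (2 * L), a m * b l * (if N < m * l ∧ m * l ≤ N' then E (m * l) else 0)‖ ≤ R) :
    ‖∑ m ∈ Icc 1 N', ∑ l ∈ Ioc (N / m) (N' / m), a m * b l * E (m * l)‖ ≤ (Nat.log 2 N' + 1 : ℝ) ^ 2 * R := by
  classical
  set I := Nat.log 2 N' + 1 with hI
  have hI2 : N' < 2 ^ I := Nat.lt_pow_succ_log_self (by norm_num) _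
  set F : ℕ → ℕ → ℂ := fun m l => a m * b l * (if N < m * l ∧ m * l ≤ N' then E (m * l) else 0) with hF
  have hF0 : ∀ m l, F m l ≠ 0 → N < m * l ∧ m * l ≤ N' ∧ U < m ∧ U < l := by
    intro m l h
    simp only [hF] at h
    have h2 := left_ne_zero_of_mul h
    have h3 := right_ne_zero_of_mul h
    have h5 := left_ne_zero_of_mul h2
    have h6 := right_ne_zero_of_mul h2
    split_ifs at h3 with h4
    · refine ⟨h4.1, h4.2, ?_, ?_⟩
      · by_contra h7; exact h5 (ha m (by omega))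
      · by_contra h7; exact h6 (hb l (by omega))
    · exact absurd rfl h3
  have hinner : ∀ m ∈ Icc 1 N', ∑ l ∈ Ioc (N / m) (N' / m), a m * b l * E (m * l) = ∑ l ∈ Ioc 1 (2 ^ I), F m l := by
    intro m hm
    rw [mem_Icc] at hm
    have hm0 : 0 < m := by omega
    have e1 : ∑ l ∈ Ioc (N / m) (N' / m), a m * b l * E (m * l) = ∑ l ∈ Ioc (N / m) (N' / m), F m l := by
      apply sum_congr rfl; intro l hl
      rw [mem_Ioc, Nat.div_lt_iff_lt_mul hm0, Nat.le_div_iff_mul_le hm0] at hl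
      simp only [hF]
      rw [if_pos ⟨by rw [mul_comm]; exact hl.1, by rw [mul_comm]; exact hl.2⟩]
    rw [e1]
    symm
    rw [← sum_filter_ne_zero, ← sum_filter_ne_zero (s := Ioc (N / m) (N' / m))]
    apply sum_congr _ fun _ _ => rfl
    ext l
    rw [mem_filter, mem_filter, mem_Ioc, mem_Ioc, Nat.div_lt_iff_lt_mul hm0, Nat.le_div_iff_mul_le hm0]
    constructor
    · rintro ⟨_, h3⟩
      obtain ⟨g1, g2, g3, g4⟩ := hF0 m l h3
      exact ⟨⟨by rw [mul_comm]; exact g1, by rw [mul_comm]; exact g2⟩, h3⟩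
    · rintro ⟨_, h3⟩
      obtain ⟨g1, g2, g3, g4⟩ := hF0 m l h3
      refine ⟨⟨by omega, ?_⟩, h3⟩
      have : l ≤ m * l := Nat.le_mul_of_pos_left _ hm0
      omega
  rw [sum_congr rfl hinner]
  have houter : ∑ m ∈ Icc 1 N', ∑ l ∈ Ioc 1 (2 ^ I), F m l = ∑ m ∈ Ioc 1 (2 ^ I), ∑ l ∈ Ioc 1 (2 ^ I), F m l := by
    have hne : ∀ m, ∑ l ∈ Ioc 1 (2 ^ I), F m l ≠ 0 → 1 < m ∧ m ≤ N' := by
      intro m h
      obtain ⟨l, _, hl⟩ := exists_ne_zero_of_sum_ne_zero h
      obtain ⟨g1, g2, g3, g4⟩ := hF0 m l hl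
      refine ⟨by omega, ?_⟩
      have : m ≤ m * l := Nat.le_mul_of_pos_right _ (by omega)
      omega
    rw [← sum_filter_ne_zero, ← sum_filter_ne_zero (s := Ioc 1 (2 ^ I))]
    apply sum_congr _ fun _ _ => rfl
    ext m
    rw [mem_filter, mem_filter, mem_Icc, mem_Ioc]
    constructor
    · rintro ⟨_, h3⟩
      have := hne m h3
      exact ⟨⟨this.1, by omega⟩, h3⟩
    · rintro ⟨_, h3⟩
      have := hne m h3
      exact ⟨⟨by omega, this.2⟩, h3⟩
  rw [houter, dyadic_sum]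
  simp_rw [dyadic_sum _ I]
  have hpiece2 : ∀ i j : ℕ, ‖∑ m ∈ Ioc (2 ^ i) (2 * 2 ^ i), ∑ l ∈ Ioc (2 ^ j) (2 * 2 ^ j), F m l‖ ≤ R := by
    intro i j
    by_cases hz : ∑ m ∈ Ioc (2 ^ i) (2 * 2 ^ i), ∑ l ∈ Ioc (2 ^ j) (2 * 2 ^ j), F m l = 0
    · rw [hz, norm_zero]; exact hR0
    · obtain ⟨m, hm, hm2⟩ := exists_ne_zero_of_sum_ne_zero hz
      obtain ⟨l, hl, hl2⟩ := exists_ne_zero_of_sum_ne_zero hm2
      obtain ⟨g1, g2, g3, g4⟩ := hF0 m l hl2
      rw [mem_Ioc] at hm hl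
      apply hpiece (2 ^ i) (2 ^ j) Nat.one_le_two_pow Nat.one_le_two_pow (by omega) (by omega)
      exact (Nat.mul_le_mul hm.1.le hl.1.le).trans g2
  calc ‖∑ i ∈ range I, ∑ m ∈ Ioc (2 ^ i) (2 * 2 ^ i), ∑ j ∈ range I, ∑ l ∈ Ioc (2 ^ j) (2 * 2 ^ j), F m l‖
      = ‖∑ i ∈ range I, ∑ j ∈ range I, ∑ m ∈ Ioc (2 ^ i) (2 * 2 ^ i), ∑ l ∈ Ioc (2 ^ j) (2 * 2 ^ j), F m l‖ := by
        congr 1
        apply sum_congr rfl; intro i _
        rw [sum_comm]
    _ ≤ ∑ i ∈ range I, ∑ j ∈ range I, R := by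
        refine (norm_sum_le _ _).trans (sum_le_sum fun i _ => ?_)
        exact (norm_sum_le _ _).trans (sum_le_sum fun j _ => hpiece2 i j)
    _ = _ := by
        simp only [sum_const, card_range, nsmul_eq_mul]
        rw [hI]; push_cast; ring

/-- Vaughan's method for a general sequence -/
theorem vaughan_gen (E : ℕ → ℂ) (N N' U : ℕ) (hN : 1 ≤ N) (hNN' : N ≤ N') (hN' : N' ≤ 2 * N) (hU : 1 ≤ U) (hUN : U * U ≤ N)
    (Y : ℕ → ℝ) (R : ℝ) (hR0 : 0 ≤ R) (hY0 : ∀ m, 0 ≤ Y m)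
    (hI : ∀ m ∈ Icc 1 (U * U), ∀ b, b ≤ N' / m → ‖∑ l ∈ Ioc (N / m) b, E (m * l)‖ ≤ Y m)
    (hII : ∀ (a b : ℕ → ℂ) (A₂ B₂ : ℝ), 0 ≤ A₂ → 0 ≤ B₂ → ∀ M L : ℕ, 1 ≤ M → 1 ≤ L → U < 2 * M → U < 2 * L → M * L ≤ N' →
      ∑ m ∈ Ioc M (2 * M), ‖a m‖ ^ 2 ≤ A₂ * M → ∑ l ∈ Ioc L (2 * L), ‖b l‖ ^ 2 ≤ B₂ * L →
      ‖∑ m ∈ Ioc M (2 * M), ∑ l ∈ Ioc L (2 * L), a m * b l * (if N < m * l ∧ m * l ≤ N' then E (m * l) else 0)‖ ^ 2 ≤
        A₂ * B₂ * R ^ 2) :
    ‖∑ n ∈ Ioc N N', ((ArithmeticFunction.vonMangoldt n : ℝ) : ℂ) * E n‖ ≤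
      8 * (1 + Real.log (4 * N)) ^ 5 * R + 3 * (1 + Real.log (4 * N)) * ∑ m ∈ Icc 1 (U * U), Y m := by
  have hN0 : (1 : ℝ) ≤ N := by exact_mod_cast hN
  set Lg : ℝ := 1 + Real.log (4 * N) with hLg
  have hlog4N : 0 ≤ Real.log (4 * (N : ℝ)) := Real.log_nonneg (by linarith)
  have hLg1 : 1 ≤ Lg := by linarith
  have hlogle : ∀ t : ℝ, 1 ≤ t → t ≤ 4 * N → Real.log t ≤ Lg := by
    intro t ht ht2
    have := Real.log_le_log (by linarith) ht2
    linarith
  have hUUU : U ≤ U * U := Nat.le_mul_of_pos_left _ (by omega)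
  rw [vaughan_sum U U N N' (by omega) E]
  -- the II-part with betaV
  have hS1 : ‖∑ m ∈ Icc 1 N', ∑ l ∈ Ioc (N / m) (N' / m), ((betaV U m : ℝ) : ℂ) *
      (((if U < l then ArithmeticFunction.vonMangoldt l else 0 : ℝ)) : ℂ) * E (m * l)‖ ≤
      (Nat.log 2 N' + 1 : ℝ) ^ 2 * (2 * Lg ^ 3 * R) := by
    apply bil_gen E N N' U hU (fun m => ((betaV U m : ℝ) : ℂ))
      (fun l => (((if U < l then ArithmeticFunction.vonMangoldt l else 0 : ℝ)) : ℂ)) (2 * Lg ^ 3 * R) (by positivity)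
    · intro m hm
      rw [betaV_zero U m hm]; norm_num
    · intro l hl
      rw [if_neg (by omega)]; norm_num
    intro M L hM hL hM2 hL2 hML
    have hMN : M ≤ 2 * N := by
      have : M ≤ M * L := Nat.le_mul_of_pos_right _ (by omega)
      omega
    have hLN : L ≤ 2 * N := by
      have : L ≤ M * L := Nat.le_mul_of_pos_left _ (by omega)
      omega
    have hM0 : (0 : ℝ) < M := by exact_mod_cast hM
    have hL0 : (0 : ℝ) < L := by exact_mod_cast hL
    have key := hII (fun m => ((betaV U m : ℝ) : ℂ))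
      (fun l => (((if U < l then ArithmeticFunction.vonMangoldt l else 0 : ℝ)) : ℂ)) (2 * Lg ^ 4) (Lg ^ 2) (by positivity) (by positivity)
      M L hM hL hM2 hL2 hML (by
        calc ∑ m ∈ Ioc M (2 * M), ‖((betaV U m : ℝ) : ℂ)‖ ^ 2 ≤ ∑ m ∈ Ioc M (2 * M), 2 * M * ((m.divisors.card : ℝ) ^ 2 / m) := by
              apply sum_le_sum; intro m hm
              rw [mem_Ioc] at hm
              have hm0 : (0 : ℝ) < m := by exact_mod_cast (by omega : 0 < m)
              rw [Complex.norm_real, Real.norm_eq_abs]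
              have h2 : |betaV U m| ^ 2 ≤ (m.divisors.card : ℝ) ^ 2 := pow_le_pow_left₀ (abs_nonneg _) (betaV_abs U m) 2
              refine h2.trans ?_
              rw [mul_div_assoc', le_div_iff₀ hm0]
              have h3 : (m : ℝ) ≤ 2 * M := by exact_mod_cast hm.2
              nlinarith [sq_nonneg (m.divisors.card : ℝ)]
          _ = 2 * M * ∑ m ∈ Ioc M (2 * M), ((m.divisors.card : ℝ) ^ 2 / m) := by rw [mul_sum]
          _ ≤ 2 * M * ∑ m ∈ Icc 1 (2 * M), ((m.divisors.card : ℝ) ^ 2 / m) := by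
              apply mul_le_mul_of_nonneg_left _ (by positivity)
              apply sum_le_sum_of_subset_of_nonneg
              · intro m hm; rw [mem_Ioc] at hm; rw [mem_Icc]; omega
              · intro m _ _; positivity
          _ ≤ 2 * M * (1 + Real.log ((2 * M : ℕ) : ℝ)) ^ 4 := by
              apply mul_le_mul_of_nonneg_left _ (by positivity)
              exact Pool.Agent.H316R2.tau_sq_sum_le (2 * M)
          _ ≤ 2 * M * Lg ^ 4 := by
              apply mul_le_mul_of_nonneg_left _ (by positivity)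
              have h2 : (1 : ℝ) ≤ ((2 * M : ℕ) : ℝ) := by exact_mod_cast (by omega : 1 ≤ 2 * M)
              apply pow_le_pow_left₀
              · have := Real.log_nonneg h2; linarith
              · have h3 : ((2 * M : ℕ) : ℝ) ≤ 4 * N := by exact_mod_cast (by omega : 2 * M ≤ 4 * N)
                have := Real.log_le_log (by linarith) h3
                linarith
          _ = _ := by ring) (by
        calc ∑ l ∈ Ioc L (2 * L), ‖(((if U < l then ArithmeticFunction.vonMangoldt l else 0 : ℝ)) : ℂ)‖ ^ 2 ≤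
              ∑ _l ∈ Ioc L (2 * L), Lg ^ 2 := by
              apply sum_le_sum; intro l hl
              rw [mem_Ioc] at hl
              rw [Complex.norm_real, Real.norm_eq_abs]
              apply pow_le_pow_left₀ (abs_nonneg _)
              split_ifs
              · rw [abs_of_nonneg ArithmeticFunction.vonMangoldt_nonneg]
                refine ArithmeticFunction.vonMangoldt_le_log.trans (hlogle _ ?_ ?_)
                · exact_mod_cast (by omega : 1 ≤ l)
                · exact_mod_cast (by omega : l ≤ 4 * N)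
              · rw [abs_zero]; linarith
          _ = Lg ^ 2 * L := by
              rw [sum_const, Nat.card_Ioc, nsmul_eq_mul, show 2 * L - L = L by omega]; ring)
    have h3 : (2 * Lg ^ 4) * (Lg ^ 2) * R ^ 2 ≤ (2 * Lg ^ 3 * R) ^ 2 := by
      have : 0 ≤ Lg ^ 6 * R ^ 2 := by positivity
      nlinarith
    exact le_of_sq_le_sq (key.trans h3) (by positivity)
  -- type I with logarithms
  have hS2 : ‖∑ m ∈ Icc 1 N', ((mu1 U m : ℝ) : ℂ) * ∑ l ∈ Ioc (N / m) (N' / m), ((Real.log l : ℝ) : ℂ) * E (m * l)‖ ≤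
      2 * Lg * ∑ m ∈ Icc 1 (U * U), Y m := by
    have h2 : ∀ m ∈ Icc 1 N', ‖((mu1 U m : ℝ) : ℂ) * ∑ l ∈ Ioc (N / m) (N' / m), ((Real.log l : ℝ) : ℂ) * E (m * l)‖ ≤
        if m ≤ U * U then 2 * Lg * Y m else 0 := by
      intro m hm
      rw [mem_Icc] at hm
      split_ifs with hmU
      · rw [norm_mul, Complex.norm_real, Real.norm_eq_abs]
        have h3 : |mu1 U m| ≤ 1 := by
          rw [mu1_apply]
          split_ifs
          · exact_mod_cast ArithmeticFunction.abs_moebius_le_one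
          · simp
        have h4 : ‖∑ l ∈ Ioc (N / m) (N' / m), ((Real.log l : ℝ) : ℂ) * E (m * l)‖ ≤ 2 * Real.log ((N' / m : ℕ) : ℝ) * Y m := by
          apply abel_Ioc (N / m) (N' / m) (Nat.div_le_div_right hNN') (fun l : ℕ => Real.log l) (fun l => E (m * l))
          · intro a b hab
            simp only
            rcases Nat.eq_zero_or_pos a with h | h
            · rw [h, Nat.cast_zero, Real.log_zero]; exact Real.log_natCast_nonneg _
            · exact Real.log_le_log (by exact_mod_cast h) (by exact_mod_cast hab)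
          · intro n; exact Real.log_natCast_nonneg _
          · intro b' hb'
            exact hI m (mem_Icc.2 ⟨hm.1, hmU⟩) b' hb'
        have h5 : Real.log ((N' / m : ℕ) : ℝ) ≤ Lg := by
          have h6 : 1 ≤ N' / m := Nat.div_pos hm.2 hm.1
          apply hlogle
          · exact_mod_cast h6
          · have : N' / m ≤ N' := Nat.div_le_self _ _
            exact_mod_cast (by omega : N' / m ≤ 4 * N)
        have hYm := hY0 m
        calc |mu1 U m| * ‖∑ l ∈ Ioc (N / m) (N' / m), ((Real.log l : ℝ) : ℂ) * E (m * l)‖ ≤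
              1 * (2 * Real.log ((N' / m : ℕ) : ℝ) * Y m) := mul_le_mul h3 h4 (norm_nonneg _) (by norm_num)
          _ ≤ 1 * (2 * Lg * Y m) := by gcongr
          _ = _ := by ring
      · rw [mu1_apply, if_neg (by omega)]; simp
    refine (norm_sum_le _ _).trans ((sum_le_sum h2).trans ?_)
    rw [← sum_filter, mul_sum]
    apply sum_le_sum_of_subset_of_nonneg
    · intro m hm; rw [mem_filter, mem_Icc] at hm; rw [mem_Icc]; omega
    · intro m _ _
      have := hY0 m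
      positivity
  have hS3 : ‖∑ m ∈ Icc 1 N', (((mu1 U * l1 U) m : ℝ) : ℂ) * ∑ l ∈ Ioc (N / m) (N' / m), E (m * l)‖ ≤
      Lg * ∑ m ∈ Icc 1 (U * U), Y m := by
    have h2 : ∀ m ∈ Icc 1 N', ‖(((mu1 U * l1 U) m : ℝ) : ℂ) * ∑ l ∈ Ioc (N / m) (N' / m), E (m * l)‖ ≤
        if m ≤ U * U then Lg * Y m else 0 := by
      intro m hm
      rw [mem_Icc] at hm
      split_ifs with hmU
      · rw [norm_mul, Complex.norm_real, Real.norm_eq_abs]
        have h3 : |(mu1 U * l1 U) m| ≤ Lg := (conv_abs_le U U m hm.1).trans (hlogle _ (by exact_mod_cast hm.1) (by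
            exact_mod_cast (by omega : m ≤ 4 * N)))
        exact mul_le_mul h3 (hI m (mem_Icc.2 ⟨hm.1, hmU⟩) _ le_rfl) (norm_nonneg _) (by linarith)
      · rw [conv_zero U U m (by omega)]; simp
    refine (norm_sum_le _ _).trans ((sum_le_sum h2).trans ?_)
    rw [← sum_filter, mul_sum]
    apply sum_le_sum_of_subset_of_nonneg
    · intro m hm; rw [mem_filter, mem_Icc] at hm; rw [mem_Icc]; omega
    · intro m _ _
      have := hY0 m
      positivity
  have hlog2 : (Nat.log 2 N' + 1 : ℝ) ≤ 2 * Lg := by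
    have hN'1 : 1 ≤ N' := by omega
    have h2 : (Nat.log 2 N' : ℝ) * Real.log 2 ≤ Real.log N' := by
      have h3 : (2 : ℝ) ^ Nat.log 2 N' ≤ N' := by exact_mod_cast Nat.pow_log_le_self 2 (by omega)
      have h4 := Real.log_le_log (by positivity) h3
      rwa [Real.log_pow] at h4
    have h3 : Real.log N' ≤ Real.log (4 * N) := Real.log_le_log (by exact_mod_cast hN'1) (by exact_mod_cast (by omega : N' ≤ 4 * N))
    have h4 := Real.log_two_gt_d9
    have h5 : (0 : ℝ) ≤ Nat.log 2 N' := Nat.cast_nonneg _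
    nlinarith
  have hlog20 : (0 : ℝ) ≤ (Nat.log 2 N' + 1 : ℝ) := by positivity
  refine (norm_sub_le _ _).trans ?_
  refine (add_le_add (norm_add_le _ _) le_rfl).trans ?_
  have h7 : (Nat.log 2 N' + 1 : ℝ) ^ 2 * (2 * Lg ^ 3 * R) ≤ 8 * Lg ^ 5 * R := by
    calc (Nat.log 2 N' + 1 : ℝ) ^ 2 * (2 * Lg ^ 3 * R) ≤ (2 * Lg) ^ 2 * (2 * Lg ^ 3 * R) := by
          apply mul_le_mul_of_nonneg_right (pow_le_pow_left₀ hlog20 hlog2 2) (by positivity)
      _ = _ := by ring
  linarith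

end Pool.Agent.H373R2.T7
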