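import Mathlib
import Pool.Agent.H43.G.R_seed8.H373R2.T7.Vau
import Pool.Agent.H43.G.R_seed8.H807R2.Dav1

/-! Linear exponential sums: type I and type II. -/

namespace Pool.Agent.H373R2.T7
open Finset
open Pool.Agent.H807R2.Dav
open Pool.Agent.H373R2.T3 (dyadic_sum)

lemma KK_mono {M M' : ℝ} (hM : 0 ≤ M) (h : M ≤ M') (x : ℝ) : KK M x ≤ KK M' x := by
  unfold KK
  have h0 := dd_nonneg x
  have hM' : 0 ≤ M' := hM.trans h
  rw [div_le_div_iff₀ (by positivity) (by positivity)]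
  nlinarith

lemma gap_small {q : ℕ} {a : ℤ} (hcop : IsCoprime a (q : ℤ)) {α : ℝ}
    (hα : |α - a / q| ≤ 1 / (q : ℝ) ^ 2) (d : ℕ) (hd : 1 ≤ d) (h2d : 2 * d ≤ q) : 2 / (q : ℝ) ≤ dd (d * α) := by
  have hq0 : (0 : ℝ) < q := by exact_mod_cast (by omega : 0 < q)
  have hint : ∀ m : ℤ, 1 / (2 * (q : ℝ)) ≤ |d * α - m| := by
    intro m
    have hne : (d : ℤ) * a - m * q ≠ 0 := by
      intro h
      have h1 : (q : ℤ) ∣ (d : ℤ) * a := ⟨m, by linarith⟩
      have h2 : (q : ℤ) ∣ (d : ℤ) := (hcop.symm).dvd_of_dvd_mul_right h1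
      have h3 := Int.le_of_dvd (by omega) h2
      omega
    have h1 : (1 : ℝ) ≤ |(d : ℝ) * a - m * q| := by
      have : (1 : ℤ) ≤ |(d : ℤ) * a - m * q| := Int.one_le_abs hne
      exact_mod_cast this
    have h2 : 1 / (q : ℝ) ≤ |(d : ℝ) * ((a : ℝ) / q) - m| := by
      have e : (d : ℝ) * (a / q) - m = ((d : ℝ) * a - m * q) / q := by field_simp
      rw [e, abs_div, abs_of_pos hq0]
      exact div_le_div_of_nonneg_right h1 hq0.le
    have h3 : |(d : ℝ) * (α - a / q)| ≤ 1 / (2 * q) := by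
      rw [abs_mul, abs_of_nonneg (Nat.cast_nonneg d)]
      calc (d : ℝ) * |α - a / q| ≤ d * (1 / (q : ℝ) ^ 2) := mul_le_mul_of_nonneg_left hα (Nat.cast_nonneg _)
        _ ≤ (q / 2) * (1 / (q : ℝ) ^ 2) := by
            apply mul_le_mul_of_nonneg_right _ (by positivity)
            have : (2 * d : ℝ) ≤ q := by exact_mod_cast h2d
            linarith
        _ = _ := by field_simp
    have h4 : (d : ℝ) * ((a : ℝ) / q) - m = (d * α - m) - (d : ℝ) * (α - a / q) := by ring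
    have h5 := abs_sub (d * α - m : ℝ) ((d : ℝ) * (α - a / q))
    rw [← h4] at h5
    have h6 : 1 / (q : ℝ) = 1 / (2 * q) + 1 / (2 * q) := by field_simp; norm_num
    linarith
  set t := Int.fract ((d : ℝ) * α) with ht
  have h0 : 0 ≤ t := Int.fract_nonneg _
  have h1 : t < 1 := Int.fract_lt_one _
  have hdd : dd (d * α) = dd t := by
    have : (d : ℝ) * α = t + (⌊(d : ℝ) * α⌋ : ℤ) := (Int.fract_add_floor _).symm
    rw [this, dd_add_int]
  have h2 := dd_ge h0 h1.le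
  rw [hdd]
  have h3 : 1 / (2 * (q : ℝ)) ≤ t := by
    have := hint ⌊(d : ℝ) * α⌋
    rw [show (d : ℝ) * α - (⌊(d : ℝ) * α⌋ : ℤ) = t from rfl, abs_of_nonneg h0] at this
    exact this
  have h4 : 1 / (2 * (q : ℝ)) ≤ 1 - t := by
    have := hint (⌊(d : ℝ) * α⌋ + 1)
    have e : (d : ℝ) * α - ((⌊(d : ℝ) * α⌋ + 1 : ℤ) : ℝ) = -(1 - t) := by
      rw [ht, Int.fract]; push_cast; ring
    rw [e, abs_neg, abs_of_nonneg (by linarith)] at this
    exact this
  have h5 : 1 / (2 * (q : ℝ)) ≤ min t (1 - t) := le_min h3 h4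
  have h6 : 2 / (q : ℝ) = 4 * (1 / (2 * q)) := by field_simp; norm_num
  rw [h6]
  linarith

/-- sums over multiples -/
theorem typeI_lin {q : ℕ} (hq : 1 ≤ q) {a : ℤ} (hcop : IsCoprime a (q : ℤ)) {α : ℝ}
    (hα : |α - a / q| ≤ 1 / (q : ℝ) ^ 2) (N D : ℕ) (hN : 1 ≤ N) (hD : 1 ≤ D) :
    ∑ d ∈ Icc 1 D, KK (2 * N / d) (d * α) ≤
      600 * (Nat.log 2 D + 1 : ℝ) * ((N : ℝ) / q + D + q) * (1 + Real.log q) := by
  have hq0 : (0 : ℝ) < q := by exact_mod_cast hq
  have hq1 : (1 : ℝ) ≤ q := by exact_mod_cast hq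
  have hlq : 0 ≤ Real.log q := Real.log_nonneg hq1
  have hN0 : (1 : ℝ) ≤ N := by exact_mod_cast hN
  have hD0 : (1 : ℝ) ≤ D := by exact_mod_cast hD
  set J := Nat.log 2 D + 1 with hJ
  have hJ2 : D < 2 ^ J := Nat.lt_pow_succ_log_self (by norm_num) _
  have hKK0 : ∀ d : ℕ, 0 ≤ KK (2 * N / d) (d * α) := fun d => KK_nonneg (by positivity) _
  have hsplit : ∑ d ∈ Icc 1 D, KK (2 * N / d) (d * α) =
      ∑ d ∈ (Icc 1 D).filter (fun d => 2 * d ≤ q), KK (2 * N / d) (d * α) +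
      ∑ d ∈ (Icc 1 D).filter (fun d => ¬ 2 * d ≤ q), KK (2 * N / d) (d * α) :=
    (sum_filter_add_sum_filter_not _ _ _).symm
  rw [hsplit]
  have hA : ∑ d ∈ (Icc 1 D).filter (fun d => 2 * d ≤ q), KK (2 * N / d) (d * α) ≤ 126 * q * (1 + Real.log q) := by
    have h1 : ∀ d ∈ (Icc 1 D).filter (fun d => 2 * d ≤ q), KK (2 * N / d) (d * α) ≤ 3 / 2 * KK q (0 + d * α) := by
      intro d hd
      rw [mem_filter, mem_Icc] at hd
      have h2 := gap_small hcop hα d hd.1.1 hd.2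
      have h3 : 0 < 2 / (q : ℝ) := by positivity
      have h4 : 0 < dd (d * α) := lt_of_lt_of_le h3 h2
      have h5 := KK_le' (M := 2 * N / d) (by positivity) h4 le_rfl
      refine h5.trans ?_
      rw [zero_add]
      unfold KK
      have h6 : 2 ≤ q * dd (d * α) := by
        rw [div_le_iff₀ hq0] at h2
        linarith
      rw [mul_div_assoc', div_le_div_iff₀ h4 (by positivity)]
      nlinarith
    refine (sum_le_sum h1).trans ?_
    rw [← mul_sum]
    have h2 : ∑ d ∈ (Icc 1 D).filter (fun d => 2 * d ≤ q), KK q (0 + d * α) ≤ ∑ d ∈ range q, KK q (0 + d * α) := by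
      apply sum_le_sum_of_subset_of_nonneg
      · intro d hd
        rw [mem_filter, mem_Icc] at hd
        rw [mem_range]; omega
      · intro d _ _; exact KK_nonneg hq0.le _
    have h3 := vino hq hcop hα (M := (q : ℝ)) hq0.le 0 q
    rw [div_self hq0.ne'] at h3
    nlinarith
  have hB : ∑ d ∈ (Icc 1 D).filter (fun d => ¬ 2 * d ≤ q), KK (2 * N / d) (d * α) ≤
      6 * (N / q) + J * (546 * (N / q) + 21 * D * (1 + Real.log q)) := by
    set g : ℕ → ℝ := fun d => if 2 * d ≤ q then 0 else KK (2 * N / d) (d * α) with hg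
    have hg0 : ∀ d, 0 ≤ g d := by
      intro d; simp only [hg]; split_ifs
      · exact le_rfl
      · exact hKK0 d
    have e1 : ∑ d ∈ (Icc 1 D).filter (fun d => ¬ 2 * d ≤ q), KK (2 * N / d) (d * α) = ∑ d ∈ Icc 1 D, g d := by
      rw [sum_filter]
      apply sum_congr rfl
      intro d _
      simp only [hg]
      by_cases h : 2 * d ≤ q
      · rw [if_neg (by simpa using h), if_pos h]
      · rw [if_pos h, if_neg h]
    rw [e1]
    have h1 : ∑ d ∈ Icc 1 D, g d ≤ g 1 + ∑ d ∈ Ioc 1 (2 ^ J), g d := by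
      have h2 : Icc 1 D ⊆ insert 1 (Ioc 1 (2 ^ J)) := by
        intro d hd
        rw [mem_Icc] at hd
        rw [mem_insert, mem_Ioc]
        omega
      refine (sum_le_sum_of_subset_of_nonneg h2 (fun d _ _ => hg0 d)).trans ?_
      rw [sum_insert (by simp)]
    refine h1.trans (add_le_add ?_ ?_)
    · simp only [hg]
      split_ifs with h
      · positivity
      · have hq' : q = 1 := by omega
        have h2 := KK_le (M := 2 * N / (1 : ℕ)) (by positivity) ((1 : ℕ) * α)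
        rw [hq']
        refine h2.trans ?_
        push_cast
        linarith
    · rw [dyadic_sum]
      have h2 : ∀ i ∈ range J, ∑ d ∈ Ioc (2 ^ i) (2 * 2 ^ i), g d ≤ 546 * ((N : ℝ) / q) + 21 * D * (1 + Real.log q) := by
        intro i hi
        rw [mem_range] at hi
        set P : ℕ := 2 ^ i with hP
        have hP1 : 1 ≤ P := Nat.one_le_two_pow
        have hP0 : (1 : ℝ) ≤ P := by exact_mod_cast hP1
        have hPD : P ≤ D := by
          rw [hP]
          apply Nat.pow_le_of_le_log (by omega)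
          omega
        have hPDr : (P : ℝ) ≤ D := by exact_mod_cast hPD
        by_cases h3 : 4 * P ≤ q
        · have h4 : ∑ d ∈ Ioc P (2 * P), g d = 0 := by
            apply sum_eq_zero
            intro d hd
            rw [mem_Ioc] at hd
            simp only [hg]
            rw [if_pos (by omega)]
          rw [h4]; positivity
        · have h4 : ∑ d ∈ Ioc P (2 * P), g d ≤ ∑ d ∈ range (2 * P + 1), KK (2 * N / P) (0 + d * α) := by
            refine le_trans ?_ (sum_le_sum_of_subset_of_nonneg (s := Ioc P (2 * P)) ?_ ?_)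
            · apply sum_le_sum
              intro d hd
              rw [mem_Ioc] at hd
              have hd0 : (P : ℝ) ≤ d := by exact_mod_cast hd.1.le
              simp only [hg]
              split_ifs
              · exact KK_nonneg (by positivity) _
              · rw [zero_add]
                apply KK_mono (by positivity)
                apply div_le_div_of_nonneg_left (by positivity) (by linarith) hd0
            · intro d hd
              rw [mem_Ioc] at hd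
              rw [mem_range]; omega
            · intro d _ _
              exact KK_nonneg (by positivity) _
          refine h4.trans ((vino hq hcop hα (M := 2 * N / P) (by positivity) 0 (2 * P + 1)).trans ?_)
          have h5 : (((2 * P + 1 : ℕ) : ℝ) / q + 1) ≤ 7 * P / q := by
            rw [div_add_one hq0.ne', div_le_div_iff_of_pos_right hq0]
            push_cast
            have : (q : ℝ) ≤ 4 * P := by exact_mod_cast (by omega : q ≤ 4 * P)
            linarith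
          calc (((2 * P + 1 : ℕ) : ℝ) / q + 1) * (39 * (2 * N / P) + 3 * q * (1 + Real.log q)) ≤
              (7 * P / q) * (39 * (2 * N / P) + 3 * q * (1 + Real.log q)) := by
                apply mul_le_mul_of_nonneg_right h5 (by positivity)
            _ = 546 * ((N : ℝ) / q) + 21 * P * (1 + Real.log q) := by
                field_simp; ring
            _ ≤ _ := by
                gcongr
      refine (sum_le_sum h2).trans ?_
      rw [sum_const, card_range, nsmul_eq_mul]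
  have hJ1 : (1 : ℝ) ≤ J := by exact_mod_cast (by omega : 1 ≤ J)
  have hJe : (Nat.log 2 D + 1 : ℝ) = J := by rw [hJ]; push_cast; ring
  rw [hJe]
  have hNq : 0 ≤ (N : ℝ) / q := by positivity
  set l := 1 + Real.log q with hl
  have hl1 : 1 ≤ l := by linarith
  have hJl : 1 ≤ (J : ℝ) * l := by nlinarith
  have t1 : 126 * (q : ℝ) * l ≤ 126 * J * q * l := by
    have : 0 ≤ (q : ℝ) * l := by positivity
    nlinarith
  have t2 : 6 * ((N : ℝ) / q) ≤ 6 * (J * l) * (N / q) := by nlinarith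
  have t3 : (J : ℝ) * (546 * (N / q)) ≤ 546 * (J * l) * (N / q) := by
    have : 0 ≤ (J : ℝ) * (N / q) := by positivity
    nlinarith
  have t4 : 0 ≤ (J : ℝ) * l * D := by positivity
  have t5 : 0 ≤ (J : ℝ) * l * (N / q) := by positivity
  have t6 : 0 ≤ (J : ℝ) * l * q := by positivity
  nlinarith

/-- Cauchy-Schwarz for complex sums -/
lemma cs_norm {ι : Type*} (s : Finset ι) (a S : ι → ℂ) :
    ‖∑ m ∈ s, a m * S m‖ ^ 2 ≤ (∑ m ∈ s, ‖a m‖ ^ 2) * ∑ m ∈ s, ‖S m‖ ^ 2 := by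
  have h1 : ‖∑ m ∈ s, a m * S m‖ ≤ ∑ m ∈ s, ‖a m‖ * ‖S m‖ :=
    (norm_sum_le _ _).trans (le_of_eq (sum_congr rfl fun m _ => norm_mul _ _))
  calc ‖∑ m ∈ s, a m * S m‖ ^ 2 ≤ (∑ m ∈ s, ‖a m‖ * ‖S m‖) ^ 2 := pow_le_pow_left₀ (norm_nonneg _) h1 2
    _ ≤ _ := sum_mul_sq_le_sq_mul_sq _ _ _

lemma ee_conj' (x : ℝ) : (starRingEnd ℂ) (ee x) = ee (-x) := by
  rw [ee_eq, ee_eq, ← Complex.exp_conj]
  congr 1
  simp only [map_mul, Complex.conj_ofReal, Complex.conj_I]
  push_cast; ring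

/-- bilinear sums with a linear phase -/
theorem typeII_lin {q : ℕ} (hq : 1 ≤ q) {c : ℤ} (hcop : IsCoprime c (q : ℤ)) {α : ℝ}
    (hα : |α - c / q| ≤ 1 / (q : ℝ) ^ 2) (N N' M L : ℕ) (a b : ℕ → ℂ) :
    ‖∑ m ∈ Ioc M (2 * M), ∑ l ∈ Ioc L (2 * L), a m * b l *
      (if N < m * l ∧ m * l ≤ N' then ee (((m * l : ℕ) : ℝ) * α) else 0)‖ ^ 2 ≤
      (∑ m ∈ Ioc M (2 * M), ‖a m‖ ^ 2) * ((∑ l ∈ Ioc L (2 * L), ‖b l‖ ^ 2) *
        (((L : ℝ) / q + 1) * (39 * M + 3 * q * (1 + Real.log q)))) := by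
  classical
  set S : ℕ → ℂ := fun m => ∑ l ∈ Ioc L (2 * L), b l * (if N < m * l ∧ m * l ≤ N' then ee (((m * l : ℕ) : ℝ) * α) else 0) with hS
  have e1 : ∑ m ∈ Ioc M (2 * M), ∑ l ∈ Ioc L (2 * L), a m * b l *
      (if N < m * l ∧ m * l ≤ N' then ee (((m * l : ℕ) : ℝ) * α) else 0) = ∑ m ∈ Ioc M (2 * M), a m * S m := by
    apply sum_congr rfl; intro m _
    rw [hS, mul_sum]
    apply sum_congr rfl; intro l _
    ring
  rw [e1]
  refine (cs_norm _ _ _).trans (mul_le_mul_of_nonneg_left ?_ (by positivity))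
  -- expand the square
  have h1 : ((∑ m ∈ Ioc M (2 * M), ‖S m‖ ^ 2 : ℝ) : ℂ) =
      ∑ l ∈ Ioc L (2 * L), ∑ l' ∈ Ioc L (2 * L), (b l * (starRingEnd ℂ) (b l')) *
        ∑ m ∈ (Ioc M (2 * M)).filter (fun m => (N < m * l ∧ m * l ≤ N') ∧ (N < m * l' ∧ m * l' ≤ N')),
          ee ((m : ℝ) * (((l : ℝ) - l') * α)) := by
    push_cast
    have h2 : ∀ m ∈ Ioc M (2 * M), ((‖S m‖ : ℂ)) ^ 2 = ∑ l ∈ Ioc L (2 * L), ∑ l' ∈ Ioc L (2 * L),
        (b l * (starRingEnd ℂ) (b l')) * (if (N < m * l ∧ m * l ≤ N') ∧ (N < m * l' ∧ m * l' ≤ N') then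
          ee ((m : ℝ) * (((l : ℝ) - l') * α)) else 0) := by
      intro m _
      rw [← Complex.mul_conj', hS]
      simp only
      rw [map_sum, sum_mul_sum]
      apply sum_congr rfl; intro l _
      apply sum_congr rfl; intro l' _
      rw [map_mul]
      by_cases g1 : N < m * l ∧ m * l ≤ N'
      · by_cases g2 : N < m * l' ∧ m * l' ≤ N'
        · rw [if_pos g1, if_pos g2, if_pos ⟨g1, g2⟩, ee_conj']
          have : ee ((m : ℝ) * (((l : ℝ) - l') * α)) = ee (((m * l : ℕ) : ℝ) * α) * ee (-(((m * l' : ℕ) : ℝ) * α)) := by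
            rw [← ee_add]; congr 1; push_cast; ring
          rw [this]; ring
        · rw [if_neg g2, if_neg (show ¬ ((N < m * l ∧ m * l ≤ N') ∧ (N < m * l' ∧ m * l' ≤ N')) from fun h => g2 h.2)]; simp
      · rw [if_neg g1, if_neg (show ¬ ((N < m * l ∧ m * l ≤ N') ∧ (N < m * l' ∧ m * l' ≤ N')) from fun h => g1 h.1)]; simp
    rw [sum_congr rfl h2, sum_comm]
    apply sum_congr rfl; intro l _
    rw [sum_comm]
    apply sum_congr rfl; intro l' _
    rw [← mul_sum, sum_filter]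
  have hK : ∀ l ∈ Ioc L (2 * L), ∀ l' ∈ Ioc L (2 * L),
      ‖∑ m ∈ (Ioc M (2 * M)).filter (fun m => (N < m * l ∧ m * l ≤ N') ∧ (N < m * l' ∧ m * l' ≤ N')),
          ee ((m : ℝ) * (((l : ℝ) - l') * α))‖ ≤ KK M (((l : ℝ) - l') * α) := by
    intro l hl l' hl'
    rw [mem_Ioc] at hl hl'
    have hl0 : 0 < l := by omega
    have hl0' : 0 < l' := by omega
    set lo := max M (max (N / l) (N / l')) with hlo
    set hi := min (2 * M) (min (N' / l) (N' / l')) with hhi
    have hset : (Ioc M (2 * M)).filter (fun m => (N < m * l ∧ m * l ≤ N') ∧ (N < m * l' ∧ m * l' ≤ N')) =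
        Ico (lo + 1) (hi + 1) := by
      ext m
      rw [mem_filter, mem_Ioc, mem_Ico]
      have g1 : N < m * l ↔ N / l < m := (Nat.div_lt_iff_lt_mul hl0).symm
      have g2 : m * l ≤ N' ↔ m ≤ N' / l := (Nat.le_div_iff_mul_le hl0).symm
      have g3 : N < m * l' ↔ N / l' < m := (Nat.div_lt_iff_lt_mul hl0').symm
      have g4 : m * l' ≤ N' ↔ m ≤ N' / l' := (Nat.le_div_iff_mul_le hl0').symm
      rw [g1, g2, g3, g4]
      omega
    rw [hset]
    rcases le_or_gt (lo + 1) (hi + 1) with h | h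
    · apply geo_bound _ _ h
      have g1 : M ≤ lo := le_max_left _ _
      have g2 : hi ≤ 2 * M := min_le_left _ _
      have g1r : (M : ℝ) ≤ lo := by exact_mod_cast g1
      have g2r : (hi : ℝ) ≤ 2 * M := by exact_mod_cast g2
      push_cast
      linarith
    · rw [Ico_eq_empty_of_le h.le, sum_empty, norm_zero]
      exact KK_nonneg (Nat.cast_nonneg _) _
  have h2 : ∑ m ∈ Ioc M (2 * M), ‖S m‖ ^ 2 ≤
      ∑ l ∈ Ioc L (2 * L), ∑ l' ∈ Ioc L (2 * L), (‖b l‖ ^ 2 + ‖b l'‖ ^ 2) / 2 * KK M (((l : ℝ) - l') * α) := by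
    have h3 : (∑ m ∈ Ioc M (2 * M), ‖S m‖ ^ 2) = ‖((∑ m ∈ Ioc M (2 * M), ‖S m‖ ^ 2 : ℝ) : ℂ)‖ := by
      rw [Complex.norm_real, Real.norm_of_nonneg (by positivity)]
    rw [h3, h1]
    refine (norm_sum_le _ _).trans (sum_le_sum fun l hl => ?_)
    refine (norm_sum_le _ _).trans (sum_le_sum fun l' hl' => ?_)
    rw [norm_mul, norm_mul, RCLike.norm_conj]
    apply mul_le_mul _ (hK l hl l' hl') (norm_nonneg _) (by positivity)
    nlinarith [sq_nonneg (‖b l‖ - ‖b l'‖)]
  refine h2.trans ?_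
  have h4 : ∑ l ∈ Ioc L (2 * L), ∑ l' ∈ Ioc L (2 * L), (‖b l‖ ^ 2 + ‖b l'‖ ^ 2) / 2 * KK M (((l : ℝ) - l') * α) =
      ∑ l ∈ Ioc L (2 * L), ‖b l‖ ^ 2 * ∑ l' ∈ Ioc L (2 * L), KK M (((l : ℝ) - l') * α) := by
    have e2 : ∀ l l' : ℕ, (‖b l‖ ^ 2 + ‖b l'‖ ^ 2) / 2 * KK M (((l : ℝ) - l') * α) =
        1 / 2 * (‖b l‖ ^ 2 * KK M (((l : ℝ) - l') * α)) + 1 / 2 * (‖b l'‖ ^ 2 * KK M (((l : ℝ) - l') * α)) := by
      intro l l'; ring
    simp_rw [e2, sum_add_distrib]
    have e3 : ∑ l ∈ Ioc L (2 * L), ∑ l' ∈ Ioc L (2 * L), 1 / 2 * (‖b l'‖ ^ 2 * KK M (((l : ℝ) - l') * α)) =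
        ∑ l ∈ Ioc L (2 * L), ∑ l' ∈ Ioc L (2 * L), 1 / 2 * (‖b l‖ ^ 2 * KK M (((l : ℝ) - l') * α)) := by
      rw [sum_comm]
      apply sum_congr rfl; intro l _
      apply sum_congr rfl; intro l' _
      rw [← KK_neg]; congr 3; ring
    rw [e3, ← sum_add_distrib]
    apply sum_congr rfl; intro l _
    rw [← sum_add_distrib, mul_sum]
    apply sum_congr rfl; intro l' _
    ring
  rw [h4, sum_mul]
  apply sum_le_sum
  intro l _
  apply mul_le_mul_of_nonneg_left _ (by positivity)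
  have h5 : ∑ l' ∈ Ioc L (2 * L), KK M (((l : ℝ) - l') * α) = ∑ j ∈ range L, KK M (((L : ℝ) + 1 - l) * α + j * α) := by
    have e4 : Ioc L (2 * L) = (range L).image (fun j => L + 1 + j) := by
      ext x
      rw [mem_Ioc, mem_image]
      constructor
      · intro hx
        exact ⟨x - (L + 1), mem_range.2 (by omega), by omega⟩
      · rintro ⟨j, hj, rfl⟩
        rw [mem_range] at hj
        omega
    rw [e4, sum_image (by intro x _ y _ h; simpa using h)]
    apply sum_congr rfl; intro j _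
    rw [← KK_neg]; congr 1; push_cast; ring
  rw [h5]
  exact vino hq hcop hα (Nat.cast_nonneg _) _ _

end Pool.Agent.H373R2.T7
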