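import Mathlib
import Pool.Agent.H43.G.R_seed8.H373R2.T7.Bonf

/-! Counting in intersections of unions of residue classes. -/

namespace Pool.Agent.H373R2.T7
open Finset

lemma count_class (x q c : ℕ) (hq : 1 ≤ q) :
    |(((Icc 1 x).filter (fun n => n ≡ c [MOD q])).card : ℝ) - x / q| ≤ 1 := by
  have e : Icc 1 x = Ioc 0 x := by ext; simp [Nat.lt_iff_add_one_le]
  have h := Nat.Ioc_filter_modEq_card 0 x (show 0 < q by omega) c
  rw [e]
  have hq0 : (0 : ℚ) < q := by exact_mod_cast (by omega : 0 < q)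
  set A : ℤ := ⌊((x : ℚ) - c) / q⌋ with hA
  set B : ℤ := ⌊(((0 : ℕ) : ℚ) - c) / q⌋ with hB
  have hAB : B ≤ A := by
    rw [hA, hB]
    apply Int.floor_le_floor
    apply div_le_div_of_nonneg_right _ hq0.le
    have : (0 : ℚ) ≤ x := Nat.cast_nonneg _
    push_cast
    linarith
  rw [max_eq_left (by omega)] at h
  have h1 : (((Ioc 0 x).filter (fun n => n ≡ c [MOD q])).card : ℝ) = ((A - B : ℤ) : ℝ) := by
    rw [← h]; push_cast; rfl
  rw [h1]
  have a1 := Int.floor_le (((x : ℚ) - c) / q)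
  have a2 := Int.lt_floor_add_one (((x : ℚ) - c) / q)
  have b1 := Int.floor_le ((((0 : ℕ) : ℚ) - c) / q)
  have b2 := Int.lt_floor_add_one ((((0 : ℕ) : ℚ) - c) / q)
  rw [← hA] at a1 a2
  rw [← hB] at b1 b2
  have h3 : ((x : ℚ) - c) / q - (((0 : ℕ) : ℚ) - c) / q = x / q := by
    push_cast; field_simp; ring
  have h4 : |((A - B : ℤ) : ℚ) - x / q| ≤ 1 := by
    push_cast
    rw [abs_le]
    constructor <;> linarith
  have h5 : ((|((A - B : ℤ) : ℚ) - x / q| : ℚ) : ℝ) ≤ ((1 : ℚ) : ℝ) := by exact_mod_cast h4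
  push_cast at h5 ⊢
  exact h5

/-- joint distribution in residue classes -/
theorem count_sys (A : ℕ → ℕ → Prop) [∀ p a, Decidable (A p a)] (x : ℕ) (S : Finset ℕ) (hS : ∀ p ∈ S, p.Prime) :
    ∀ q : ℕ, 1 ≤ q → (∀ p ∈ S, ¬ p ∣ q) → ∀ c : ℕ,
    |(((Icc 1 x).filter (fun n => n ≡ c [MOD q] ∧ ∀ p ∈ S, A p (n % p))).card : ℝ) -
      (x : ℝ) / q * ∏ p ∈ S, ((((range p).filter (fun a => A p a)).card : ℝ) / p)| ≤
      ∏ p ∈ S, (((range p).filter (fun a => A p a)).card : ℝ) := by
  induction S using Finset.induction_on with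
  | empty =>
    intro q hq _ c
    have h := count_class x q c hq
    simpa using h
  | insert p S hp ih =>
    intro q hq hdq c
    have hpp := hS p (mem_insert_self _ _)
    have hS' : ∀ p' ∈ S, p'.Prime := fun p' h => hS p' (mem_insert_of_mem h)
    have hpq : q.Coprime p := by
      rw [Nat.coprime_comm]
      exact (Nat.Prime.coprime_iff_not_dvd hpp).2 (hdq p (mem_insert_self _ _))
    have hp0 : (0 : ℝ) < p := by exact_mod_cast hpp.pos
    have hq0 : (0 : ℝ) < q := by exact_mod_cast hq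
    rw [prod_insert hp, prod_insert hp]
    set ρ := (range p).filter (fun a => A p a) with hρ
    -- fibres
    have h1 : ((Icc 1 x).filter (fun n => n ≡ c [MOD q] ∧ ∀ p' ∈ insert p S, A p' (n % p'))).card =
        ∑ a ∈ ρ, ((Icc 1 x).filter (fun n => n ≡ (Nat.chineseRemainder hpq c a : ℕ) [MOD (q * p)] ∧
          ∀ p' ∈ S, A p' (n % p'))).card := by
      rw [card_eq_sum_card_fiberwise (f := fun n => n % p) (t := ρ)]
      · apply sum_congr rfl
        intro a ha
        rw [hρ, mem_filter, mem_range] at ha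
        congr 1
        ext n
        simp only [mem_filter, mem_insert, forall_eq_or_imp]
        have hcr : n ≡ (Nat.chineseRemainder hpq c a : ℕ) [MOD (q * p)] ↔ n ≡ c [MOD q] ∧ n ≡ a [MOD p] := by
          constructor
          · intro h
            have k1 := (Nat.chineseRemainder hpq c a).2.1
            have k2 := (Nat.chineseRemainder hpq c a).2.2
            exact ⟨(h.of_mul_right p).trans k1, (h.of_mul_left q).trans k2⟩
          · rintro ⟨h1, h2⟩
            exact Nat.chineseRemainder_modEq_unique hpq h1 h2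
        have hmod : n ≡ a [MOD p] ↔ n % p = a := by
          unfold Nat.ModEq
          rw [Nat.mod_eq_of_lt ha.1]
        rw [hcr, hmod]
        constructor
        · rintro ⟨⟨h1, h2, h3, h4⟩, h5⟩
          exact ⟨h1, ⟨h2, h5⟩, h4⟩
        · rintro ⟨h1, ⟨h2, h5⟩, h4⟩
          exact ⟨⟨h1, h2, by rw [h5]; exact ha.2, h4⟩, h5⟩
      · intro n hn
        simp only [coe_filter, mem_Icc, mem_insert, forall_eq_or_imp, Set.mem_ofPred_eq] at hn
        rw [hρ]
        simp only [coe_filter, mem_range, Set.mem_ofPred_eq]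
        exact ⟨Nat.mod_lt _ hpp.pos, hn.2.2.1⟩
    rw [h1]
    push_cast
    have h2 : (x : ℝ) / q * (((ρ.card : ℝ) / p) * ∏ p' ∈ S, ((((range p').filter (fun a => A p' a)).card : ℝ) / p')) =
        ∑ a ∈ ρ, (x : ℝ) / ((q * p : ℕ) : ℝ) * ∏ p' ∈ S, ((((range p').filter (fun a => A p' a)).card : ℝ) / p') := by
      rw [sum_const, nsmul_eq_mul]
      push_cast
      rw [← div_div]
      ring
    rw [h2, ← sum_sub_distrib]
    refine (abs_sum_le_sum_abs _ _).trans ?_
    have h3 : ∀ a ∈ ρ, |(((Icc 1 x).filter (fun n => n ≡ (Nat.chineseRemainder hpq c a : ℕ) [MOD (q * p)] ∧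
          ∀ p' ∈ S, A p' (n % p'))).card : ℝ) -
        (x : ℝ) / ((q * p : ℕ) : ℝ) * ∏ p' ∈ S, ((((range p').filter (fun a => A p' a)).card : ℝ) / p')| ≤
        ∏ p' ∈ S, (((range p').filter (fun a => A p' a)).card : ℝ) := by
      intro a _
      apply ih hS' (q * p) (Nat.mul_pos hq hpp.pos)
      intro p' hp' hd
      have hp'p := hS' p' hp'
      rcases (Nat.Prime.dvd_mul hp'p).1 hd with h | h
      · exact hdq p' (mem_insert_of_mem hp') h
      · rw [Nat.prime_dvd_prime_iff_eq hp'p hpp] at h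
        exact hp (h ▸ hp')
    refine (sum_le_sum h3).trans ?_
    rw [sum_const, nsmul_eq_mul]

end Pool.Agent.H373R2.T7
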