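import Mathlib
import Pool.Agent.H43.G.R_seed8.H373R2.T7.TupleMain

/-! The main term for tuples, with an error term saving any power of the logarithm. -/

namespace Pool.Agent.H373R2.T7
open Finset

lemma LS_fam {k : ℕ} (hk : 1 ≤ k) (a : Fin k → ℤ) (z r : ℕ) (A : ℝ) (hA : (k : ℝ) ^ r ≤ A) : H343E.Fam A (LS a z r) := by
  classical
  constructor
  · intro q b hb
    unfold LS at hb
    split_ifs at hb with h
    · rw [mem_filter, mem_range] at hb
      refine ⟨hb.1, ?_⟩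
      rw [Nat.coprime_iff_gcd_eq_one]
      by_contra hne
      obtain ⟨p, hp, hpb, hpq⟩ := Nat.Prime.not_coprime_iff_dvd.1 hne
      have hq0 : q ≠ 0 := by omega
      exact (hb.2 p (Nat.mem_primeFactors.2 ⟨hp, hpq, hq0⟩)).1 hpb
    · simp at hb
  · intro q
    by_cases h : ∃ S ⊆ pz z, S.card ≤ r ∧ ∏ p ∈ S, p = q
    · obtain ⟨S, hS, hr, rfl⟩ := h
      rw [LS_card a z r S hS hr]
      refine le_trans ?_ hA
      push_cast
      calc ∏ p ∈ S, (rhoP a p : ℝ) ≤ ∏ _p ∈ S, (k : ℝ) := prod_le_prod (fun _ _ => Nat.cast_nonneg _)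
            (fun p _ => by exact_mod_cast rhoP_le_k a p)
        _ = (k : ℝ) ^ S.card := by rw [prod_const]
        _ ≤ (k : ℝ) ^ r := pow_le_pow_right₀ (by exact_mod_cast hk) hr
    · have : LS a z r q = ∅ := by
        unfold LS
        rw [if_neg h]
      rw [this, card_empty, Nat.cast_zero]
      exact (pow_nonneg (Nat.cast_nonneg _) _).trans hA

lemma singZ_eq {k : ℕ} (a : Fin k → ℤ) (z : ℕ) :
    singZ a z = ((Vz z)⁻¹) ^ k * ∏ p ∈ pz z, (1 - (rhoP a p : ℝ) / (p - 1 : ℝ)) := by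
  unfold singZ Vz pz
  rw [← prod_inv_distrib, ← prod_pow, ← prod_mul_distrib]
  apply prod_congr rfl
  intro p hp
  have hpp := (mem_filter.1 hp).2
  have hp2 : (2 : ℝ) ≤ p := by exact_mod_cast hpp.two_le
  rw [nuP_eq a p hpp]
  push_cast
  have h1 : (1 : ℝ) - 1 / p = (p - 1) / p := by field_simp
  have h2 : (p : ℝ) - 1 ≠ 0 := by
    have : (0 : ℝ) < p - 1 := by linarith
    exact this.ne'
  have h3 : (p : ℝ) ≠ 0 := by positivity
  rw [h1, div_pow, inv_div, div_pow, pow_succ, pow_succ]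
  field_simp
  ring

lemma lamAP_eq (y q c : ℕ) : lamAP y q c = H343E.psiAP y q c := by
  unfold lamAP H343E.psiAP
  rw [Nat.floor_natCast]

lemma lam1_eq' (y : ℕ) : lam1 y = H343E.psi1 y := by
  unfold lam1 H343E.psi1
  rw [Nat.floor_natCast]

set_option maxHeartbeats 1000000 in
theorem tuple_main (k E U : ℕ) (hk : 1 ≤ k) : ∃ N0 : ℕ, ∀ N : ℕ, N0 ≤ N → ∀ z : ℕ, 1 ≤ z → (z : ℝ) ≤ Real.log N ^ E →
    ∀ a : Fin k → ℤ, |∑ n ∈ Icc 1 N, ArithmeticFunction.vonMangoldt n *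
      ∏ i, (if ∀ p ∈ pz z, ¬ (p : ℤ) ∣ (n : ℤ) + a i then (Vz z)⁻¹ else 0) - singZ a z * N| ≤ N / Real.log N ^ U := by
  set U2 := U + k + 2 with hU2
  obtain ⟨N0, h0⟩ := choice (2 * k) E U2 4
  set C' := (3 * ((2 * k) * (1 + E)) + U2 + 1) * k with hC'
  set U1 := C' + U + k + 2 with hU1
  obtain ⟨B, X0, hBV⟩ := H343E.unsmoothed U1
  obtain ⟨C, N1, hC, hpnt⟩ := pnt_lam (U + k + 2)
  obtain ⟨n1, h1⟩ := ev_log' (B + E + U + k + 6) 1
  obtain ⟨n2, h2⟩ := ev_L' (C + 40)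
  obtain ⟨n3, h3⟩ := Vz_inv_small E
  refine ⟨max (max (max N0 ⌈X0⌉₊) (max N1 n1)) (max (max n2 n3) 4), fun N hN z hz hzE a => ?_⟩
  have b1 := le_trans (le_trans (le_trans (le_max_left _ _) (le_max_left _ _)) (le_max_left _ _)) hN
  have b2 := le_trans (le_trans (le_trans (le_max_right _ _) (le_max_left _ _)) (le_max_left _ _)) hN
  have b3 := le_trans (le_trans (le_trans (le_max_left _ _) (le_max_right _ _)) (le_max_left _ _)) hN
  have b4 := le_trans (le_trans (le_trans (le_max_right _ _) (le_max_right _ _)) (le_max_left _ _)) hN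
  have b5 := le_trans (le_trans (le_trans (le_max_left _ _) (le_max_left _ _)) (le_max_right _ _)) hN
  have b6 := le_trans (le_trans (le_trans (le_max_right _ _) (le_max_left _ _)) (le_max_right _ _)) hN
  have hN4 : 4 ≤ N := le_trans (le_trans (le_max_right _ _) (le_max_right _ _)) hN
  obtain ⟨r, hr1, hr2, hr3⟩ := h0 N b1 z hzE
  have hX0 : X0 ≤ (N : ℝ) := (Nat.le_ceil _).trans (by exact_mod_cast b2)
  have hP := hpnt N b3
  have a1 := h1 N b4
  have hL := h2 N b5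
  have hV := h3 N b6 z hz hzE
  have hNr : (4 : ℝ) ≤ N := by exact_mod_cast hN4
  have hN0 : (0 : ℝ) < N := by linarith
  set L := Real.log N with hLd
  have hL40 : 40 ≤ L := by linarith
  have hL0 : 0 < L := by linarith
  have hL1 : 1 ≤ L := by linarith
  rw [one_mul] at a1
  have hss : √(N : ℝ) * √(N : ℝ) = N := Real.mul_self_sqrt hN0.le
  have hs0 : 0 < √(N : ℝ) := Real.sqrt_pos.2 hN0
  set D : ℕ := (z + 1) ^ r with hD
  have hD1 : 1 ≤ D := Nat.one_le_pow _ _ (by omega)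
  have hD1r : (1 : ℝ) ≤ D := by exact_mod_cast hD1
  have hDr : (D : ℝ) = ((z : ℝ) + 1) ^ r := by rw [hD]; push_cast; ring
  have hD2 : (D : ℝ) ^ 2 ≤ √N := by
    have h5 : ((D : ℝ) ^ 2) ^ 2 ≤ N := by rw [← pow_mul, hDr]; exact hr2
    have h6 := Real.sqrt_le_sqrt h5
    rwa [Real.sqrt_sq (by positivity)] at h6
  have hDs : (D : ℝ) ≤ √N := le_trans (le_self_pow₀ hD1r (by norm_num)) hD2
  set A : ℝ := L ^ C' with hA
  have hA1 : 1 ≤ A := one_le_pow₀ hL1
  have hkA : (k : ℝ) ^ r ≤ A := hr3 k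
  have hpow : ∀ j, j ≤ B + E + U + k + 6 → L ^ j ≤ √(N : ℝ) := fun j hj => (pow_le_pow_right₀ hL1 hj).trans a1
  have hNB : √(N : ℝ) ≤ N / L ^ B := by
    rw [le_div_iff₀ (by positivity)]
    calc √(N : ℝ) * L ^ B ≤ √(N : ℝ) * √(N : ℝ) := by
          apply mul_le_mul_of_nonneg_left (hpow B (by omega)) hs0.le
      _ = N := hss
  have hbv := hBV N hX0 A hA1 D (hDs.trans hNB) ((hD2.trans hNB).trans (by
      apply div_le_div_of_nonneg_right _ (by positivity)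
      exact le_mul_of_one_le_left hN0.le hA1)) (LS a z r) (LS_fam hk a z r A hkA)
  have hEf : ∑ d ∈ Icc 1 D, Ef a N z r d ≤ A * N / L ^ U1 := by
    refine le_trans (le_of_eq ?_) hbv
    apply sum_congr rfl
    intro d _
    unfold Ef
    apply sum_congr rfl
    intro b _
    rw [lamAP_eq, lam1_eq']
  have hsv := tuple_sieve a N z r
  -- the sums
  set c0 : ℝ := z * ((Nat.log 2 N + 1 : ℝ) * Real.log N) with hc0
  have hlog2 : (Nat.log 2 N : ℝ) ≤ 2 * L := natlog_le N (by omega)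
  have hc0' : c0 ≤ L ^ (E + 3) := by
    rw [hc0]
    calc (z : ℝ) * ((Nat.log 2 N + 1 : ℝ) * Real.log N) ≤ L ^ E * ((2 * L + 1) * L) := by gcongr
      _ ≤ L ^ E * L ^ 3 := by
          apply mul_le_mul_of_nonneg_left _ (by positivity)
          have h5 : 2 * L + 1 ≤ L * L := by nlinarith
          calc (2 * L + 1) * L ≤ (L * L) * L := mul_le_mul_of_nonneg_right h5 hL0.le
            _ = L ^ 3 := by ring
      _ = L ^ (E + 3) := by rw [pow_add]
  have hc00 : 0 ≤ c0 := by positivity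
  set P1 : ℝ := ∏ p ∈ pz z, (1 - (rhoP a p : ℝ) / (p - 1 : ℝ)) with hP1
  have hP10 : 0 ≤ P1 ∧ P1 ≤ 1 := by
    have hh : ∀ p ∈ pz z, 0 ≤ 1 - (rhoP a p : ℝ) / (p - 1 : ℝ) ∧ 1 - (rhoP a p : ℝ) / (p - 1 : ℝ) ≤ 1 := by
      intro p hp
      have hp2 : (2 : ℝ) ≤ p := by exact_mod_cast (mem_pz.1 hp).2.two_le
      have h5 := rhoP_le a p
      have h6 : (rhoP a p : ℝ) ≤ ((p - 1 : ℕ) : ℝ) := by exact_mod_cast h5
      rw [Nat.cast_sub (mem_pz.1 hp).2.one_le] at h6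
      push_cast at h6
      have h7 : (rhoP a p : ℝ) / (p - 1 : ℝ) ≤ 1 := by rw [div_le_one (by linarith)]; exact h6
      have h8 : 0 ≤ (rhoP a p : ℝ) / (p - 1 : ℝ) := div_nonneg (Nat.cast_nonneg _) (by linarith)
      constructor <;> linarith
    exact ⟨prod_nonneg fun p hp => (hh p hp).1, prod_le_one (fun p hp => (hh p hp).1) (fun p hp => (hh p hp).2)⟩
  set W0 : ℝ := ∑ n ∈ (Icc 1 N).filter (fun n : ℕ => ∀ p ∈ pz z, ¬ ∃ i, (p : ℤ) ∣ (n : ℤ) + a i), ArithmeticFunction.vonMangoldt n with hW0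
  set W1 : ℝ := ∑ n ∈ ((Icc 1 N).filter (fun n : ℕ => ∀ p ∈ pz z, ¬ p ∣ n)).filter
        (fun n : ℕ => ∀ p ∈ pz z, ¬ ∃ i, (p : ℤ) ∣ (n : ℤ) + a i), ArithmeticFunction.vonMangoldt n with hW1
  have hsum : ∑ n ∈ Icc 1 N, ArithmeticFunction.vonMangoldt n *
      ∏ i, (if ∀ p ∈ pz z, ¬ (p : ℤ) ∣ (n : ℤ) + a i then (Vz z)⁻¹ else 0) = ((Vz z)⁻¹) ^ k * W0 := by
    rw [hW0, sum_filter, mul_sum]
    apply sum_congr rfl
    intro n _
    by_cases h5 : ∀ p ∈ pz z, ¬ ∃ i, (p : ℤ) ∣ (n : ℤ) + a i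
    · rw [if_pos h5]
      have h6 : ∏ i : Fin k, (if ∀ p ∈ pz z, ¬ (p : ℤ) ∣ (n : ℤ) + a i then (Vz z)⁻¹ else 0) = ((Vz z)⁻¹) ^ k := by
        have h7 : ∀ i : Fin k, (if ∀ p ∈ pz z, ¬ (p : ℤ) ∣ (n : ℤ) + a i then (Vz z)⁻¹ else 0) = (Vz z)⁻¹ :=
          fun i => if_pos (fun p hp hd => h5 p hp ⟨i, hd⟩)
        rw [prod_congr rfl (fun i _ => h7 i), prod_const, card_univ, Fintype.card_fin]
      rw [h6, mul_comm]
    · rw [if_neg h5, mul_zero]
      push Not at h5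
      obtain ⟨p, hp, i, hi⟩ := h5
      rw [prod_eq_zero (mem_univ i) (if_neg (fun h => h p hp hi)), mul_zero]
  have hdiff : |W0 - W1| ≤ c0 := by
    have h5 : W0 = ∑ n ∈ Icc 1 N, if (∀ p ∈ pz z, ¬ ∃ i, (p : ℤ) ∣ (n : ℤ) + a i) then ArithmeticFunction.vonMangoldt n else 0 := by
      rw [hW0, sum_filter]
    have h6 : W1 = ∑ n ∈ Icc 1 N, if (∀ p ∈ pz z, ¬ p ∣ n) ∧ (∀ p ∈ pz z, ¬ ∃ i, (p : ℤ) ∣ (n : ℤ) + a i) then
        ArithmeticFunction.vonMangoldt n else 0 := by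
      rw [hW1, filter_filter, sum_filter]
    rw [h5, h6, ← sum_sub_distrib]
    refine (abs_sum_le_sum_abs _ _).trans ?_
    have h7 : ∀ n ∈ Icc 1 N, |(if (∀ p ∈ pz z, ¬ ∃ i, (p : ℤ) ∣ (n : ℤ) + a i) then ArithmeticFunction.vonMangoldt n else 0) -
        (if (∀ p ∈ pz z, ¬ p ∣ n) ∧ (∀ p ∈ pz z, ¬ ∃ i, (p : ℤ) ∣ (n : ℤ) + a i) then
        ArithmeticFunction.vonMangoldt n else 0)| ≤ ∑ p ∈ pz z, if p ∣ n then ArithmeticFunction.vonMangoldt n else 0 := by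
      intro n _
      have h8 : (0 : ℝ) ≤ ArithmeticFunction.vonMangoldt n := ArithmeticFunction.vonMangoldt_nonneg
      have h9 : 0 ≤ ∑ p ∈ pz z, if p ∣ n then ArithmeticFunction.vonMangoldt n else 0 :=
        sum_nonneg fun p _ => by split_ifs <;> simp [h8]
      by_cases h10 : ∀ p ∈ pz z, ¬ p ∣ n
      · by_cases h11 : ∀ p ∈ pz z, ¬ ∃ i, (p : ℤ) ∣ (n : ℤ) + a i
        · rw [if_pos h11, if_pos ⟨h10, h11⟩, sub_self, abs_zero]
          exact h9
        · rw [if_neg h11, if_neg (fun h => h11 h.2), sub_self, abs_zero]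
          exact h9
      · rw [if_neg (c := (∀ p ∈ pz z, ¬ p ∣ n) ∧ (∀ p ∈ pz z, ¬ ∃ i, (p : ℤ) ∣ (n : ℤ) + a i)) (fun h => h10 h.1), sub_zero]
        push Not at h10
        obtain ⟨p, hp, hpn⟩ := h10
        have h11 : |(if (∀ p ∈ pz z, ¬ ∃ i, (p : ℤ) ∣ (n : ℤ) + a i) then
          ArithmeticFunction.vonMangoldt n else 0)| ≤ ArithmeticFunction.vonMangoldt n := by
          split_ifs
          · rw [abs_of_nonneg h8]
          · rw [abs_zero]; exact h8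
        refine h11.trans ?_
        have h12 := single_le_sum (f := fun p => if p ∣ n then ArithmeticFunction.vonMangoldt n else (0 : ℝ))
          (s := pz z) (fun p _ => by split_ifs <;> simp [h8]) hp
        simp only [if_pos hpn] at h12
        exact h12
    refine (sum_le_sum h7).trans ?_
    rw [sum_comm]
    have h8 : ∀ p ∈ pz z, ∑ n ∈ Icc 1 N, (if p ∣ n then ArithmeticFunction.vonMangoldt n else 0) ≤
        (Nat.log 2 N + 1 : ℝ) * Real.log N := by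
      intro p hp
      rw [← sum_filter]
      exact lam_mult_prime N p (mem_pz.1 hp).2
    refine (sum_le_sum h8).trans ?_
    rw [sum_const, nsmul_eq_mul, hc0]
    apply mul_le_mul_of_nonneg_right _ (by positivity)
    exact_mod_cast card_pz_le z
  have hexp : Real.exp (3 * ((2 * k : ℕ) * (1 + Real.log z)) - r) ≤ 1 / L ^ U2 := hr1
  have hψ := lam1_le N
  have hψ0 : 0 ≤ lam1 N := sum_nonneg fun _ _ => ArithmeticFunction.vonMangoldt_nonneg
  have htot : |W0 - N * P1| ≤ c0 + (((z : ℝ) + 1) ^ r * c0 + A * N / L ^ U1 + 2 * (6 * N) * (1 / L ^ U2)) + (C * (N / L ^ (U + k + 2)) + 2) := by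
    have e : W0 - N * P1 = (W0 - W1) + (W1 - lam1 N * P1) + (lam1 N - N) * P1 := by ring
    rw [e]
    refine (abs_add_le _ _).trans (add_le_add ((abs_add_le _ _).trans (add_le_add hdiff ?_)) ?_)
    · refine hsv.trans ?_
      apply add_le_add (add_le_add le_rfl hEf)
      gcongr
    · rw [abs_mul, abs_of_nonneg hP10.1]
      calc |lam1 N - N| * P1 ≤ |lam1 N - N| * 1 := mul_le_mul_of_nonneg_left hP10.2 (abs_nonneg _)
        _ ≤ _ := by rw [mul_one]; exact hP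
  -- sizes
  have hVk : ((Vz z)⁻¹) ^ k ≤ L ^ k := pow_le_pow_left₀ (inv_pos.2 (Vz_pos z)).le hV k
  set T : ℝ := N / L ^ (U + k + 2) with hT
  have hT0 : 0 < T := by positivity
  have hsT : √(N : ℝ) * L ^ (E + 3) ≤ T := by
    rw [hT, le_div_iff₀ (by positivity)]
    calc √(N : ℝ) * L ^ (E + 3) * L ^ (U + k + 2) = √(N : ℝ) * L ^ (E + 3 + (U + k + 2)) := by rw [mul_assoc, ← pow_add]
      _ ≤ √(N : ℝ) * √(N : ℝ) := mul_le_mul_of_nonneg_left (hpow _ (by omega)) hs0.le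
      _ = N := hss
  have g1 : ((z : ℝ) + 1) ^ r * c0 ≤ T := by
    rw [← hDr]
    calc (D : ℝ) * c0 ≤ √N * L ^ (E + 3) := mul_le_mul hDs hc0' hc00 hs0.le
      _ ≤ T := hsT
  have g2 : c0 ≤ T := by
    refine le_trans ?_ g1
    exact le_mul_of_one_le_left hc00 (by rw [← hDr]; exact hD1r)
  have g3 : A * N / L ^ U1 = T := by
    rw [hT, hA, hU1, show C' + U + k + 2 = C' + (U + k + 2) by ring, pow_add L C']
    field_simp
  have g4 : 2 * (6 * (N : ℝ)) * (1 / L ^ U2) = 12 * T := by rw [hT, hU2]; ring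
  have g5 : (2 : ℝ) ≤ 2 * T := by
    have : 1 ≤ T := by
      refine le_trans ?_ hsT
      have h5 : 1 ≤ L ^ (E + 3) := one_le_pow₀ hL1
      have h6 : 1 ≤ √(N : ℝ) := (one_le_pow₀ hL1).trans (hpow 0 (by omega))
      nlinarith
    linarith
  have hfin : |W0 - N * P1| ≤ (C + 17) * T := by
    refine htot.trans ?_
    rw [g3, g4]
    nlinarith
  have hfinal : |((Vz z)⁻¹) ^ k * W0 - singZ a z * N| ≤ L ^ k * ((C + 17) * T) := by
    have e : ((Vz z)⁻¹) ^ k * W0 - singZ a z * N = ((Vz z)⁻¹) ^ k * (W0 - N * P1) := by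
      rw [singZ_eq]; ring
    rw [e, abs_mul, abs_of_nonneg (pow_nonneg (inv_pos.2 (Vz_pos z)).le k)]
    exact mul_le_mul hVk hfin (abs_nonneg _) (by positivity)
  rw [hsum]
  refine hfinal.trans ?_
  calc L ^ k * ((C + 17) * T) = ((C + 17) / L ^ 2) * (N / L ^ U) := by
        rw [hT, show U + k + 2 = U + 2 + k by ring, pow_add L (U + 2) k, pow_add L U 2]
        field_simp
    _ ≤ 1 * (N / L ^ U) := by
        apply mul_le_mul_of_nonneg_right _ (by positivity)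
        rw [div_le_one (by positivity)]
        nlinarith
    _ = _ := one_mul _

end Pool.Agent.H373R2.T7
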