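import Mathlib
import Pool.Agent.H43.G.R_seed8.H373R2.T7.SysMain

/-! The main term for general systems of conditions modulo primes, with an error saving any power of the logarithm. -/

namespace Pool.Agent.H373R2.T7
open Finset

set_option maxHeartbeats 1000000 in
open Classical in
theorem sys_main (c E U : ℕ) (hc : 1 ≤ c) : ∃ N0 : ℕ, ∀ N : ℕ, N0 ≤ N → ∀ z : ℕ, 1 ≤ z → (z : ℝ) ≤ Real.log N ^ E →
    ∀ Q : ℕ → ℕ → Prop, PerA Q c → |∑ n ∈ (Icc 1 N).filter (fun n : ℕ => ∀ p ∈ pz z, ¬ Q p n), ArithmeticFunction.vonMangoldt n -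
      N * ∏ p ∈ pz z, (1 - (rhoA Q p : ℝ) / (p - 1 : ℝ))| ≤ N / Real.log N ^ U := by
  set U2 := U + 2 with hU2
  obtain ⟨N0, h0⟩ := choice (2 * c) E U2 4
  set C' := (3 * ((2 * c) * (1 + E)) + U2 + 1) * c with hC'
  set U1 := C' + U + 2 with hU1
  obtain ⟨B, X0, hBV⟩ := H343E.unsmoothed U1
  obtain ⟨C, N1, hC, hpnt⟩ := pnt_lam (U + 2)
  obtain ⟨n1, h1⟩ := ev_log' (B + E + U + 6) 1
  obtain ⟨n2, h2⟩ := ev_L' (C + 40)
  refine ⟨max (max (max N0 ⌈X0⌉₊) (max N1 n1)) (max n2 4), fun N hN z hz hzE Q hQ => ?_⟩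
  have b1 := le_trans (le_trans (le_trans (le_max_left _ _) (le_max_left _ _)) (le_max_left _ _)) hN
  have b2 := le_trans (le_trans (le_trans (le_max_right _ _) (le_max_left _ _)) (le_max_left _ _)) hN
  have b3 := le_trans (le_trans (le_trans (le_max_left _ _) (le_max_right _ _)) (le_max_left _ _)) hN
  have b4 := le_trans (le_trans (le_trans (le_max_right _ _) (le_max_right _ _)) (le_max_left _ _)) hN
  have b5 := le_trans (le_trans (le_max_left _ _) (le_max_right _ _)) hN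
  have hN4 : 4 ≤ N := le_trans (le_trans (le_max_right _ _) (le_max_right _ _)) hN
  obtain ⟨r, hr1, hr2, hr3⟩ := h0 N b1 z hzE
  have hX0 : X0 ≤ (N : ℝ) := (Nat.le_ceil _).trans (by exact_mod_cast b2)
  have hP := hpnt N b3
  have a1 := h1 N b4
  have hL := h2 N b5
  have hNr : (4 : ℝ) ≤ N := by exact_mod_cast hN4
  have hN0 : (0 : ℝ) < N := by linarith
  set L := Real.log N with hLd
  have hL40 : 40 ≤ L := by linarith
  have hL0 : 0 < L := by linarith
  have hL1 : 1 ≤ L := by linarith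
  rw [one_mul] at a1
  have hss : √(N : ℝ) * √(N : ℝ) = N := Real.mul_self_sqrt hN0.le
  have hs0 : 0 < √(N : ℝ) := Real.sqrt_pos.2 hN0
  set D : ℕ := (z + 1) ^ r with hD
  have hD1 : 1 ≤ D := Nat.one_le_pow _ _ (by omega)
  have hD1r : (1 : ℝ) ≤ D := by exact_mod_cast hD1
  have hDr : (D : ℝ) = ((z : ℝ) + 1) ^ r := by rw [hD]; push_cast; ring
  have hD2 : (D : ℝ) ^ 2 ≤ √N := by
    have h5 : ((D : ℝ) ^ 2) ^ 2 ≤ N := by rw [← pow_mul, hDr]; exact hr2
    have h6 := Real.sqrt_le_sqrt h5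
    rwa [Real.sqrt_sq (by positivity)] at h6
  have hDs : (D : ℝ) ≤ √N := le_trans (le_self_pow₀ hD1r (by norm_num)) hD2
  set A : ℝ := L ^ C' with hA
  have hA1 : 1 ≤ A := one_le_pow₀ hL1
  have hkA : (c : ℝ) ^ r ≤ A := hr3 c
  have hpow : ∀ j, j ≤ B + E + U + 6 → L ^ j ≤ √(N : ℝ) := fun j hj => (pow_le_pow_right₀ hL1 hj).trans a1
  have hNB : √(N : ℝ) ≤ N / L ^ B := by
    rw [le_div_iff₀ (by positivity)]
    calc √(N : ℝ) * L ^ B ≤ √(N : ℝ) * √(N : ℝ) := by
          apply mul_le_mul_of_nonneg_left (hpow B (by omega)) hs0.le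
      _ = N := hss
  have hbv := hBV N hX0 A hA1 D (hDs.trans hNB) ((hD2.trans hNB).trans (by
      apply div_le_div_of_nonneg_right _ (by positivity)
      exact le_mul_of_one_le_left hN0.le hA1)) (LSA Q z r) (LSA_fam Q hQ hc z r A hkA)
  have hEf : ∑ d ∈ Icc 1 D, EfA Q N z r d ≤ A * N / L ^ U1 := by
    refine le_trans (le_of_eq ?_) hbv
    apply sum_congr rfl
    intro d _
    unfold EfA
    apply sum_congr rfl
    intro b _
    rw [lamAP_eq, lam1_eq']
  have hsv := sys_sieve Q hQ N z r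
  -- the sums
  set c0 : ℝ := z * ((Nat.log 2 N + 1 : ℝ) * Real.log N) with hc0
  have hlog2 : (Nat.log 2 N : ℝ) ≤ 2 * L := natlog_le N (by omega)
  have hc0' : c0 ≤ L ^ (E + 3) := by
    rw [hc0]
    calc (z : ℝ) * ((Nat.log 2 N + 1 : ℝ) * Real.log N) ≤ L ^ E * ((2 * L + 1) * L) := by gcongr
      _ ≤ L ^ E * L ^ 3 := by
          apply mul_le_mul_of_nonneg_left _ (by positivity)
          have h5 : 2 * L + 1 ≤ L * L := by nlinarith
          calc (2 * L + 1) * L ≤ (L * L) * L := mul_le_mul_of_nonneg_right h5 hL0.le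
            _ = L ^ 3 := by ring
      _ = L ^ (E + 3) := by rw [pow_add]
  have hc00 : 0 ≤ c0 := by positivity
  set P1 : ℝ := ∏ p ∈ pz z, (1 - (rhoA Q p : ℝ) / (p - 1 : ℝ)) with hP1
  have hP10 : 0 ≤ P1 ∧ P1 ≤ 1 := by
    have hh : ∀ p ∈ pz z, 0 ≤ 1 - (rhoA Q p : ℝ) / (p - 1 : ℝ) ∧ 1 - (rhoA Q p : ℝ) / (p - 1 : ℝ) ≤ 1 := by
      intro p hp
      have hp2 : (2 : ℝ) ≤ p := by exact_mod_cast (mem_pz.1 hp).2.two_le
      have h5 := rhoA_le Q p
      have h6 : (rhoA Q p : ℝ) ≤ ((p - 1 : ℕ) : ℝ) := by exact_mod_cast h5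
      rw [Nat.cast_sub (mem_pz.1 hp).2.one_le] at h6
      push_cast at h6
      have h7 : (rhoA Q p : ℝ) / (p - 1 : ℝ) ≤ 1 := by rw [div_le_one (by linarith)]; exact h6
      have h8 : 0 ≤ (rhoA Q p : ℝ) / (p - 1 : ℝ) := div_nonneg (Nat.cast_nonneg _) (by linarith)
      constructor <;> linarith
    exact ⟨prod_nonneg fun p hp => (hh p hp).1, prod_le_one (fun p hp => (hh p hp).1) (fun p hp => (hh p hp).2)⟩
  set W0 : ℝ := ∑ n ∈ (Icc 1 N).filter (fun n : ℕ => ∀ p ∈ pz z, ¬ Q p n), ArithmeticFunction.vonMangoldt n with hW0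
  set W1 : ℝ := ∑ n ∈ ((Icc 1 N).filter (fun n : ℕ => ∀ p ∈ pz z, ¬ p ∣ n)).filter
        (fun n : ℕ => ∀ p ∈ pz z, ¬ Q p n), ArithmeticFunction.vonMangoldt n with hW1
  have hdiff : |W0 - W1| ≤ c0 := by
    have h5 : W0 = ∑ n ∈ Icc 1 N, if (∀ p ∈ pz z, ¬ Q p n) then ArithmeticFunction.vonMangoldt n else 0 := by
      rw [hW0, sum_filter]
    have h6 : W1 = ∑ n ∈ Icc 1 N, if (∀ p ∈ pz z, ¬ p ∣ n) ∧ (∀ p ∈ pz z, ¬ Q p n) then
        ArithmeticFunction.vonMangoldt n else 0 := by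
      rw [hW1, filter_filter, sum_filter]
    rw [h5, h6, ← sum_sub_distrib]
    refine (abs_sum_le_sum_abs _ _).trans ?_
    have h7 : ∀ n ∈ Icc 1 N, |(if (∀ p ∈ pz z, ¬ Q p n) then ArithmeticFunction.vonMangoldt n else 0) -
        (if (∀ p ∈ pz z, ¬ p ∣ n) ∧ (∀ p ∈ pz z, ¬ Q p n) then
        ArithmeticFunction.vonMangoldt n else 0)| ≤ ∑ p ∈ pz z, if p ∣ n then ArithmeticFunction.vonMangoldt n else 0 := by
      intro n _
      have h8 : (0 : ℝ) ≤ ArithmeticFunction.vonMangoldt n := ArithmeticFunction.vonMangoldt_nonneg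
      have h9 : 0 ≤ ∑ p ∈ pz z, if p ∣ n then ArithmeticFunction.vonMangoldt n else 0 :=
        sum_nonneg fun p _ => by split_ifs <;> simp [h8]
      by_cases h10 : ∀ p ∈ pz z, ¬ p ∣ n
      · by_cases h11 : ∀ p ∈ pz z, ¬ Q p n
        · rw [if_pos h11, if_pos ⟨h10, h11⟩, sub_self, abs_zero]
          exact h9
        · rw [if_neg h11, if_neg (fun h => h11 h.2), sub_self, abs_zero]
          exact h9
      · rw [if_neg (c := (∀ p ∈ pz z, ¬ p ∣ n) ∧ (∀ p ∈ pz z, ¬ Q p n)) (fun h => h10 h.1), sub_zero]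
        push Not at h10
        obtain ⟨p, hp, hpn⟩ := h10
        have h11 : |(if (∀ p ∈ pz z, ¬ Q p n) then
          ArithmeticFunction.vonMangoldt n else 0)| ≤ ArithmeticFunction.vonMangoldt n := by
          split_ifs
          · rw [abs_of_nonneg h8]
          · rw [abs_zero]; exact h8
        refine h11.trans ?_
        have h12 := single_le_sum (f := fun p => if p ∣ n then ArithmeticFunction.vonMangoldt n else (0 : ℝ))
          (s := pz z) (fun p _ => by split_ifs <;> simp [h8]) hp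
        simp only [if_pos hpn] at h12
        exact h12
    refine (sum_le_sum h7).trans ?_
    rw [sum_comm]
    have h8 : ∀ p ∈ pz z, ∑ n ∈ Icc 1 N, (if p ∣ n then ArithmeticFunction.vonMangoldt n else 0) ≤
        (Nat.log 2 N + 1 : ℝ) * Real.log N := by
      intro p hp
      rw [← sum_filter]
      exact lam_mult_prime N p (mem_pz.1 hp).2
    refine (sum_le_sum h8).trans ?_
    rw [sum_const, nsmul_eq_mul, hc0]
    apply mul_le_mul_of_nonneg_right _ (by positivity)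
    exact_mod_cast card_pz_le z
  have hexp : Real.exp (3 * ((2 * c : ℕ) * (1 + Real.log z)) - r) ≤ 1 / L ^ U2 := hr1
  have hψ := lam1_le N
  have hψ0 : 0 ≤ lam1 N := sum_nonneg fun _ _ => ArithmeticFunction.vonMangoldt_nonneg
  have htot : |W0 - N * P1| ≤ c0 + (((z : ℝ) + 1) ^ r * c0 + A * N / L ^ U1 + 2 * (6 * N) * (1 / L ^ U2)) + (C * (N / L ^ (U + 2)) + 2) := by
    have e : W0 - N * P1 = (W0 - W1) + (W1 - lam1 N * P1) + (lam1 N - N) * P1 := by ring
    rw [e]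
    refine (abs_add_le _ _).trans (add_le_add ((abs_add_le _ _).trans (add_le_add hdiff ?_)) ?_)
    · refine hsv.trans ?_
      apply add_le_add (add_le_add le_rfl hEf)
      gcongr
    · rw [abs_mul, abs_of_nonneg hP10.1]
      calc |lam1 N - N| * P1 ≤ |lam1 N - N| * 1 := mul_le_mul_of_nonneg_left hP10.2 (abs_nonneg _)
        _ ≤ _ := by rw [mul_one]; exact hP
  -- sizes
  set T : ℝ := N / L ^ (U + 2) with hT
  have hT0 : 0 < T := by positivity
  have hsT : √(N : ℝ) * L ^ (E + 3) ≤ T := by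
    rw [hT, le_div_iff₀ (by positivity)]
    calc √(N : ℝ) * L ^ (E + 3) * L ^ (U + 2) = √(N : ℝ) * L ^ (E + 3 + (U + 2)) := by rw [mul_assoc, ← pow_add]
      _ ≤ √(N : ℝ) * √(N : ℝ) := mul_le_mul_of_nonneg_left (hpow _ (by omega)) hs0.le
      _ = N := hss
  have g1 : ((z : ℝ) + 1) ^ r * c0 ≤ T := by
    rw [← hDr]
    calc (D : ℝ) * c0 ≤ √N * L ^ (E + 3) := mul_le_mul hDs hc0' hc00 hs0.le
      _ ≤ T := hsT
  have g2 : c0 ≤ T := by
    refine le_trans ?_ g1
    exact le_mul_of_one_le_left hc00 (by rw [← hDr]; exact hD1r)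
  have g3 : A * N / L ^ U1 = T := by
    rw [hT, hA, hU1, show C' + U + 2 = C' + (U + 2) by ring, pow_add L C']
    field_simp
  have g4 : 2 * (6 * (N : ℝ)) * (1 / L ^ U2) = 12 * T := by rw [hT, hU2]; ring
  have g5 : (2 : ℝ) ≤ 2 * T := by
    have : 1 ≤ T := by
      refine le_trans ?_ hsT
      have h5 : 1 ≤ L ^ (E + 3) := one_le_pow₀ hL1
      have h6 : 1 ≤ √(N : ℝ) := (one_le_pow₀ hL1).trans (hpow 0 (by omega))
      nlinarith
    linarith
  have hfin : |W0 - N * P1| ≤ (C + 17) * T := by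
    refine htot.trans ?_
    rw [g3, g4]
    nlinarith
  refine hfin.trans ?_
  calc (C + 17) * T = ((C + 17) / L ^ 2) * (N / L ^ U) := by
        rw [hT, pow_add L U 2]
        field_simp
    _ ≤ 1 * (N / L ^ U) := by
        apply mul_le_mul_of_nonneg_right _ (by positivity)
        rw [div_le_one (by positivity)]
        nlinarith
    _ = _ := one_mul _

end Pool.Agent.H373R2.T7
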