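import Mathlib
import Pool.Agent.H43.G.R_seed8.H373R2.T7.SysMain2
import Pool.Agent.H43.G.R_seed8.H373R2.T7.Cnt

/-! Counting integers avoiding general systems of classes modulo small primes. -/

namespace Pool.Agent.H373R2.T7
open Finset

open Classical in
/-- the number of classes -/
noncomputable def nuB (Q : ℕ → ℕ → Prop) (p : ℕ) : ℕ := ((range p).filter (fun r => Q p r)).card

/-- periodic conditions with few classes -/
structure PerB (Q : ℕ → ℕ → Prop) (c : ℕ) : Prop where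
  per : ∀ p n, Q p n ↔ Q p (n % p)
  few : ∀ p, p.Prime → nuB Q p ≤ c

lemma nuB_le (Q : ℕ → ℕ → Prop) (p : ℕ) : nuB Q p ≤ p := by
  classical
  unfold nuB
  exact (card_filter_le _ _).trans (by simp)

lemma PerB.toA {Q : ℕ → ℕ → Prop} {c : ℕ} (h : PerB Q c) : PerA Q c := by
  classical
  refine ⟨h.per, fun p hp => le_trans ?_ (h.few p hp)⟩
  unfold rhoA nuB
  apply card_le_card
  intro r hr
  rw [mem_filter] at hr ⊢
  exact ⟨hr.1, hr.2.2⟩

set_option maxHeartbeats 1000000 in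
open Classical in
theorem sys_count (c E U : ℕ) (hc : 1 ≤ c) : ∃ N0 : ℕ, ∀ N : ℕ, N0 ≤ N → ∀ z : ℕ, 1 ≤ z → (z : ℝ) ≤ Real.log N ^ E →
    ∀ Q : ℕ → ℕ → Prop, PerB Q c → |((((Icc 1 N).filter (fun n : ℕ => ∀ p ∈ pz z, ¬ Q p n)).card : ℕ) : ℝ) -
      N * ∏ p ∈ pz z, (1 - (nuB Q p : ℝ) / p)| ≤ N / Real.log N ^ U := by
  set U2 := U + 2 with hU2
  obtain ⟨N0, h0⟩ := choice c E U2 4
  set C' := (3 * (c * (1 + E)) + U2 + 1) * c with hC'
  obtain ⟨n1, h1⟩ := ev_log' (C' + U + 2) 1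
  obtain ⟨n2, h2⟩ := ev_L' 3
  refine ⟨max (max N0 n1) (max n2 4), fun N hN z hz hzE Q hQ => ?_⟩
  have b1 := le_trans (le_trans (le_max_left _ _) (le_max_left _ _)) hN
  have b2 := le_trans (le_trans (le_max_right _ _) (le_max_left _ _)) hN
  have b3 := le_trans (le_trans (le_max_left _ _) (le_max_right _ _)) hN
  have hN4 : 4 ≤ N := le_trans (le_trans (le_max_right _ _) (le_max_right _ _)) hN
  obtain ⟨r, hr1, hr2, hr3⟩ := h0 N b1 z hzE
  have a1 := h1 N b2
  have hL := h2 N b3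
  have hNr : (4 : ℝ) ≤ N := by exact_mod_cast hN4
  have hN0 : (0 : ℝ) < N := by linarith
  set L := Real.log N with hLd
  have hL0 : 0 < L := by linarith
  have hL1 : 1 ≤ L := by linarith
  rw [one_mul] at a1
  have hss : √(N : ℝ) * √(N : ℝ) = N := Real.mul_self_sqrt hN0.le
  have hs0 : 0 < √(N : ℝ) := Real.sqrt_pos.2 hN0
  have hcr : (1 : ℝ) ≤ c := by exact_mod_cast hc
  have hD1r : (1 : ℝ) ≤ ((z : ℝ) + 1) ^ r := one_le_pow₀ (by have : (0 : ℝ) ≤ z := Nat.cast_nonneg _; linarith)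
  have hDs : ((z : ℝ) + 1) ^ r ≤ √N := by
    have h5 : (((z : ℝ) + 1) ^ r) ^ 2 ≤ N := by
      refine le_trans ?_ hr2
      exact pow_le_pow_right₀ hD1r (by norm_num)
    have h6 := Real.sqrt_le_sqrt h5
    rwa [Real.sqrt_sq (by positivity)] at h6
  have key := sieve_gen' (Icc 1 N) (fun _ => (1 : ℝ)) (fun _ _ => zero_le_one) (fun p n => Q p n) (pz z)
    (fun p => (nuB Q p : ℝ) / p) (fun p hp => by
      have hp0 : (0 : ℝ) < p := by exact_mod_cast (mem_pz.1 hp).2.pos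
      constructor
      · positivity
      · rw [div_le_one hp0]
        exact_mod_cast nuB_le Q p) (N : ℝ) hN0.le (fun _ => (c : ℝ) ^ r) r (by
      intro S hS hr
      have hSp : ∀ p ∈ S, p.Prime := fun p hp => (mem_pz.1 (hS hp)).2
      have h3 := count_sys (fun p a => Q p a) N S hSp 1 le_rfl (fun p hp hd => (hSp p hp).one_lt.ne' (Nat.dvd_one.1 hd)) 0
      have e1 : ∑ i ∈ (Icc 1 N).filter (fun i => ∀ p ∈ S, Q p i), (1 : ℝ) =
          (((Icc 1 N).filter (fun n => n ≡ 0 [MOD 1] ∧ ∀ p ∈ S, Q p (n % p))).card : ℝ) := by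
        rw [sum_const, nsmul_eq_mul, mul_one]
        congr 2
        apply filter_congr
        intro n _
        constructor
        · intro h
          exact ⟨Nat.modEq_one, fun p hp => (hQ.per p n).1 (h p hp)⟩
        · rintro ⟨_, h⟩ p hp
          exact (hQ.per p n).2 (h p hp)
      rw [e1]
      have e2 : (N : ℝ) * ∏ p ∈ S, ((nuB Q p : ℝ) / p) = (N : ℝ) / ((1 : ℕ) : ℝ) * ∏ p ∈ S, ((((range p).filter (fun a => Q p a)).card : ℝ) / p) := by
        rw [Nat.cast_one, div_one]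
        congr 1
      rw [e2]
      refine h3.trans ?_
      calc ∏ p ∈ S, (((range p).filter (fun a => Q p a)).card : ℝ) ≤ ∏ _p ∈ S, (c : ℝ) := by
            apply prod_le_prod (fun _ _ => Nat.cast_nonneg _)
            intro p hp
            exact_mod_cast hQ.few p (hSp p hp)
        _ = (c : ℝ) ^ S.card := by rw [prod_const]
        _ ≤ (c : ℝ) ^ r := pow_le_pow_right₀ hcr hr)
  have e0 : ∑ i ∈ (Icc 1 N).filter (fun i => ∀ p ∈ pz z, ¬ Q p i), (1 : ℝ) =
      ((((Icc 1 N).filter (fun n : ℕ => ∀ p ∈ pz z, ¬ Q p n)).card : ℕ) : ℝ) := by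
    rw [sum_const, nsmul_eq_mul, mul_one]
  rw [e0] at key
  refine key.trans ?_
  have e1 : ∑ j ∈ range (r + 1), ∑ _S ∈ (pz z).powersetCard j, (c : ℝ) ^ r =
      ((∑ j ∈ range (r + 1), ((pz z).powersetCard j).card : ℕ) : ℝ) * (c : ℝ) ^ r := by
    push_cast
    rw [sum_mul]
    apply sum_congr rfl
    intro j _
    rw [sum_const, nsmul_eq_mul]
  rw [e1]
  have h3 := card_small (pz z) r
  have h4 : (((pz z).card : ℝ) + 1) ^ r ≤ ((z : ℝ) + 1) ^ r := by
    have : ((pz z).card : ℝ) ≤ z := by exact_mod_cast card_pz_le z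
    gcongr
  have h5 : es (fun p => (nuB Q p : ℝ) / p) (pz z) r ≤ 1 / L ^ U2 := by
    refine (es_le (fun p _ => by positivity) r).trans (le_trans ?_ hr1)
    apply Real.exp_le_exp.2
    have h6 : ∑ p ∈ pz z, (nuB Q p : ℝ) / p ≤ c * (1 + Real.log z) := by
      have h7 : ∀ p ∈ pz z, (nuB Q p : ℝ) / p ≤ c * (1 / (p : ℝ)) := by
        intro p hp
        rw [mul_one_div]
        apply div_le_div_of_nonneg_right _ (Nat.cast_nonneg _)
        exact_mod_cast hQ.few p (mem_pz.1 hp).2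
      refine (sum_le_sum h7).trans ?_
      rw [← mul_sum]
      exact mul_le_mul_of_nonneg_left (sum_pz_le z) (Nat.cast_nonneg _)
    linarith
  set T : ℝ := N / L ^ (U + 2) with hT
  have hT0 : 0 < T := by positivity
  have g1 : ((∑ j ∈ range (r + 1), ((pz z).powersetCard j).card : ℕ) : ℝ) * (c : ℝ) ^ r ≤ T := by
    have h6 : ((∑ j ∈ range (r + 1), ((pz z).powersetCard j).card : ℕ) : ℝ) * (c : ℝ) ^ r ≤ √N * L ^ C' := by
      apply mul_le_mul ((h3.trans h4).trans hDs) (hr3 c) (by positivity) hs0.le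
    refine h6.trans ?_
    rw [hT, le_div_iff₀ (by positivity)]
    calc √(N : ℝ) * L ^ C' * L ^ (U + 2) = √(N : ℝ) * L ^ (C' + U + 2) := by rw [mul_assoc, ← pow_add, add_assoc]
      _ ≤ √(N : ℝ) * √(N : ℝ) := mul_le_mul_of_nonneg_left a1 hs0.le
      _ = N := hss
  have g2 : 2 * (N : ℝ) * es (fun p => (nuB Q p : ℝ) / p) (pz z) r ≤ 2 * T := by
    calc 2 * (N : ℝ) * es (fun p => (nuB Q p : ℝ) / p) (pz z) r ≤ 2 * (N : ℝ) * (1 / L ^ U2) :=
          mul_le_mul_of_nonneg_left h5 (by positivity)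
      _ = 2 * T := by rw [hT, hU2]; ring
  calc _ ≤ T + 2 * T := add_le_add g1 g2
    _ = (3 / L ^ 2) * (N / L ^ U) := by
        rw [hT, pow_add L U 2]
        field_simp
        ring
    _ ≤ 1 * (N / L ^ U) := by
        apply mul_le_mul_of_nonneg_right _ (by positivity)
        rw [div_le_one (by positivity)]
        nlinarith
    _ = _ := one_mul _

end Pool.Agent.H373R2.T7
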