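import Mathlib
import Pool.Agent.H43.G.R_seed8.H807R2.Dav1

/-! A bilinear estimate with two arbitrary bounded weights. -/

namespace Pool.Agent.H373R2.T7
open Finset
open Pool.Agent.H807R2.Dav

lemma orth (M : ℕ) (hM : 1 ≤ M) (k : ℤ) :
    ∑ t ∈ range M, ee ((t : ℝ) * ((k : ℝ) / M)) = if (M : ℤ) ∣ k then (M : ℂ) else 0 := by
  have hM0 : (0 : ℝ) < M := by exact_mod_cast hM
  by_cases h : (M : ℤ) ∣ k
  · rw [if_pos h]
    obtain ⟨j, rfl⟩ := h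
    have h1 : ∀ t ∈ range M, ee ((t : ℝ) * ((((M : ℤ) * j : ℤ) : ℝ) / M)) = 1 := by
      intro t _
      have : (t : ℝ) * ((((M : ℤ) * j : ℤ) : ℝ) / M) = (((t : ℤ) * j : ℤ) : ℝ) := by
        push_cast
        field_simp
      rw [this, ee_int]
    rw [sum_congr rfl h1, sum_const, card_range, nsmul_eq_mul, mul_one]
  · rw [if_neg h]
    set w := ee ((k : ℝ) / M) with hw
    have h1 : ∀ t ∈ range M, ee ((t : ℝ) * ((k : ℝ) / M)) = w ^ t := by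
      intro t _
      rw [ee_pow]
    rw [sum_congr rfl h1]
    have hw1 : w ≠ 1 := by
      intro h2
      rw [hw] at h2
      unfold ee at h2
      rw [Complex.exp_eq_one_iff] at h2
      obtain ⟨n, hn⟩ := h2
      have h3 : ((k : ℝ) / M : ℂ) = n := by
        have h4 : (2 * Real.pi * Complex.I : ℂ) ≠ 0 := by
          simp [Real.pi_ne_zero]
        have h5 : (2 * Real.pi * Complex.I : ℂ) * (((k : ℝ) / M : ℝ) : ℂ) = (2 * Real.pi * Complex.I : ℂ) * n := by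
          rw [hn]; ring
        have := mul_left_cancel₀ h4 h5
        push_cast at this ⊢
        exact this
      have h4 : (k : ℝ) / M = n := by exact_mod_cast h3
      rw [div_eq_iff hM0.ne'] at h4
      have h5 : k = n * M := by exact_mod_cast h4
      exact h ⟨n, by rw [h5]; ring⟩
    rw [geom_sum_eq hw1]
    have h2 : w ^ M = 1 := by
      rw [hw, ← ee_pow]
      have : (M : ℝ) * ((k : ℝ) / M) = ((k : ℤ) : ℝ) := by field_simp
      rw [this, ee_int]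
    rw [h2]
    simp

lemma conj_ee (x : ℝ) : (starRingEnd ℂ) (ee x) = ee (-x) := by
  unfold ee
  rw [← Complex.exp_conj]
  congr 1
  simp only [map_mul, Complex.conj_I, Complex.conj_ofReal, map_ofNat]
  push_cast
  ring

lemma sq_expand {ι : Type*} (I : Finset ι) (C : ι → ℂ) (φ : ι → ℤ) (M : ℕ) (hM : 1 ≤ M) :
    (((∑ t ∈ range M, ‖∑ i ∈ I, C i * ee ((t : ℝ) * ((φ i : ℝ) / M))‖ ^ 2 : ℝ)) : ℂ) =
      ∑ i ∈ I, ∑ j ∈ I, C i * (starRingEnd ℂ) (C j) * (if (M : ℤ) ∣ φ i - φ j then (M : ℂ) else 0) := by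
  push_cast
  have h1 : ∀ t ∈ range M, ((‖∑ i ∈ I, C i * ee ((t : ℝ) * ((φ i : ℝ) / M))‖ : ℂ)) ^ 2 =
      ∑ i ∈ I, ∑ j ∈ I, C i * (starRingEnd ℂ) (C j) * ee ((t : ℝ) * (((φ i - φ j : ℤ) : ℝ) / M)) := by
    intro t _
    rw [← Complex.mul_conj', map_sum, sum_mul_sum]
    apply sum_congr rfl
    intro i _
    apply sum_congr rfl
    intro j _
    rw [map_mul, conj_ee]
    have h2 : ee ((t : ℝ) * (((φ i - φ j : ℤ) : ℝ) / M)) = ee ((t : ℝ) * ((φ i : ℝ) / M)) * ee (-((t : ℝ) * ((φ j : ℝ) / M))) := by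
      rw [← ee_add]
      congr 1
      push_cast
      ring
    rw [h2]
    ring
  rw [sum_congr rfl h1, sum_comm]
  apply sum_congr rfl
  intro i _
  rw [sum_comm]
  apply sum_congr rfl
  intro j _
  rw [← mul_sum, orth M hM]

/-- majorant property for squares -/
lemma majorant {ι : Type*} (I : Finset ι) (C : ι → ℂ) (φ : ι → ℤ) (M : ℕ) (hM : 1 ≤ M) (hC : ∀ i ∈ I, ‖C i‖ ≤ 1) :
    ∑ t ∈ range M, ‖∑ i ∈ I, C i * ee ((t : ℝ) * ((φ i : ℝ) / M))‖ ^ 2 ≤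
      ∑ t ∈ range M, ‖∑ i ∈ I, ee ((t : ℝ) * ((φ i : ℝ) / M))‖ ^ 2 := by
  have h1 := sq_expand I C φ M hM
  have h2 := sq_expand I (fun _ => 1) φ M hM
  simp only [one_mul, map_one] at h2
  have hL : 0 ≤ ∑ t ∈ range M, ‖∑ i ∈ I, C i * ee ((t : ℝ) * ((φ i : ℝ) / M))‖ ^ 2 := sum_nonneg fun _ _ => by positivity
  have h3 : ∑ t ∈ range M, ‖∑ i ∈ I, C i * ee ((t : ℝ) * ((φ i : ℝ) / M))‖ ^ 2 =
      ‖∑ i ∈ I, ∑ j ∈ I, C i * (starRingEnd ℂ) (C j) * (if (M : ℤ) ∣ φ i - φ j then (M : ℂ) else 0)‖ := by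
    rw [← h1, Complex.norm_real, Real.norm_of_nonneg hL]
  have h4 : ((∑ t ∈ range M, ‖∑ i ∈ I, ee ((t : ℝ) * ((φ i : ℝ) / M))‖ ^ 2 : ℝ)) =
      ∑ i ∈ I, ∑ j ∈ I, (if (M : ℤ) ∣ φ i - φ j then (M : ℝ) else 0) := by
    have h5 : (((∑ t ∈ range M, ‖∑ i ∈ I, ee ((t : ℝ) * ((φ i : ℝ) / M))‖ ^ 2 : ℝ)) : ℂ) =
        ((∑ i ∈ I, ∑ j ∈ I, (if (M : ℤ) ∣ φ i - φ j then (M : ℝ) else 0) : ℝ) : ℂ) := by
      rw [h2]
      push_cast
      apply sum_congr rfl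
      intro i _
      apply sum_congr rfl
      intro j _
      split_ifs <;> simp
    exact_mod_cast h5
  rw [h3, h4]
  refine (norm_sum_le _ _).trans (sum_le_sum fun i hi => ?_)
  refine (norm_sum_le _ _).trans (sum_le_sum fun j hj => ?_)
  rw [norm_mul, norm_mul, RCLike.norm_conj]
  have h5 : ‖(if (M : ℤ) ∣ φ i - φ j then (M : ℂ) else 0)‖ = if (M : ℤ) ∣ φ i - φ j then (M : ℝ) else 0 := by
    split_ifs <;> simp
  rw [h5]
  have h6 : (0 : ℝ) ≤ if (M : ℤ) ∣ φ i - φ j then (M : ℝ) else 0 := by split_ifs <;> positivity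
  have h7 : ‖C i‖ * ‖C j‖ ≤ 1 := mul_le_one₀ (hC i hi) (norm_nonneg _) (hC j hj)
  calc ‖C i‖ * ‖C j‖ * _ ≤ 1 * (if (M : ℤ) ∣ φ i - φ j then (M : ℝ) else 0) := mul_le_mul_of_nonneg_right h7 h6
    _ = _ := one_mul _

lemma pow_expand (s x : ℕ) (c : ℕ → ℂ) (F : ℕ → ℤ) (M : ℕ) (t : ℝ) :
    (∑ m ∈ Icc 1 x, c m * ee (t * ((F m : ℝ) / M))) ^ s =
      ∑ v ∈ Fintype.piFinset (fun _ : Fin s => Icc 1 x), (∏ i, c (v i)) * ee (t * (((∑ i, F (v i) : ℤ) : ℝ) / M)) := by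
  have h1 : (∑ m ∈ Icc 1 x, c m * ee (t * ((F m : ℝ) / M))) ^ s =
      ∏ _i : Fin s, ∑ m ∈ Icc 1 x, c m * ee (t * ((F m : ℝ) / M)) := by
    rw [prod_const, card_univ, Fintype.card_fin]
  rw [h1, prod_univ_sum]
  apply sum_congr rfl
  intro v _
  rw [prod_mul_distrib]
  congr 1
  have h2 : ∀ (J : Finset (Fin s)), ∏ i ∈ J, ee (t * ((F (v i) : ℝ) / M)) = ee (t * (((∑ i ∈ J, F (v i) : ℤ) : ℝ) / M)) := by
    intro J
    induction J using Finset.induction_on with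
    | empty => simp [ee_zero]
    | insert a J ha ih =>
      rw [prod_insert ha, sum_insert ha, ih, ← ee_add]
      congr 1
      push_cast
      ring
  exact h2 univ

/-- majorant property for even moments -/
lemma majorant_pow (s x : ℕ) (c : ℕ → ℂ) (hc : ∀ m, ‖c m‖ ≤ 1) (F : ℕ → ℤ) (M : ℕ) (hM : 1 ≤ M) :
    ∑ t ∈ range M, ‖∑ m ∈ Icc 1 x, c m * ee ((t : ℝ) * ((F m : ℝ) / M))‖ ^ (2 * s) ≤
      ∑ t ∈ range M, ‖∑ m ∈ Icc 1 x, ee ((t : ℝ) * ((F m : ℝ) / M))‖ ^ (2 * s) := by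
  have h1 := majorant (Fintype.piFinset (fun _ : Fin s => Icc 1 x)) (fun v => ∏ i, c (v i)) (fun v => ∑ i, F (v i)) M hM
    (fun v _ => by
      rw [norm_prod]
      exact prod_le_one (fun _ _ => norm_nonneg _) (fun i _ => hc _))
  have h2 : ∀ (c : ℕ → ℂ) (t : ℕ), ‖∑ m ∈ Icc 1 x, c m * ee ((t : ℝ) * ((F m : ℝ) / M))‖ ^ (2 * s) =
      ‖∑ v ∈ Fintype.piFinset (fun _ : Fin s => Icc 1 x), (∏ i, c (v i)) * ee ((t : ℝ) * (((∑ i, F (v i) : ℤ) : ℝ) / M))‖ ^ 2 := by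
    intro c t
    rw [← pow_expand, norm_pow, ← pow_mul, mul_comm 2 s]
  have h3 : ∀ t : ℕ, ‖∑ m ∈ Icc 1 x, ee ((t : ℝ) * ((F m : ℝ) / M))‖ ^ (2 * s) =
      ‖∑ v ∈ Fintype.piFinset (fun _ : Fin s => Icc 1 x), ee ((t : ℝ) * (((∑ i, F (v i) : ℤ) : ℝ) / M))‖ ^ 2 := by
    intro t
    have h4 := h2 (fun _ => 1) t
    simp only [prod_const_one, one_mul] at h4
    exact h4
  calc _ = ∑ t ∈ range M, ‖∑ v ∈ Fintype.piFinset (fun _ : Fin s => Icc 1 x), (∏ i, c (v i)) * ee ((t : ℝ) * (((∑ i, F (v i) : ℤ) : ℝ) / M))‖ ^ 2 :=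
        sum_congr rfl fun t _ => h2 c t
    _ ≤ _ := h1
    _ = _ := sum_congr rfl fun t _ => (h3 t).symm

lemma parseval_Icc (A M : ℕ) (hM : 1 ≤ M) (hA : A ≤ M) (G : ℕ → ℂ) (σ : ℤ) (hσ : σ = 1 ∨ σ = -1) :
    ∑ t ∈ range M, ‖∑ a ∈ Icc 1 A, G a * ee ((t : ℝ) * (((σ * a : ℤ) : ℝ) / M))‖ ^ 2 = M * ∑ a ∈ Icc 1 A, ‖G a‖ ^ 2 := by
  have h1 := sq_expand (Icc 1 A) G (fun a => σ * (a : ℤ)) M hM
  have h2 : ∑ i ∈ Icc 1 A, ∑ j ∈ Icc 1 A, G i * (starRingEnd ℂ) (G j) * (if (M : ℤ) ∣ σ * (i : ℤ) - σ * (j : ℤ) then (M : ℂ) else 0) =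
      ∑ i ∈ Icc 1 A, (M : ℂ) * ((‖G i‖ ^ 2 : ℝ) : ℂ) := by
    apply sum_congr rfl
    intro i hi
    rw [sum_eq_single i]
    · rw [sub_self, if_pos (dvd_zero _), Complex.mul_conj']
      push_cast
      ring
    · intro j hj hne
      rw [if_neg, mul_zero]
      intro hd
      have h3 : (M : ℤ) ∣ (i : ℤ) - j := by
        rcases hσ with h | h
        · rw [h] at hd; simpa using hd
        · rw [h] at hd
          have : (-1 : ℤ) * i - -1 * j = -((i : ℤ) - j) := by ring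
          rw [this] at hd
          exact (dvd_neg).1 hd
      rw [mem_Icc] at hi hj
      have h4 : |(i : ℤ) - j| < M := by rw [abs_lt]; constructor <;> omega
      have := Int.eq_zero_of_abs_lt_dvd h3 h4
      apply hne
      omega
    · intro h; exact absurd hi h
  rw [h2, ← mul_sum] at h1
  have h3 : (((∑ t ∈ range M, ‖∑ a ∈ Icc 1 A, G a * ee ((t : ℝ) * (((σ * a : ℤ) : ℝ) / M))‖ ^ 2 : ℝ)) : ℂ) =
      ((M * ∑ a ∈ Icc 1 A, ‖G a‖ ^ 2 : ℝ) : ℂ) := by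
    rw [h1]
    push_cast
    rfl
  exact_mod_cast h3

lemma triple {α β γ : Type*} (I : Finset α) (J : Finset β) (K : Finset γ) (g : α → ℂ) (s : β → ℂ) (h : γ → ℂ) :
    ∑ a ∈ I, ∑ m ∈ J, ∑ n ∈ K, g a * s m * h n = (∑ n ∈ K, h n) * (∑ a ∈ I, g a) * (∑ m ∈ J, s m) := by
  simp only [← mul_sum, ← sum_mul]
  ring

/-- extension by zero to the integers -/
def fz (f : ℕ → ℂ) (H : ℕ) (k : ℤ) : ℂ := if 1 ≤ k ∧ k ≤ H then f k.toNat else 0

theorem bil_main (A H x M : ℕ) (hM1 : 1 ≤ M) (f : ℕ → ℂ) (G c : ℕ → ℂ) (F : ℕ → ℤ) (δ η : ℝ) (s : ℕ) (C W : ℝ)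
    (hM : ∀ a ∈ Icc 1 A, ∀ m ∈ Icc 1 x, ∀ n ∈ Icc 1 H, |(a : ℤ) + F m - n| < M) (hAM : A ≤ M) (hHM : H ≤ M) (hx : 1 ≤ x)
    (hf : ∀ α : ℝ, ‖∑ n ∈ Icc 1 H, f n * ee ((n : ℝ) * α)‖ ≤ δ)
    (hG : ∀ a, ‖G a‖ ≤ 1) (hc : ∀ m, ‖c m‖ ≤ 1)
    (hmom : ∑ t ∈ range M, (‖∑ m ∈ Icc 1 x, ee ((t : ℝ) * ((F m : ℝ) / M))‖ / x) ^ (2 * s) ≤ C)
    (hfs : ∑ n ∈ Icc 1 H, ‖f n‖ ^ 2 ≤ W) (hη : 0 < η) :
    ‖∑ a ∈ Icc 1 A, ∑ m ∈ Icc 1 x, G a * c m * fz f H (a + F m)‖ ≤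
      C / η ^ (2 * s) * δ * A * x / M + η * x * Real.sqrt (W * A) := by
  have hM0 : (0 : ℝ) < M := by exact_mod_cast hM1
  have hx0 : (0 : ℝ) < x := by exact_mod_cast hx
  have hδ : 0 ≤ δ := (norm_nonneg _).trans (hf 0)
  set fh : ℕ → ℂ := fun t => ∑ n ∈ Icc 1 H, f n * ee ((t : ℝ) * ((((-1 : ℤ) * n : ℤ) : ℝ) / M)) with hfh
  set Gh : ℕ → ℂ := fun t => ∑ a ∈ Icc 1 A, G a * ee ((t : ℝ) * ((((1 : ℤ) * a : ℤ) : ℝ) / M)) with hGh
  set Sh : ℕ → ℂ := fun t => ∑ m ∈ Icc 1 x, c m * ee ((t : ℝ) * ((F m : ℝ) / M)) with hSh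
  -- the Fourier identity
  have hid : (M : ℂ) * ∑ a ∈ Icc 1 A, ∑ m ∈ Icc 1 x, G a * c m * fz f H (a + F m) =
      ∑ t ∈ range M, fh t * Gh t * Sh t := by
    have h1 : ∀ t ∈ range M, fh t * Gh t * Sh t = ∑ a ∈ Icc 1 A, ∑ m ∈ Icc 1 x, ∑ n ∈ Icc 1 H,
        G a * c m * f n * ee ((t : ℝ) * ((((a : ℤ) + F m - n : ℤ) : ℝ) / M)) := by
      intro t _
      rw [hfh, hGh, hSh]
      simp only
      rw [← triple]
      apply sum_congr rfl
      intro a _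
      apply sum_congr rfl
      intro m _
      apply sum_congr rfl
      intro n _
      have h2 : ee ((t : ℝ) * ((((a : ℤ) + F m - n : ℤ) : ℝ) / M)) =
          ee ((t : ℝ) * ((((1 : ℤ) * a : ℤ) : ℝ) / M)) * ee ((t : ℝ) * ((((-1 : ℤ) * n : ℤ) : ℝ) / M)) * ee ((t : ℝ) * ((F m : ℝ) / M)) := by
        rw [← ee_add, ← ee_add]
        congr 1
        push_cast
        ring
      rw [h2]
      ring
    rw [sum_congr rfl h1]
    symm
    rw [sum_comm, mul_sum]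
    apply sum_congr rfl
    intro a ha
    rw [sum_comm, mul_sum]
    apply sum_congr rfl
    intro m hm
    rw [sum_comm]
    have h2 : ∀ n ∈ Icc 1 H, ∑ t ∈ range M, G a * c m * f n * ee ((t : ℝ) * ((((a : ℤ) + F m - n : ℤ) : ℝ) / M)) =
        if (n : ℤ) = a + F m then (M : ℂ) * (G a * c m * f n) else 0 := by
      intro n hn
      rw [← mul_sum, orth M hM1]
      by_cases h3 : (n : ℤ) = a + F m
      · rw [if_pos h3, if_pos (by rw [h3]; simp)]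
        ring
      · rw [if_neg h3, if_neg, mul_zero]
        intro hd
        apply h3
        have := Int.eq_zero_of_abs_lt_dvd hd (hM a ha m hm n hn)
        omega
    rw [sum_congr rfl h2]
    unfold fz
    by_cases h3 : 1 ≤ (a : ℤ) + F m ∧ (a : ℤ) + F m ≤ H
    · rw [if_pos h3, sum_eq_single ((a : ℤ) + F m).toNat]
      · rw [if_pos (by rw [Int.toNat_of_nonneg (by omega)])]
      · intro n _ hne
        rw [if_neg]
        intro h4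
        apply hne
        omega
      · intro h4
        exfalso
        apply h4
        rw [mem_Icc]
        omega
    · rw [if_neg h3, mul_zero, mul_zero]
      apply sum_eq_zero
      intro n hn
      rw [mem_Icc] at hn
      rw [if_neg]
      omega
  -- bounds
  have hfh1 : ∀ t, ‖fh t‖ ≤ δ := by
    intro t
    have h1 : fh t = ∑ n ∈ Icc 1 H, f n * ee ((n : ℝ) * (-(t : ℝ) / M)) := by
      rw [hfh]
      apply sum_congr rfl
      intro n _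
      congr 2
      push_cast
      ring
    rw [h1]
    exact hf _
  have hGh1 : ∀ t, ‖Gh t‖ ≤ A := by
    intro t
    rw [hGh]
    refine (norm_sum_le _ _).trans ?_
    have : ∀ a ∈ Icc 1 A, ‖G a * ee ((t : ℝ) * ((((1 : ℤ) * a : ℤ) : ℝ) / M))‖ ≤ 1 := by
      intro a _
      rw [norm_mul, norm_ee, mul_one]
      exact hG a
    refine (sum_le_sum this).trans ?_
    rw [sum_const, Nat.card_Icc, nsmul_eq_mul]
    simp
  have hSh1 : ∀ t, ‖Sh t‖ ≤ x := by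
    intro t
    rw [hSh]
    refine (norm_sum_le _ _).trans ?_
    have : ∀ m ∈ Icc 1 x, ‖c m * ee ((t : ℝ) * ((F m : ℝ) / M))‖ ≤ 1 := by
      intro a _
      rw [norm_mul, norm_ee, mul_one]
      exact hc a
    refine (sum_le_sum this).trans ?_
    rw [sum_const, Nat.card_Icc, nsmul_eq_mul]
    simp
  have hSh2 : ∀ t, ‖Sh t‖ ≤ η * x + x * (‖Sh t‖ / x) ^ (2 * s) / η ^ (2 * s) := by
    intro t
    have hη2 : 0 < η ^ (2 * s) := by positivity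
    rcases le_or_gt (‖Sh t‖) (η * x) with h | h
    · have : 0 ≤ x * (‖Sh t‖ / x) ^ (2 * s) / η ^ (2 * s) := by positivity
      linarith
    · have h1 : η ≤ ‖Sh t‖ / x := by rw [le_div_iff₀ hx0]; exact h.le
      have h2 : η ^ (2 * s) ≤ (‖Sh t‖ / x) ^ (2 * s) := pow_le_pow_left₀ hη.le h1 _
      have h3 : (x : ℝ) ≤ x * (‖Sh t‖ / x) ^ (2 * s) / η ^ (2 * s) := by
        rw [le_div_iff₀ hη2]
        exact mul_le_mul_of_nonneg_left h2 hx0.le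
      have h4 := hSh1 t
      have h5 : 0 ≤ η * x := by positivity
      linarith
  have hpt : ∀ t, ‖fh t * Gh t * Sh t‖ ≤ η * x * (‖fh t‖ * ‖Gh t‖) + δ * A * x / η ^ (2 * s) * (‖Sh t‖ / x) ^ (2 * s) := by
    intro t
    rw [norm_mul, norm_mul]
    have h1 : ‖fh t‖ * ‖Gh t‖ ≤ δ * A := mul_le_mul (hfh1 t) (hGh1 t) (norm_nonneg _) hδ
    have h2 : 0 ≤ x * (‖Sh t‖ / x) ^ (2 * s) / η ^ (2 * s) := by positivity
    calc ‖fh t‖ * ‖Gh t‖ * ‖Sh t‖ ≤ ‖fh t‖ * ‖Gh t‖ * (η * x + x * (‖Sh t‖ / x) ^ (2 * s) / η ^ (2 * s)) :=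
          mul_le_mul_of_nonneg_left (hSh2 t) (by positivity)
      _ = η * x * (‖fh t‖ * ‖Gh t‖) + (‖fh t‖ * ‖Gh t‖) * (x * (‖Sh t‖ / x) ^ (2 * s) / η ^ (2 * s)) := by ring
      _ ≤ η * x * (‖fh t‖ * ‖Gh t‖) + (δ * A) * (x * (‖Sh t‖ / x) ^ (2 * s) / η ^ (2 * s)) := by
          apply add_le_add le_rfl
          exact mul_le_mul_of_nonneg_right h1 h2
      _ = _ := by ring
  -- Cauchy-Schwarz
  have hcs : ∑ t ∈ range M, ‖fh t‖ * ‖Gh t‖ ≤ M * Real.sqrt (W * A) := by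
    have h1 := sum_mul_sq_le_sq_mul_sq (range M) (fun t => ‖fh t‖) (fun t => ‖Gh t‖)
    have h2 : ∑ t ∈ range M, ‖fh t‖ ^ 2 ≤ M * W := by
      have h3 := parseval_Icc H M hM1 hHM f (-1) (Or.inr rfl)
      rw [hfh]
      simp only
      rw [h3]
      exact mul_le_mul_of_nonneg_left hfs hM0.le
    have h3 : ∑ t ∈ range M, ‖Gh t‖ ^ 2 ≤ M * A := by
      have h4 := parseval_Icc A M hM1 hAM G 1 (Or.inl rfl)
      rw [hGh]
      simp only
      rw [h4]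
      apply mul_le_mul_of_nonneg_left _ hM0.le
      have h5 : ∀ a ∈ Icc 1 A, ‖G a‖ ^ 2 ≤ 1 := fun a _ => pow_le_one₀ (norm_nonneg _) (hG a)
      refine (sum_le_sum h5).trans ?_
      rw [sum_const, Nat.card_Icc, nsmul_eq_mul]
      simp
    have hW : 0 ≤ W := (sum_nonneg fun _ _ => by positivity).trans hfs
    have h4 : (∑ t ∈ range M, ‖fh t‖ * ‖Gh t‖) ^ 2 ≤ (M * W) * (M * A) :=
      h1.trans (mul_le_mul h2 h3 (sum_nonneg fun _ _ => by positivity) (by positivity))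
    have h5 : (M * W) * (M * A) = (M : ℝ) ^ 2 * (W * A) := by ring
    rw [h5] at h4
    have h6 := Real.sqrt_le_sqrt h4
    rw [Real.sqrt_sq (sum_nonneg fun _ _ => by positivity), Real.sqrt_mul (by positivity), Real.sqrt_sq hM0.le] at h6
    exact h6
  have hmom' : ∑ t ∈ range M, (‖Sh t‖ / x) ^ (2 * s) ≤ C := by
    refine le_trans ?_ hmom
    have h1 := majorant_pow s x c hc F M hM1
    have h2 : ∀ u : ℕ → ℝ, ∑ t ∈ range M, (u t / x) ^ (2 * s) = (∑ t ∈ range M, u t ^ (2 * s)) / (x : ℝ) ^ (2 * s) := by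
      intro u
      rw [sum_div]
      exact sum_congr rfl fun t _ => div_pow _ _ _
    rw [h2, h2]
    exact div_le_div_of_nonneg_right h1 (by positivity)
  have hfin : ‖(M : ℂ) * ∑ a ∈ Icc 1 A, ∑ m ∈ Icc 1 x, G a * c m * fz f H (a + F m)‖ ≤
      η * x * (M * Real.sqrt (W * A)) + δ * A * x / η ^ (2 * s) * C := by
    rw [hid]
    refine (norm_sum_le _ _).trans ((sum_le_sum fun t _ => hpt t).trans ?_)
    rw [sum_add_distrib, ← mul_sum, ← mul_sum]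
    apply add_le_add
    · exact mul_le_mul_of_nonneg_left hcs (by positivity)
    · exact mul_le_mul_of_nonneg_left hmom' (by positivity)
  rw [norm_mul, Complex.norm_natCast] at hfin
  rw [← mul_le_mul_iff_right₀ hM0]
  refine hfin.trans (le_of_eq ?_)
  field_simp
  ring

end Pool.Agent.H373R2.T7
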