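import Mathlib

/-! From one shift to several shifts. -/

namespace Pool.Agent.H373R2.T7
open Finset

/-- from a bilinear bound with complex weights to an `L¹` bound -/
lemma l1_of_bil (A x : ℕ) (D : ℕ → ℕ → ℝ) (δ K : ℝ) (hK : 0 < K)
    (h : ∀ G c : ℕ → ℂ, (∀ a, ‖G a‖ ≤ 1) → (∀ m, ‖c m‖ ≤ 1) →
      ‖∑ a ∈ Icc 1 A, ∑ m ∈ Icc 1 x, G a * c m * ((D a m : ℝ) : ℂ)‖ ≤ δ)
    (G : ℕ → ℝ) (hG : ∀ a ∈ Icc 1 A, |G a| ≤ K) :
    ∑ m ∈ Icc 1 x, |∑ a ∈ Icc 1 A, G a * D a m| ≤ K * δ := by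
  set G' : ℕ → ℂ := fun a => if a ∈ Icc 1 A then ((G a / K : ℝ) : ℂ) else 0 with hG'
  set c : ℕ → ℂ := fun m => ((if 0 ≤ ∑ a ∈ Icc 1 A, G a * D a m then (1 : ℝ) else -1 : ℝ) : ℂ) with hc
  have h1 := h G' c (fun a => by
    rw [hG']
    simp only
    split_ifs with ha
    · rw [Complex.norm_real, Real.norm_eq_abs, abs_div, abs_of_pos hK, div_le_one hK]
      exact hG a ha
    · simp) (fun m => by
    rw [hc, Complex.norm_real]
    split_ifs <;> simp)
  have h2 : ∑ a ∈ Icc 1 A, ∑ m ∈ Icc 1 x, G' a * c m * ((D a m : ℝ) : ℂ) =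
      (((1 / K) * ∑ m ∈ Icc 1 x, |∑ a ∈ Icc 1 A, G a * D a m| : ℝ) : ℂ) := by
    rw [sum_comm]
    push_cast
    rw [mul_sum]
    apply sum_congr rfl
    intro m _
    have h3 : |∑ a ∈ Icc 1 A, G a * D a m| = (if 0 ≤ ∑ a ∈ Icc 1 A, G a * D a m then (1 : ℝ) else -1) * ∑ a ∈ Icc 1 A, G a * D a m := by
      split_ifs with h4
      · rw [one_mul, abs_of_nonneg h4]
      · rw [abs_of_neg (not_le.1 h4)]; ring
    rw [h3]
    push_cast
    rw [mul_sum, mul_sum]
    apply sum_congr rfl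
    intro a ha
    rw [hG', hc]
    simp only [if_pos ha]
    push_cast
    ring
  rw [h2, Complex.norm_real, Real.norm_of_nonneg (mul_nonneg (by positivity) (sum_nonneg fun _ _ => abs_nonneg _))] at h1
  rw [one_div, inv_mul_le_iff₀ hK] at h1
  exact h1

/-- the same with the roles exchanged -/
lemma l1_of_bil' (A x : ℕ) (D : ℕ → ℕ → ℝ) (δ K : ℝ) (hK : 0 < K)
    (h : ∀ G c : ℕ → ℂ, (∀ a, ‖G a‖ ≤ 1) → (∀ m, ‖c m‖ ≤ 1) →
      ‖∑ a ∈ Icc 1 A, ∑ m ∈ Icc 1 x, G a * c m * ((D a m : ℝ) : ℂ)‖ ≤ δ)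
    (c : ℕ → ℝ) (hc : ∀ m ∈ Icc 1 x, |c m| ≤ K) :
    ∑ a ∈ Icc 1 A, |∑ m ∈ Icc 1 x, c m * D a m| ≤ K * δ := by
  apply l1_of_bil x A (fun m a => D a m) δ K hK _ c hc
  intro G c hG hc
  have := h c G hc hG
  rw [sum_comm] at this
  refine le_trans (le_of_eq ?_) this
  congr 1
  apply sum_congr rfl
  intro m _
  apply sum_congr rfl
  intro a _
  ring

variable {k : ℕ}

/-- averaging over one coordinate -/
lemma avg_coord (s : Fin k → Finset ℕ) (i : Fin k) (Φ : (Fin k → ℕ) → ℝ) :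
    ∑ m ∈ Fintype.piFinset s, ∑ v ∈ s i, Φ (Function.update m i v) = (s i).card * ∑ m ∈ Fintype.piFinset s, Φ m := by
  rw [← sum_product']
  have h1 : ((s i).card : ℝ) * ∑ m ∈ Fintype.piFinset s, Φ m = ∑ q ∈ Fintype.piFinset s ×ˢ s i, Φ q.1 := by
    rw [sum_product, mul_sum]
    apply sum_congr rfl
    intro m _
    simp only [sum_const, nsmul_eq_mul]
  rw [h1]
  refine sum_bij' (fun q _ => (Function.update q.1 i q.2, q.1 i)) (fun q _ => (Function.update q.1 i q.2, q.1 i)) ?_ ?_ ?_ ?_ ?_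
  · rintro ⟨m, v⟩ hq
    rw [mem_product, Fintype.mem_piFinset] at hq ⊢
    refine ⟨fun j => ?_, hq.1 i⟩
    by_cases hj : j = i
    · subst hj; simpa using hq.2
    · simpa [Function.update_of_ne hj] using hq.1 j
  · rintro ⟨m, v⟩ hq
    rw [mem_product, Fintype.mem_piFinset] at hq ⊢
    refine ⟨fun j => ?_, hq.1 i⟩
    by_cases hj : j = i
    · subst hj; simpa using hq.2
    · simpa [Function.update_of_ne hj] using hq.1 j
  · rintro ⟨m, v⟩ _
    simp
  · rintro ⟨m, v⟩ _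
    simp
  · rintro ⟨m, v⟩ _
    rfl

/-- telescoping -/
theorem tele (N : ℕ) (x : Fin k → ℕ) (hx : ∀ i, 1 ≤ x i) (P Q : Fin k → ℕ → ℕ → ℝ) (Λ δ : ℝ) (hΛ : 1 ≤ Λ) (hδ : 0 ≤ δ)
    (hP : ∀ i, ∀ n ∈ Icc 1 N, ∀ v ∈ Icc 1 (x i), |P i n v| ≤ Λ) (hQ : ∀ i, ∀ n ∈ Icc 1 N, ∀ v ∈ Icc 1 (x i), |Q i n v| ≤ Λ)
    (hone : ∀ i, ∀ K : ℝ, 0 < K → ∀ G : ℕ → ℝ, (∀ n ∈ Icc 1 N, |G n| ≤ K) →
      ∑ v ∈ Icc 1 (x i), |∑ n ∈ Icc 1 N, G n * (P i n v - Q i n v)| ≤ K * (δ * x i))
    (J : Finset (Fin k)) : ∀ K : ℝ, 0 < K → ∀ G : ℕ → (Fin k → ℕ) → ℝ,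
    (∀ n ∈ Icc 1 N, ∀ m ∈ Fintype.piFinset (fun i => Icc 1 (x i)), |G n m| ≤ K) →
    (∀ n m v, ∀ i ∈ J, G n (Function.update m i v) = G n m) →
    ∑ m ∈ Fintype.piFinset (fun i => Icc 1 (x i)), |∑ n ∈ Icc 1 N, G n m * (∏ i ∈ J, P i n (m i) - ∏ i ∈ J, Q i n (m i))| ≤
      J.card * (K * Λ ^ J.card * δ) * ∏ i, (x i : ℝ) := by
  induction J using Finset.induction_on with
  | empty => intro K _ G _ _; simp
  | insert i J hi ih =>
    intro K hK G hG hind
    have hx0 : ∀ j, (0 : ℝ) < x j := fun j => by exact_mod_cast hx j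
    have hprod : 0 < ∏ j, (x j : ℝ) := prod_pos fun j _ => hx0 j
    rw [card_insert_of_notMem hi]
    -- splitting
    have hsplit : ∀ m ∈ Fintype.piFinset (fun i => Icc 1 (x i)),
        |∑ n ∈ Icc 1 N, G n m * (∏ i ∈ insert i J, P i n (m i) - ∏ i ∈ insert i J, Q i n (m i))| ≤
        |∑ n ∈ Icc 1 N, (G n m * P i n (m i)) * (∏ i ∈ J, P i n (m i) - ∏ i ∈ J, Q i n (m i))| +
        |∑ n ∈ Icc 1 N, (G n m * ∏ j ∈ J, Q j n (m j)) * (P i n (m i) - Q i n (m i))| := by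
      intro m _
      refine le_trans (le_of_eq ?_) (abs_add_le _ _)
      rw [← sum_add_distrib]
      congr 1
      apply sum_congr rfl
      intro n _
      rw [prod_insert hi, prod_insert hi]
      ring
    refine (sum_le_sum hsplit).trans ?_
    rw [sum_add_distrib]
    -- first part
    have h1 := ih (K * Λ) (by positivity) (fun n m => if n ∈ Icc 1 N ∧ m i ∈ Icc 1 (x i) then G n m * P i n (m i) else 0)
      (by
        intro n hn m hm
        rw [Fintype.mem_piFinset] at hm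
        simp only [if_pos (And.intro hn (hm i))]
        rw [abs_mul]
        exact mul_le_mul (hG n hn m (Fintype.mem_piFinset.2 hm)) (hP i n hn _ (hm i)) (abs_nonneg _) hK.le)
      (by
        intro n m v j hj
        have hne : i ≠ j := fun h => hi (h ▸ hj)
        rw [Function.update_of_ne hne]
        rw [hind n m v j (mem_insert_of_mem hj)])
    have h1' : ∑ m ∈ Fintype.piFinset (fun i => Icc 1 (x i)),
        |∑ n ∈ Icc 1 N, (G n m * P i n (m i)) * (∏ i ∈ J, P i n (m i) - ∏ i ∈ J, Q i n (m i))| ≤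
        J.card * (K * Λ * Λ ^ J.card * δ) * ∏ i, (x i : ℝ) := by
      refine le_trans (le_of_eq ?_) h1
      apply sum_congr rfl
      intro m hm
      congr 1
      apply sum_congr rfl
      intro n hn
      rw [Fintype.mem_piFinset] at hm
      simp only [if_pos (And.intro hn (hm i))]
    -- second part
    have h2 : ∑ m ∈ Fintype.piFinset (fun i => Icc 1 (x i)),
        |∑ n ∈ Icc 1 N, (G n m * ∏ j ∈ J, Q j n (m j)) * (P i n (m i) - Q i n (m i))| ≤
        (K * Λ ^ J.card * δ) * ∏ i, (x i : ℝ) := by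
      set Φ : (Fin k → ℕ) → ℝ := fun m => |∑ n ∈ Icc 1 N, (G n m * ∏ j ∈ J, Q j n (m j)) * (P i n (m i) - Q i n (m i))| with hΦ
      have h3 := avg_coord (fun i => Icc 1 (x i)) i Φ
      have h4 : ((Icc 1 (x i)).card : ℝ) = x i := by simp
      rw [h4] at h3
      have h5 : ∀ m ∈ Fintype.piFinset (fun i => Icc 1 (x i)), ∑ v ∈ Icc 1 (x i), Φ (Function.update m i v) ≤
          (K * Λ ^ J.card) * (δ * x i) := by
        intro m hm
        have hm' := Fintype.mem_piFinset.1 hm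
        have h6 := hone i (K * Λ ^ J.card) (by positivity) (fun n => G n m * ∏ j ∈ J, Q j n (m j)) (by
          intro n hn
          rw [abs_mul, abs_prod]
          apply mul_le_mul (hG n hn m hm) _ (prod_nonneg fun _ _ => abs_nonneg _) hK.le
          calc ∏ j ∈ J, |Q j n (m j)| ≤ ∏ _j ∈ J, Λ := prod_le_prod (fun _ _ => abs_nonneg _) (fun j _ => hQ j n hn _ (hm' j))
            _ = Λ ^ J.card := by rw [prod_const])
        refine le_trans (le_of_eq ?_) h6
        apply sum_congr rfl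
        intro v _
        rw [hΦ]
        simp only
        congr 1
        apply sum_congr rfl
        intro n _
        rw [hind n m v i (mem_insert_self _ _), Function.update_self]
        congr 2
        apply prod_congr rfl
        intro j hj
        have hne : j ≠ i := fun h => hi (h ▸ hj)
        rw [Function.update_of_ne hne]
      have h6 := sum_le_sum h5
      rw [h3, sum_const, nsmul_eq_mul] at h6
      have h7 : ((Fintype.piFinset (fun i => Icc 1 (x i))).card : ℝ) = ∏ i, (x i : ℝ) := by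
        rw [Fintype.card_piFinset]
        push_cast
        apply prod_congr rfl
        intro j _
        simp
      rw [h7] at h6
      have h8 : (x i : ℝ) * ∑ m ∈ Fintype.piFinset (fun i => Icc 1 (x i)), Φ m ≤ x i * ((K * Λ ^ J.card * δ) * ∏ i, (x i : ℝ)) := by
        refine h6.trans (le_of_eq ?_)
        ring
      exact le_of_mul_le_mul_left h8 (hx0 i)
    refine (add_le_add h1' h2).trans ?_
    have h9 : K * Λ ^ J.card * δ ≤ K * Λ ^ (J.card + 1) * δ := by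
      have : Λ ^ J.card ≤ Λ ^ (J.card + 1) := pow_le_pow_right₀ hΛ (by omega)
      gcongr
    have h10 : K * Λ * Λ ^ J.card * δ = K * Λ ^ (J.card + 1) * δ := by ring
    rw [h10]
    push_cast
    have h11 := mul_le_mul_of_nonneg_right h9 hprod.le
    calc _ ≤ (J.card : ℝ) * (K * Λ ^ (J.card + 1) * δ) * ∏ i, (x i : ℝ) + K * Λ ^ (J.card + 1) * δ * ∏ i, (x i : ℝ) := by
          linarith
      _ = _ := by ring

end Pool.Agent.H373R2.T7
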