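import Mathlib
import Pool.Agent.H43.G.R_seed8.H373R2.T7.TupleMain2
import Pool.Agent.H43.G.R_seed8.H373R2.T7.BilLam
import Pool.Agent.H43.G.R_seed8.H373R2.T7.Telesc

/-! Prime tuples `p, p + f_1(m_1), ..., p + f_k(m_k)` for almost all `(m_1, ..., m_k)`. -/

namespace Pool.Agent.H373R2.T7
open Finset Polynomial

lemma lower_bdd (f : ℤ[X]) (hd : 1 ≤ f.natDegree) (hl : 0 < f.leadingCoeff) : ∃ C : ℕ, ∀ m : ℕ, -(C : ℤ) ≤ f.eval (m : ℤ) := by
  set P : ℝ[X] := f.map (Int.castRingHom ℝ) with hP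
  have hinj : Function.Injective (Int.castRingHom ℝ) := Int.cast_injective
  have hdeg : 0 < P.degree := by
    rw [hP, degree_map_eq_of_injective hinj, ← natDegree_pos_iff_degree_pos]
    omega
  have hlc : 0 ≤ P.leadingCoeff := by
    rw [hP, leadingCoeff_map_of_injective hinj, eq_intCast]
    exact_mod_cast hl.le
  have ht := (P.tendsto_atTop_of_leadingCoeff_nonneg hdeg hlc).comp (tendsto_natCast_atTop_atTop (R := ℝ))
  obtain ⟨n0, h0⟩ := Filter.eventually_atTop.1 (ht.eventually_ge_atTop 0)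
  refine ⟨∑ m ∈ range n0, (f.eval (m : ℤ)).natAbs, fun m => ?_⟩
  rcases lt_or_ge m n0 with h | h
  · have h1 : (f.eval (m : ℤ)).natAbs ≤ ∑ m ∈ range n0, (f.eval (m : ℤ)).natAbs :=
      single_le_sum (f := fun m : ℕ => (f.eval (m : ℤ)).natAbs) (fun _ _ => Nat.zero_le _) (mem_range.2 h)
    have h2 : -((f.eval (m : ℤ)).natAbs : ℤ) ≤ f.eval (m : ℤ) := by
      have := neg_abs_le (f.eval (m : ℤ))
      rwa [Int.abs_eq_natAbs] at this
    have h3 : ((f.eval (m : ℤ)).natAbs : ℤ) ≤ ((∑ m ∈ range n0, (f.eval (m : ℤ)).natAbs : ℕ) : ℤ) := by exact_mod_cast h1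
    linarith
  · have h1 := h0 m h
    simp only [Function.comp] at h1
    have h2 : P.eval (m : ℝ) = ((f.eval (m : ℤ) : ℤ) : ℝ) := by
      rw [hP]
      simp
    rw [h2] at h1
    have h3 : 0 ≤ f.eval (m : ℤ) := by exact_mod_cast h1
    have h4 : (0 : ℤ) ≤ ((∑ m ∈ range n0, (f.eval (m : ℤ)).natAbs : ℕ) : ℤ) := Int.natCast_nonneg _
    linarith

lemma lamI_le (k : ℤ) (X : ℝ) (hX : 1 ≤ X) (h : (k : ℝ) ≤ X) : lamI k ≤ Real.log X := by
  unfold lamI
  split_ifs with h1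
  · refine ArithmeticFunction.vonMangoldt_le_log.trans ?_
    have h2 : ((k.toNat : ℕ) : ℝ) = k := by
      have := Int.toNat_of_nonneg (show 0 ≤ k by omega)
      exact_mod_cast this
    rw [h2]
    apply Real.log_le_log _ h
    exact_mod_cast (by omega : 0 < k)
  · exact Real.log_nonneg hX

lemma lamzI_le (z : ℕ) (k : ℤ) : lamzI z k ≤ (Vz z)⁻¹ := by
  have h := (inv_pos.2 (Vz_pos z)).le
  unfold lamzI lamz
  split_ifs
  · exact le_rfl
  · exact h
  · exact h

theorem tuple_diff {k : ℕ} (f : Fin k → ℤ[X]) (hd : ∀ i, 1 ≤ (f i).natDegree) (hl : ∀ i, 0 < (f i).leadingCoeff)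
    (B : ℕ) (hB : 1 ≤ B) (U : ℕ) :
    ∃ B0 : ℕ, ∀ E : ℕ, ∃ N0 : ℕ, ∀ N : ℕ, N0 ≤ N → ∀ x : Fin k → ℕ,
      (∀ i, N ≤ B * x i ^ (f i).natDegree ∧ x i ^ (f i).natDegree ≤ B * N) →
      ∀ z : ℕ, Real.log N ^ B0 ≤ z → (z : ℝ) ≤ Real.log N ^ E →
      ∑ m ∈ Fintype.piFinset (fun i => Icc 1 (x i)), |∑ n ∈ Icc 1 N, ArithmeticFunction.vonMangoldt n *
        (∏ i, lamI ((n : ℤ) + (f i).eval (m i : ℤ)) - ∏ i, lamzI z ((n : ℤ) + (f i).eval (m i : ℤ)))| ≤
        N * (∏ i, (x i : ℝ)) / Real.log N ^ U := by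
  classical
  have hbl := fun i => bil_lam (f i) (hd i) (hl i) B hB (U + k + 2)
  choose B0 hB0 using hbl
  refine ⟨univ.sup B0, fun E => ?_⟩
  have hE := fun i => hB0 i E
  choose N0 hN0 using hE
  set c1 : ℕ := 1 + univ.sup (fun i => cf (f i)) * B with hc1
  obtain ⟨n2, h2⟩ := ev_L' (max (Real.log c1 + 1) ((k : ℝ) * 2 ^ k + 1))
  obtain ⟨n3, h3⟩ := Vz_inv_small E
  refine ⟨max (max (univ.sup N0) n2) (max n3 3), fun N hN x hx z hz1 hz2 => ?_⟩
  have b1 := le_trans (le_trans (le_max_left _ _) (le_max_left _ _)) hN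
  have b2 := le_trans (le_trans (le_max_right _ _) (le_max_left _ _)) hN
  have b3 := le_trans (le_trans (le_max_left _ _) (le_max_right _ _)) hN
  have hN3 : 3 ≤ N := le_trans (le_trans (le_max_right _ _) (le_max_right _ _)) hN
  have hNr : (3 : ℝ) ≤ N := by exact_mod_cast hN3
  have hN0' : (0 : ℝ) < N := by linarith
  have hL := h2 N b2
  set L := Real.log N with hLd
  have hLa : Real.log c1 + 1 ≤ L := (le_max_left _ _).trans hL
  have hLb : (k : ℝ) * 2 ^ k + 1 ≤ L := (le_max_right _ _).trans hL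
  have hc1r : (1 : ℝ) ≤ c1 := by rw [hc1]; push_cast; nlinarith [Nat.cast_nonneg (α := ℝ) (univ.sup (fun i => cf (f i))), Nat.cast_nonneg (α := ℝ) B]
  have hlc1 : 0 ≤ Real.log c1 := Real.log_nonneg hc1r
  have hL1 : 1 ≤ L := by linarith
  have hL0 : 0 < L := by linarith
  have hz : 1 ≤ z := by
    have : (1 : ℝ) ≤ z := (one_le_pow₀ hL1).trans hz1
    exact_mod_cast this
  have hV := h3 N b3 z hz hz2
  have hx1 : ∀ i, 1 ≤ x i := by
    intro i
    rcases Nat.eq_zero_or_pos (x i) with h | h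
    · have := (hx i).1
      have h4 : (f i).natDegree ≠ 0 := by have := hd i; omega
      rw [h, zero_pow h4, mul_zero] at this
      omega
    · exact h
  have hup : ∀ i, ∀ n ∈ Icc 1 N, ∀ v ∈ Icc 1 (x i), (((n : ℤ) + (f i).eval (v : ℤ) : ℤ) : ℝ) ≤ c1 * N := by
    intro i n hn v hv
    rw [mem_Icc] at hn hv
    have h4 := (abs_le.1 (abs_eval_le (f i) v hv.1)).2
    have h5 : cf (f i) * v ^ (f i).natDegree ≤ univ.sup (fun i => cf (f i)) * (B * N) := by
      apply Nat.mul_le_mul (le_sup (f := fun i => cf (f i)) (mem_univ i))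
      exact (Nat.pow_le_pow_left hv.2 _).trans (hx i).2
    have h6 : ((n : ℤ) + (f i).eval (v : ℤ)) ≤ ((c1 * N : ℕ) : ℤ) := by
      have h7 : ((cf (f i) * v ^ (f i).natDegree : ℕ) : ℤ) ≤ ((univ.sup (fun i => cf (f i)) * (B * N) : ℕ) : ℤ) := by exact_mod_cast h5
      have h8 : (n : ℤ) ≤ N := by exact_mod_cast hn.2
      have h9 : ((c1 * N : ℕ) : ℤ) = N + ((univ.sup (fun i => cf (f i)) * (B * N) : ℕ) : ℤ) := by rw [hc1]; push_cast; ring
      rw [h9]
      have h10 : ((cf (f i) * v ^ (f i).natDegree : ℕ) : ℤ) = (cf (f i) : ℤ) * (v : ℤ) ^ (f i).natDegree := by push_cast; ring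
      rw [h10] at h7
      linarith
    have h7 : (((n : ℤ) + (f i).eval (v : ℤ) : ℤ) : ℝ) ≤ (((c1 * N : ℕ) : ℤ) : ℝ) := by exact_mod_cast h6
    push_cast at h7 ⊢
    exact h7
  have hlog2 : Real.log (c1 * N) ≤ 2 * L := by
    rw [Real.log_mul (by linarith) hN0'.ne']; linarith
  have key := tele N x hx1 (fun i n v => lamI ((n : ℤ) + (f i).eval (v : ℤ))) (fun i n v => lamzI z ((n : ℤ) + (f i).eval (v : ℤ)))
    (2 * L) (N / L ^ (U + k + 2)) (by linarith) (by positivity) (by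
      intro i n hn v hv
      rw [abs_of_nonneg (lamI_nonneg _)]
      refine (lamI_le _ (c1 * N) ?_ (hup i n hn v hv)).trans hlog2
      nlinarith) (by
      intro i n hn v hv
      rw [abs_of_nonneg (lamzI_nonneg _ _)]
      have := lamzI_le z ((n : ℤ) + (f i).eval (v : ℤ))
      linarith) (by
      intro i K hK G hG
      have h4 := hN0 i N ((le_sup (f := N0) (mem_univ i)).trans b1) (x i) (hx i).1 (hx i).2 N (Nat.le_mul_of_pos_left _ (by omega)) z
        (le_trans (pow_le_pow_right₀ hL1 (le_sup (f := B0) (mem_univ i))) hz1) hz2 1 (Or.inl rfl)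
      have h5 := l1_of_bil N (x i) (fun n v => lamI ((n : ℤ) + (f i).eval (v : ℤ)) - lamzI z ((n : ℤ) + (f i).eval (v : ℤ)))
        (N * x i / L ^ (U + k + 2)) K hK (by
          intro G c hG hc
          have h6 := h4 G c hG hc
          simp only [one_mul] at h6
          exact h6) G hG
      refine h5.trans (le_of_eq ?_)
      ring)
    univ L hL0 (fun n _ => ArithmeticFunction.vonMangoldt n) (by
      intro n hn m _
      rw [mem_Icc] at hn
      rw [abs_of_nonneg ArithmeticFunction.vonMangoldt_nonneg]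
      exact ArithmeticFunction.vonMangoldt_le_log.trans (Real.log_le_log (by exact_mod_cast hn.1) (by exact_mod_cast hn.2))) (by
      intro n m v i _; rfl)
  refine key.trans ?_
  rw [card_univ, Fintype.card_fin]
  have hprod : 0 ≤ ∏ i, (x i : ℝ) := prod_nonneg fun _ _ => Nat.cast_nonneg _
  calc (k : ℝ) * (L * (2 * L) ^ k * (N / L ^ (U + k + 2))) * ∏ i, (x i : ℝ)
      = ((k : ℝ) * 2 ^ k / L) * (N * (∏ i, (x i : ℝ)) / L ^ U) := by
        rw [mul_pow, show U + k + 2 = U + k + 1 + 1 by ring, pow_succ, pow_succ, pow_add]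
        field_simp
    _ ≤ 1 * (N * (∏ i, (x i : ℝ)) / L ^ U) := by
        apply mul_le_mul_of_nonneg_right _ (by positivity)
        rw [div_le_one hL0]; linarith
    _ = _ := one_mul _

end Pool.Agent.H373R2.T7
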