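import Mathlib
import Pool.Agent.H43.G.R_seed8.H373R2.T7.Tuple

/-! Prime tuples: from the von Mangoldt function to primes. -/

namespace Pool.Agent.H373R2.T7
open Finset Polynomial

/-- the logarithm on primes -/
noncomputable def lamP (k : ℤ) : ℝ := if (k.toNat).Prime then Real.log k.toNat else 0

lemma lamP_nonneg (k : ℤ) : 0 ≤ lamP k := by
  unfold lamP
  split_ifs
  · exact Real.log_natCast_nonneg _
  · exact le_rfl

lemma lamP_le (k : ℤ) : lamP k ≤ lamI k := by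
  unfold lamP lamI
  by_cases h : (k.toNat).Prime
  · have h1 : 1 ≤ k := by
      have := h.one_lt
      omega
    rw [if_pos h, if_pos h1, ArithmeticFunction.vonMangoldt_apply_prime h]
  · rw [if_neg h]
    exact lamI_nonneg k

/-- the contribution of proper prime powers in a short list of distinct integers -/
lemma pp_sum (N X : ℕ) (a : ℤ) (hX : 1 ≤ X) (h : ∀ n ∈ Icc 1 N, (n : ℤ) + a ≤ X) :
    ∑ n ∈ Icc 1 N, (lamI ((n : ℤ) + a) - lamP ((n : ℤ) + a)) ≤ 2 * √(X : ℝ) * Real.log X := by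
  have h0 := Chebyshev.psi_sub_theta_le (x := (X : ℝ)) (by exact_mod_cast hX)
  rw [Chebyshev.psi_sub_theta_eq_sum_not_prime, Nat.floor_natCast] at h0
  refine le_trans ?_ h0
  have h1 : ∀ n ∈ Icc 1 N, lamI ((n : ℤ) + a) - lamP ((n : ℤ) + a) =
      if 1 ≤ (n : ℤ) + a ∧ ¬ ((n : ℤ) + a).toNat.Prime then ArithmeticFunction.vonMangoldt ((n : ℤ) + a).toNat else 0 := by
    intro n _
    unfold lamI lamP
    by_cases h2 : 1 ≤ (n : ℤ) + a
    · by_cases h3 : (((n : ℤ) + a).toNat).Prime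
      · rw [if_pos h2, if_pos h3, if_neg (fun h => h.2 h3), ArithmeticFunction.vonMangoldt_apply_prime h3, sub_self]
      · rw [if_pos h2, if_neg h3, if_pos ⟨h2, h3⟩, sub_zero]
    · have h3 : ¬ (((n : ℤ) + a).toNat).Prime := by
        have : ((n : ℤ) + a).toNat = 0 := by omega
        rw [this]; exact Nat.not_prime_zero
      rw [if_neg h2, if_neg h3, if_neg (fun h => h2 h.1), sub_self]
  rw [sum_congr rfl h1, ← sum_filter]
  have h2 : ∑ n ∈ (Icc 1 N).filter (fun n : ℕ => 1 ≤ (n : ℤ) + a ∧ ¬ ((n : ℤ) + a).toNat.Prime),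
      ArithmeticFunction.vonMangoldt ((n : ℤ) + a).toNat =
      ∑ j ∈ ((Icc 1 N).filter (fun n : ℕ => 1 ≤ (n : ℤ) + a ∧ ¬ ((n : ℤ) + a).toNat.Prime)).image (fun n : ℕ => ((n : ℤ) + a).toNat),
      ArithmeticFunction.vonMangoldt j := by
    rw [sum_image]
    intro n hn m hm hnm
    simp only [coe_filter, mem_Icc, Set.mem_ofPred_eq] at hn hm
    simp only at hnm
    omega
  rw [h2]
  apply sum_le_sum_of_subset_of_nonneg
  · intro j hj
    rw [mem_image] at hj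
    obtain ⟨n, hn, rfl⟩ := hj
    rw [mem_filter] at hn
    have h3 := h n hn.1
    rw [mem_filter, mem_Ioc]
    exact ⟨⟨by omega, by omega⟩, hn.2.2⟩
  · intro _ _ _
    exact ArithmeticFunction.vonMangoldt_nonneg

/-- comparison of products -/
lemma prod_sub_le {ι : Type*} [DecidableEq ι] (J : Finset ι) (u v : ι → ℝ) (M : ℝ) (hM : 1 ≤ M) (hv : ∀ i ∈ J, 0 ≤ v i)
    (huv : ∀ i ∈ J, v i ≤ u i) (hu : ∀ i ∈ J, u i ≤ M) :
    0 ≤ ∏ i ∈ J, u i - ∏ i ∈ J, v i ∧ ∏ i ∈ J, u i - ∏ i ∈ J, v i ≤ M ^ J.card * ∑ i ∈ J, (u i - v i) := by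
  induction J using Finset.induction_on with
  | empty => simp
  | insert a J ha ih =>
    have hM0 : 0 ≤ M := by linarith
    obtain ⟨h0, h1⟩ := ih (fun i hi => hv i (mem_insert_of_mem hi)) (fun i hi => huv i (mem_insert_of_mem hi))
      (fun i hi => hu i (mem_insert_of_mem hi))
    have hva := hv a (mem_insert_self _ _)
    have huva := huv a (mem_insert_self _ _)
    have hua := hu a (mem_insert_self _ _)
    rw [prod_insert ha, prod_insert ha, sum_insert ha, card_insert_of_notMem ha]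
    have hP0 : 0 ≤ ∏ i ∈ J, u i := prod_nonneg fun i hi => (hv i (mem_insert_of_mem hi)).trans (huv i (mem_insert_of_mem hi))
    have hP1 : ∏ i ∈ J, u i ≤ M ^ J.card := by
      calc ∏ i ∈ J, u i ≤ ∏ _i ∈ J, M := prod_le_prod (fun i hi => (hv i (mem_insert_of_mem hi)).trans (huv i (mem_insert_of_mem hi)))
            (fun i hi => hu i (mem_insert_of_mem hi))
        _ = M ^ J.card := by rw [prod_const]
    have hS : 0 ≤ ∑ i ∈ J, (u i - v i) := sum_nonneg fun i hi => by linarith [huv i (mem_insert_of_mem hi)]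
    have e : u a * ∏ i ∈ J, u i - v a * ∏ i ∈ J, v i = (u a - v a) * ∏ i ∈ J, u i + v a * (∏ i ∈ J, u i - ∏ i ∈ J, v i) := by ring
    rw [e]
    constructor
    · have h3 : 0 ≤ (u a - v a) * ∏ i ∈ J, u i := mul_nonneg (by linarith) hP0
      have h4 : 0 ≤ v a * (∏ i ∈ J, u i - ∏ i ∈ J, v i) := mul_nonneg hva h0
      linarith
    · have h3 : (u a - v a) * ∏ i ∈ J, u i ≤ (u a - v a) * M ^ J.card := mul_le_mul_of_nonneg_left hP1 (by linarith)
      have h4 : v a * (∏ i ∈ J, u i - ∏ i ∈ J, v i) ≤ M * (M ^ J.card * ∑ i ∈ J, (u i - v i)) :=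
        mul_le_mul (huva.trans hua) h1 h0 hM0
      have h5 : (u a - v a) * M ^ J.card ≤ (u a - v a) * M ^ (J.card + 1) :=
        mul_le_mul_of_nonneg_left (pow_le_pow_right₀ hM (by omega)) (by linarith)
      calc _ ≤ (u a - v a) * M ^ (J.card + 1) + M * (M ^ J.card * ∑ i ∈ J, (u i - v i)) := add_le_add (h3.trans h5) h4
        _ = _ := by ring

/-- the weighted number of prime tuples -/
noncomputable def tupleCount {k : ℕ} (a : Fin k → ℤ) (N : ℕ) : ℝ :=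
  ∑ p ∈ (Icc 1 N).filter (fun p : ℕ => p.Prime ∧ ∀ i, ((p : ℤ) + a i).toNat.Prime), Real.log p * ∏ i, Real.log ((p : ℝ) + a i)

lemma tupleCount_eq {k : ℕ} (a : Fin k → ℤ) (N : ℕ) :
    tupleCount a N = ∑ n ∈ Icc 1 N, lamP n * ∏ i, lamP ((n : ℤ) + a i) := by
  unfold tupleCount
  rw [sum_filter]
  apply sum_congr rfl
  intro n _
  by_cases h : n.Prime ∧ ∀ i, ((n : ℤ) + a i).toNat.Prime
  · rw [if_pos h]
    unfold lamP
    rw [Int.toNat_natCast, if_pos h.1]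
    congr 1
    apply prod_congr rfl
    intro i _
    rw [if_pos (h.2 i)]
    have h1 : 0 ≤ (n : ℤ) + a i := by
      have := (h.2 i).pos
      omega
    have h2 : ((((n : ℤ) + a i).toNat : ℕ) : ℝ) = (n : ℝ) + a i := by
      have := Int.toNat_of_nonneg h1
      have h3 : ((((n : ℤ) + a i).toNat : ℤ) : ℝ) = (((n : ℤ) + a i : ℤ) : ℝ) := by rw [this]
      push_cast at h3
      exact_mod_cast h3
    rw [h2]
  · rw [if_neg h]
    symm
    rw [not_and_or] at h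
    rcases h with h | h
    · unfold lamP
      rw [Int.toNat_natCast, if_neg h, zero_mul]
    · push Not at h
      obtain ⟨i, hi⟩ := h
      rw [prod_eq_zero (mem_univ i), mul_zero]
      unfold lamP
      rw [if_neg hi]

lemma toPrimes {k : ℕ} (a : Fin k → ℤ) (N X : ℕ) (hN : 1 ≤ N) (hX : N ≤ X) (h : ∀ i, ∀ n ∈ Icc 1 N, (n : ℤ) + a i ≤ X) (M : ℝ) (hM : 1 ≤ M)
    (hXM : Real.log X ≤ M) :
    |∑ n ∈ Icc 1 N, ArithmeticFunction.vonMangoldt n * ∏ i, lamI ((n : ℤ) + a i) - tupleCount a N| ≤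
      ((k : ℝ) + 1) * M ^ (k + 1) * (2 * √(X : ℝ) * Real.log X) := by
  have hX1 : 1 ≤ X := hN.trans hX
  have hM0 : 0 ≤ M := by linarith
  rw [tupleCount_eq, ← sum_sub_distrib]
  have hlog : 0 ≤ Real.log X := Real.log_natCast_nonneg X
  have hI : ∀ i, ∀ n ∈ Icc 1 N, lamI ((n : ℤ) + a i) ≤ M := by
    intro i n hn
    refine (lamI_le _ X (by exact_mod_cast hX1) ?_).trans hXM
    exact_mod_cast h i n hn
  have hI0 : ∀ n ∈ Icc 1 N, lamI (n : ℤ) ≤ M := by
    intro n hn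
    refine (lamI_le _ X (by exact_mod_cast hX1) ?_).trans hXM
    rw [mem_Icc] at hn
    exact_mod_cast hn.2.trans hX
  have hΛ : ∀ n ∈ Icc 1 N, ArithmeticFunction.vonMangoldt n = lamI (n : ℤ) := by
    intro n hn
    rw [mem_Icc] at hn
    unfold lamI
    rw [if_pos (by exact_mod_cast hn.1), Int.toNat_natCast]
  have hpt : ∀ n ∈ Icc 1 N, |ArithmeticFunction.vonMangoldt n * ∏ i, lamI ((n : ℤ) + a i) - lamP n * ∏ i, lamP ((n : ℤ) + a i)| ≤
      M ^ (k + 1) * ((lamI n - lamP n) + ∑ i, (lamI ((n : ℤ) + a i) - lamP ((n : ℤ) + a i))) := by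
    intro n hn
    rw [hΛ n hn]
    obtain ⟨h0, h1⟩ := prod_sub_le univ (fun i => lamI ((n : ℤ) + a i)) (fun i => lamP ((n : ℤ) + a i)) M hM
      (fun i _ => lamP_nonneg _) (fun i _ => lamP_le _) (fun i _ => hI i n hn)
    rw [card_univ, Fintype.card_fin] at h1
    have hP0 : 0 ≤ ∏ i, lamI ((n : ℤ) + a i) := prod_nonneg fun i _ => lamI_nonneg _
    have hP1 : ∏ i, lamI ((n : ℤ) + a i) ≤ M ^ k := by
      calc ∏ i, lamI ((n : ℤ) + a i) ≤ ∏ _i : Fin k, M := prod_le_prod (fun i _ => lamI_nonneg _) (fun i _ => hI i n hn)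
        _ = M ^ k := by rw [prod_const, card_univ, Fintype.card_fin]
    have h3 := lamP_nonneg (n : ℤ)
    have h4 := lamP_le (n : ℤ)
    have h5 := hI0 n hn
    have h6 : 0 ≤ ∑ i, (lamI ((n : ℤ) + a i) - lamP ((n : ℤ) + a i)) := sum_nonneg fun i _ => by linarith [lamP_le ((n : ℤ) + a i)]
    have e : lamI (n : ℤ) * ∏ i, lamI ((n : ℤ) + a i) - lamP n * ∏ i, lamP ((n : ℤ) + a i) =
        (lamI (n : ℤ) - lamP n) * ∏ i, lamI ((n : ℤ) + a i) + lamP n * (∏ i, lamI ((n : ℤ) + a i) - ∏ i, lamP ((n : ℤ) + a i)) := by ring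
    rw [e, abs_of_nonneg (add_nonneg (mul_nonneg (by linarith) hP0) (mul_nonneg h3 h0))]
    have h7 : (lamI (n : ℤ) - lamP n) * ∏ i, lamI ((n : ℤ) + a i) ≤ (lamI (n : ℤ) - lamP n) * M ^ (k + 1) := by
      apply mul_le_mul_of_nonneg_left _ (by linarith)
      exact hP1.trans (pow_le_pow_right₀ hM (by omega))
    have h8 : lamP n * (∏ i, lamI ((n : ℤ) + a i) - ∏ i, lamP ((n : ℤ) + a i)) ≤ M * (M ^ k * ∑ i, (lamI ((n : ℤ) + a i) - lamP ((n : ℤ) + a i))) :=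
      mul_le_mul (h4.trans h5) h1 h0 hM0
    calc _ ≤ (lamI (n : ℤ) - lamP n) * M ^ (k + 1) + M * (M ^ k * ∑ i, (lamI ((n : ℤ) + a i) - lamP ((n : ℤ) + a i))) := add_le_add h7 h8
      _ = _ := by ring
  refine (abs_sum_le_sum_abs _ _).trans ((sum_le_sum hpt).trans ?_)
  rw [← mul_sum, sum_add_distrib, sum_comm]
  have g0 := pp_sum N X 0 hX1 (by
    intro n hn
    rw [mem_Icc] at hn
    rw [add_zero]
    exact_mod_cast hn.2.trans hX)
  simp only [add_zero] at g0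
  have g1 : ∀ i ∈ (univ : Finset (Fin k)), ∑ n ∈ Icc 1 N, (lamI ((n : ℤ) + a i) - lamP ((n : ℤ) + a i)) ≤ 2 * √(X : ℝ) * Real.log X :=
    fun i _ => pp_sum N X (a i) hX1 (h i)
  have g2 := sum_le_sum g1
  rw [sum_const, card_univ, Fintype.card_fin, nsmul_eq_mul] at g2
  calc M ^ (k + 1) * (∑ n ∈ Icc 1 N, (lamI (n : ℤ) - lamP n) + ∑ i, ∑ n ∈ Icc 1 N, (lamI ((n : ℤ) + a i) - lamP ((n : ℤ) + a i)))
      ≤ M ^ (k + 1) * (2 * √(X : ℝ) * Real.log X + k * (2 * √(X : ℝ) * Real.log X)) := by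
        apply mul_le_mul_of_nonneg_left _ (by positivity)
        exact add_le_add g0 g2
    _ = _ := by ring

/-- small `n` -/
lemma model_swap {k : ℕ} (a : Fin k → ℤ) (N z C : ℕ) (hC : ∀ i, -(C : ℤ) ≤ a i) (L : ℝ) (hL : 1 ≤ L) (hLN : Real.log N ≤ L) (hV : (Vz z)⁻¹ ≤ L) :
    |∑ n ∈ Icc 1 N, ArithmeticFunction.vonMangoldt n * ∏ i, lamzI z ((n : ℤ) + a i) -
      ∑ n ∈ Icc 1 N, ArithmeticFunction.vonMangoldt n *
      ∏ i, (if ∀ p ∈ pz z, ¬ (p : ℤ) ∣ (n : ℤ) + a i then (Vz z)⁻¹ else 0)| ≤ C * (L ^ (k + 1)) := by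
  have hL0 : 0 ≤ L := by linarith
  have hVp := (inv_pos.2 (Vz_pos z)).le
  rw [← sum_sub_distrib]
  refine (abs_sum_le_sum_abs _ _).trans ?_
  have hpt : ∀ n ∈ Icc 1 N, |ArithmeticFunction.vonMangoldt n * ∏ i, lamzI z ((n : ℤ) + a i) - ArithmeticFunction.vonMangoldt n *
      ∏ i, (if ∀ p ∈ pz z, ¬ (p : ℤ) ∣ (n : ℤ) + a i then (Vz z)⁻¹ else 0)| ≤ if n ≤ C then L ^ (k + 1) else 0 := by
    intro n hn
    rw [mem_Icc] at hn
    by_cases h : n ≤ C
    · rw [if_pos h, ← mul_sub, abs_mul, abs_of_nonneg ArithmeticFunction.vonMangoldt_nonneg]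
      have h1 : ArithmeticFunction.vonMangoldt n ≤ L := (ArithmeticFunction.vonMangoldt_le_log.trans
        (Real.log_le_log (by exact_mod_cast hn.1) (by exact_mod_cast hn.2))).trans hLN
      have h2 : 0 ≤ ∏ i, lamzI z ((n : ℤ) + a i) ∧ ∏ i, lamzI z ((n : ℤ) + a i) ≤ L ^ k := by
        constructor
        · exact prod_nonneg fun _ _ => lamzI_nonneg _ _
        · calc ∏ i, lamzI z ((n : ℤ) + a i) ≤ ∏ _i : Fin k, L := prod_le_prod (fun _ _ => lamzI_nonneg _ _) (fun i _ => (lamzI_le _ _).trans hV)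
            _ = L ^ k := by rw [prod_const, card_univ, Fintype.card_fin]
      have h3 : ∀ i : Fin k, 0 ≤ (if ∀ p ∈ pz z, ¬ (p : ℤ) ∣ (n : ℤ) + a i then (Vz z)⁻¹ else 0) ∧
          (if ∀ p ∈ pz z, ¬ (p : ℤ) ∣ (n : ℤ) + a i then (Vz z)⁻¹ else 0) ≤ L := by
        intro i
        split_ifs
        · exact ⟨hVp, hV⟩
        · exact ⟨le_rfl, hL0⟩
      have h4 : 0 ≤ ∏ i : Fin k, (if ∀ p ∈ pz z, ¬ (p : ℤ) ∣ (n : ℤ) + a i then (Vz z)⁻¹ else 0) ∧
          ∏ i : Fin k, (if ∀ p ∈ pz z, ¬ (p : ℤ) ∣ (n : ℤ) + a i then (Vz z)⁻¹ else 0) ≤ L ^ k := by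
        constructor
        · exact prod_nonneg fun i _ => (h3 i).1
        · calc _ ≤ ∏ _i : Fin k, L := prod_le_prod (fun i _ => (h3 i).1) (fun i _ => (h3 i).2)
            _ = L ^ k := by rw [prod_const, card_univ, Fintype.card_fin]
      have h5 : |∏ i, lamzI z ((n : ℤ) + a i) - ∏ i, (if ∀ p ∈ pz z, ¬ (p : ℤ) ∣ (n : ℤ) + a i then (Vz z)⁻¹ else 0)| ≤ L ^ k := by
        rw [abs_le]
        constructor <;> linarith [h2.1, h2.2, h4.1, h4.2]
      calc _ ≤ L * L ^ k := mul_le_mul h1 h5 (abs_nonneg _) hL0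
        _ = L ^ (k + 1) := by ring
    · rw [if_neg h]
      apply le_of_eq
      rw [abs_eq_zero, sub_eq_zero]
      congr 1
      apply prod_congr rfl
      intro i _
      have h1 : 1 ≤ (n : ℤ) + a i := by
        have := hC i
        omega
      unfold lamzI lamz
      rw [if_pos h1]
      have h2 : (∀ p ∈ pz z, ¬ p ∣ ((n : ℤ) + a i).toNat) ↔ (∀ p ∈ pz z, ¬ (p : ℤ) ∣ (n : ℤ) + a i) := by
        have h3 : ∀ p : ℕ, (p ∣ ((n : ℤ) + a i).toNat ↔ (p : ℤ) ∣ (n : ℤ) + a i) := by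
          intro p
          rw [← Int.natCast_dvd_natCast, Int.toNat_of_nonneg (by omega)]
        simp only [h3]
      simp only [h2]
  refine (sum_le_sum hpt).trans ?_
  rw [← sum_filter, sum_const, nsmul_eq_mul]
  apply mul_le_mul_of_nonneg_right _ (by positivity)
  have h1 : (Icc 1 N).filter (fun n => n ≤ C) ⊆ Icc 1 C := by
    intro n hn
    rw [mem_filter, mem_Icc] at hn
    rw [mem_Icc]
    omega
  have := card_le_card h1
  rw [Nat.card_Icc, Nat.add_sub_cancel] at this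
  exact_mod_cast this

end Pool.Agent.H373R2.T7
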