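import Mathlib

namespace Pool.Agent.H373R2.T7
open Finset

/-- The additive energy of order `p` of the family `s 1, ..., s x`: the number of solutions of
`s (m 1) + ... + s (m p) = s (m' 1) + ... + s (m' p)` with all `m i`, `m' i` in `{1, ..., x}`. -/
def energy (p x : ℕ) (s : ℕ → ℤ) : ℕ :=
  (((Fintype.piFinset fun _ : Fin p => Icc 1 x) ×ˢ (Fintype.piFinset fun _ : Fin p => Icc 1 x)).filter
    (fun q => ∑ i, s (q.1 i) = ∑ i, s (q.2 i))).card

end Pool.Agent.H373R2.T7
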