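import Mathlib
import Pool.Agent.H43.G.R_seed8.H373R2.T7.SysCount
import Pool.Agent.H43.G.R_seed8.H20R2.EN.FLem

/-! The fundamental lemma for systems of classes, and a lower bound for `∏ (1 - 1/p)`. -/

namespace Pool.Agent.H373R2.T7
open Finset

/-- the exponent of the double power -/
def JJ (y : ℕ) : ℕ := Nat.log 2 (Nat.log 2 y) + 1

lemma JJ_lt (y : ℕ) : y < 2 ^ 2 ^ JJ y := by
  have h1 : y < 2 ^ (Nat.log 2 y + 1) := Nat.lt_pow_succ_log_self (by norm_num) y
  have h2 : Nat.log 2 y + 1 ≤ 2 ^ JJ y := Nat.lt_pow_succ_log_self (by norm_num) _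
  exact h1.trans_le (Nat.pow_le_pow_right (by norm_num) h2)

lemma JJ_pow (y : ℕ) (hy : 2 ≤ y) : 2 ^ JJ y ≤ 2 * Nat.log 2 y := by
  have h0 : Nat.log 2 y ≠ 0 := by
    have : 0 < Nat.log 2 y := Nat.log_pos (by norm_num) hy
    omega
  unfold JJ
  rw [pow_succ]
  have := Nat.pow_log_le_self 2 h0
  omega

lemma JJ_le (y : ℕ) (hy : 2 ≤ y) : 2 ^ 2 ^ JJ y ≤ y ^ 2 := by
  calc 2 ^ 2 ^ JJ y ≤ 2 ^ (2 * Nat.log 2 y) := Nat.pow_le_pow_right (by norm_num) (JJ_pow y hy)
    _ = (2 ^ Nat.log 2 y) ^ 2 := by rw [← pow_mul, mul_comm]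
    _ ≤ y ^ 2 := Nat.pow_le_pow_left (Nat.pow_log_le_self 2 (by omega)) 2

lemma JJ_small (y : ℕ) (hy : 3 ≤ y) : JJ y + 2 ≤ 2 * y := by
  unfold JJ
  have h1 : Nat.log 2 (Nat.log 2 y) ≤ Nat.log 2 y := Nat.log_le_self _ _
  have h2 : Nat.log 2 y ≤ y := Nat.log_le_self _ _
  omega

theorem Vz_low : ∃ (C : ℕ) (N0 : ℕ), ∀ y : ℕ, N0 ≤ y → 1 / Real.log y ^ C ≤ Vz y := by
  classical
  obtain ⟨C0, hC0, hM⟩ := Pool.Agent.Helper112.LP.mertens_group
  set K : ℝ := 1 + C0 with hK
  have hK0 : 0 < K := by positivity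
  set C' : ℕ := ⌈2 * K / Real.log 2⌉₊ with hC'
  obtain ⟨N0, h0⟩ := ev_L' 4
  refine ⟨2 * C', max N0 2, fun y hy => ?_⟩
  have hL := h0 y (le_trans (le_max_left _ _) hy)
  have hy2 : 2 ≤ y := le_trans (le_max_right _ _) hy
  have hyr : (2 : ℝ) ≤ y := by exact_mod_cast hy2
  set L := Real.log y with hLd
  have hL0 : 0 < L := by linarith
  have hlog2 : 0 < Real.log 2 := Real.log_pos (by norm_num)
  have hlog2' : 1 / 2 < Real.log 2 := by have := Real.log_two_gt_d9; linarith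
  -- the sum of reciprocals
  have hG : ∀ j, 1 ≤ j → ∑ l ∈ Pool.Agent.Helper112.LP.Gj j, (1 : ℝ) / l ≤ K := by
    intro j hj
    have h1 := (abs_le.1 (hM j hj)).2
    have h2 : C0 / 2 ^ j ≤ C0 := div_le_self hC0.le (one_le_pow₀ (by norm_num))
    have h3 : Real.log 2 ≤ 1 := by have := Real.log_two_lt_d9; linarith
    rw [hK]
    linarith
  have hsub : pz y ⊆ (Icc 1 (JJ y)).biUnion (fun j => Pool.Agent.Helper112.LP.Gj j) := by
    intro p hp
    obtain ⟨h1, h2⟩ := mem_pz.1 hp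
    have h3 : p < 2 ^ 2 ^ JJ y := lt_of_le_of_lt h1 (JJ_lt y)
    have hex : ∃ j, p < 2 ^ 2 ^ j := ⟨_, h3⟩
    set j := Nat.find hex with hj
    have h4 : p < 2 ^ 2 ^ j := Nat.find_spec hex
    have h5 : j ≤ JJ y := Nat.find_min' hex h3
    have h6 : 1 ≤ j := by
      by_contra h
      have h7 : j = 0 := by omega
      rw [h7] at h4
      have := h2.two_le
      norm_num at h4
      omega
    have h7 : 2 ^ 2 ^ (j - 1) ≤ p := by
      by_contra h
      have := Nat.find_min hex (m := j - 1) (by omega)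
      omega
    rw [mem_biUnion]
    refine ⟨j, mem_Icc.2 ⟨h6, h5⟩, ?_⟩
    unfold Pool.Agent.Helper112.LP.Gj
    rw [mem_filter, mem_Ico]
    exact ⟨⟨h7, h4⟩, h2⟩
  have hsum : ∑ p ∈ pz y, (1 : ℝ) / p ≤ JJ y * K := by
    calc ∑ p ∈ pz y, (1 : ℝ) / p ≤ ∑ p ∈ pz y, ∑ j ∈ Icc 1 (JJ y), (if p ∈ Pool.Agent.Helper112.LP.Gj j then (1 : ℝ) / p else 0) := by
          apply sum_le_sum
          intro p hp
          obtain ⟨j, hj, hpj⟩ := mem_biUnion.1 (hsub hp)
          have h1 := single_le_sum (f := fun j => if p ∈ Pool.Agent.Helper112.LP.Gj j then (1 : ℝ) / p else 0)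
            (s := Icc 1 (JJ y)) (fun j _ => by split_ifs <;> positivity) hj
          simp only [if_pos hpj] at h1
          exact h1
      _ ≤ ∑ j ∈ Icc 1 (JJ y), ∑ p ∈ Pool.Agent.Helper112.LP.Gj j, (1 : ℝ) / p := by
          rw [sum_comm]
          apply sum_le_sum
          intro j _
          rw [← sum_filter]
          apply sum_le_sum_of_subset_of_nonneg
          · intro p hp
            exact (mem_filter.1 hp).2
          · intro _ _ _
            positivity
      _ ≤ ∑ _j ∈ Icc 1 (JJ y), K := sum_le_sum fun j hj => hG j (mem_Icc.1 hj).1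
      _ = _ := by rw [sum_const, nsmul_eq_mul, Nat.card_Icc, Nat.add_sub_cancel]
  -- the product
  have hV : Real.exp (-(2 * ∑ p ∈ pz y, (1 : ℝ) / p)) ≤ Vz y := by
    unfold Vz
    rw [mul_sum, ← sum_neg_distrib, Real.exp_sum]
    apply prod_le_prod (fun _ _ => (Real.exp_pos _).le)
    intro p hp
    have hp2 : (2 : ℝ) ≤ p := by exact_mod_cast (mem_pz.1 hp).2.two_le
    have hp0 : (0 : ℝ) < p := by linarith
    have ht : 1 / (p : ℝ) ≤ 1 / 2 := by
      apply one_div_le_one_div_of_le (by norm_num) hp2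
    have ht0 : 0 < 1 / (p : ℝ) := by positivity
    set t := 1 / (p : ℝ)
    have h1 : 0 < 1 - t := by linarith
    rw [← Real.le_log_iff_exp_le h1]
    have h2 := Real.one_sub_inv_le_log_of_pos h1
    have h3 : (1 - t)⁻¹ ≤ 1 + 2 * t := by
      rw [inv_le_iff_one_le_mul₀ h1]
      nlinarith
    linarith
  have h2J : (2 : ℝ) ^ JJ y ≤ 4 * L := by
    have h1 : ((2 ^ JJ y : ℕ) : ℝ) ≤ ((2 * Nat.log 2 y : ℕ) : ℝ) := by exact_mod_cast JJ_pow y hy2
    push_cast at h1
    have h2 : (Nat.log 2 y : ℝ) * Real.log 2 ≤ L := by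
      have h3 : (2 : ℝ) ^ Nat.log 2 y ≤ y := by
        exact_mod_cast Nat.pow_log_le_self 2 (by omega : y ≠ 0)
      have h4 := Real.log_le_log (by positivity) h3
      rwa [Real.log_pow] at h4
    have h3 : (0 : ℝ) ≤ Nat.log 2 y := Nat.cast_nonneg _
    nlinarith
  have hJ : (JJ y : ℝ) * Real.log 2 ≤ Real.log (4 * L) := by
    have := Real.log_le_log (by positivity) h2J
    rwa [Real.log_pow] at this
  have h1 : 2 * (JJ y * K) ≤ C' * Real.log (4 * L) := by
    have h2 : 2 * K / Real.log 2 ≤ C' := Nat.le_ceil _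
    have h3 : 2 * K ≤ C' * Real.log 2 := by rwa [div_le_iff₀ hlog2] at h2
    have hJ0 : (0 : ℝ) ≤ JJ y := Nat.cast_nonneg _
    calc 2 * (JJ y * K) = JJ y * (2 * K) := by ring
      _ ≤ JJ y * (C' * Real.log 2) := mul_le_mul_of_nonneg_left h3 hJ0
      _ = C' * (JJ y * Real.log 2) := by ring
      _ ≤ _ := mul_le_mul_of_nonneg_left hJ (Nat.cast_nonneg _)
  have h2 : 1 / L ^ (2 * C') ≤ Real.exp (-(2 * ∑ p ∈ pz y, (1 : ℝ) / p)) := by
    have h3 : 1 / (4 * L) ^ C' ≤ Real.exp (-(2 * ∑ p ∈ pz y, (1 : ℝ) / p)) := by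
      have e : 1 / (4 * L) ^ C' = Real.exp (-(C' * Real.log (4 * L))) := by
        rw [Real.exp_neg, ← Real.log_pow, Real.exp_log (by positivity), one_div]
      rw [e]
      apply Real.exp_le_exp.2
      linarith
    refine le_trans ?_ h3
    apply one_div_le_one_div_of_le (by positivity)
    calc (4 * L) ^ C' ≤ (L ^ 2) ^ C' := pow_le_pow_left₀ (by positivity) (by nlinarith) _
      _ = L ^ (2 * C') := by rw [← pow_mul]
  exact h2.trans hV

set_option maxHeartbeats 1000000 in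
open Classical in
theorem sys_fund (c : ℕ) (hc : 1 ≤ c) (ε : ℝ) (hε : 0 < ε) : ∃ K x0 : ℕ, 1 ≤ K ∧ ∀ x y : ℕ, x0 ≤ y → y ^ K ≤ x →
    ∀ Q : ℕ → ℕ → Prop, PerB Q c → ∀ X : ℕ, |((((Icc 1 X).filter (fun n : ℕ => ∀ p ∈ pz y, ¬ Q p n)).card : ℕ) : ℝ) -
      X * ∏ p ∈ pz y, (1 - (nuB Q p : ℝ) / p)| ≤ ε * (X * ∏ p ∈ pz y, (1 - (nuB Q p : ℝ) / p)) + √(x : ℝ) := by
  obtain ⟨C0, hC0, hFL⟩ := Pool.Agent.H20R2.fLem c
  obtain ⟨b1, hb1⟩ := exists_pow_lt_of_lt_one hε (show (1 / 2 : ℝ) < 1 by norm_num)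
  set b := max C0 b1 with hb
  have hbC : C0 ≤ b := le_max_left _ _
  have hb1' : 1 ≤ b := hC0.trans hbC
  have hbε : (1 / 2 : ℝ) ^ b ≤ ε := (pow_le_pow_of_le_one (by norm_num) (by norm_num) (le_max_right _ _)).trans hb1.le
  set z0 := C0 + c with hz0
  set K0 : ℕ := ∏ p ∈ pz z0, p with hK0
  have hK01 : 1 ≤ K0 := Nat.pos_of_ne_zero (prod_ne_zero_iff.2 fun p hp => (mem_pz.1 hp).2.ne_zero)
  have hCb : 1 ≤ C0 * b := Nat.mul_pos hC0 hb1'
  refine ⟨16 * (C0 * b), max (2 * K0) (z0 + 3), by omega, fun x y hy hyx Q hQ X => ?_⟩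
  have hyK : 2 * K0 ≤ y := le_trans (le_max_left _ _) hy
  have hyz : z0 + 3 ≤ y := le_trans (le_max_right _ _) hy
  set J := JJ y with hJ
  set Y : ℕ := 2 ^ 2 ^ J with hY
  have hyY : y < Y := JJ_lt y
  have hYy : Y ≤ y ^ 2 := JJ_le y (by omega)
  set D : ℕ := Y ^ (C0 * b) with hD
  set P : Finset ℕ := (pz y).filter (fun p => z0 < p) with hP
  have hPp : ∀ p ∈ P, p.Prime ∧ z0 < p ∧ p ≤ Y := by
    intro p hp
    rw [hP, mem_filter] at hp
    exact ⟨(mem_pz.1 hp.1).2, hp.2, ((mem_pz.1 hp.1).1.trans hyY.le)⟩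
  have hpzy : pz y = pz z0 ∪ P := by
    ext p
    rw [mem_union, hP, mem_filter, mem_pz, mem_pz]
    constructor
    · rintro ⟨h1, h2⟩
      rcases Nat.lt_or_ge z0 p with h | h
      · exact Or.inr ⟨⟨h1, h2⟩, h⟩
      · exact Or.inl ⟨h, h2⟩
    · rintro (⟨h1, h2⟩ | ⟨h1, _⟩)
      · exact ⟨by omega, h2⟩
      · exact h1
  have hdisj : Disjoint (pz z0) P := by
    rw [disjoint_left]
    intro p hp hp'
    rw [hP, mem_filter] at hp'
    have := (mem_pz.1 hp).1
    omega
  have hpz0 : ∀ p ∈ pz z0, p.Prime := fun p hp => (mem_pz.1 hp).2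
  set A0 : ℝ := ∏ p ∈ pz z0, (1 - (nuB Q p : ℝ) / p) with hA0
  have hfac : ∀ p : ℕ, p.Prime → 0 ≤ 1 - (nuB Q p : ℝ) / p := by
    intro p hp
    have hp0 : (0 : ℝ) < p := by exact_mod_cast hp.pos
    have h1 : (nuB Q p : ℝ) / p ≤ 1 := by rw [div_le_one hp0]; exact_mod_cast nuB_le Q p
    linarith
  have hA00 : 0 ≤ A0 := prod_nonneg fun p hp => hfac p (hpz0 p hp)
  have key := hFL b J z0 P (fun p => (nuB Q p : ℝ) / p) hbC (by omega) hPp (fun p hp => by
      have hp0 : (0 : ℝ) < p := by exact_mod_cast (hPp p hp).1.pos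
      have hp1 : (1 : ℝ) < p := by exact_mod_cast (hPp p hp).1.one_lt
      refine ⟨by positivity, ?_⟩
      apply div_le_div₀ (Nat.cast_nonneg _) (by exact_mod_cast hQ.few p (hPp p hp).1) (by linarith) (by linarith))
    ((Icc 1 X).filter (fun n => ∀ p ∈ pz z0, ¬ Q p n)) (fun _ => (1 : ℝ)) (fun p n => Q p n) (X * A0) (fun _ => (K0 : ℝ) * D)
    (fun _ _ => zero_le_one) (by positivity) (by
      intro T hT hTD
      have hTp : ∀ p ∈ T, p.Prime := fun p hp => (hPp p (hT hp)).1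
      have hdT : Disjoint (pz z0) T := disjoint_of_subset_right hT hdisj
      have h3 := count_sys (fun p a => if p ≤ z0 then ¬ Q p a else Q p a) X (pz z0 ∪ T) (fun p hp => by
        rcases mem_union.1 hp with h | h
        · exact hpz0 p h
        · exact hTp p h) 1 le_rfl (fun p hp hd => by
          have hpp : p.Prime := by
            rcases mem_union.1 hp with h | h
            · exact hpz0 p h
            · exact hTp p h
          exact hpp.one_lt.ne' (Nat.dvd_one.1 hd)) 0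
      have hTz : ∀ p ∈ T, ¬ p ≤ z0 := fun p hp => by have := (hPp p (hT hp)).2.1; omega
      have c1 : ∀ p ∈ pz z0, (((range p).filter (fun a => if p ≤ z0 then ¬ Q p a else Q p a)).card : ℝ) = p - nuB Q p := by
        intro p hp
        simp only [if_pos (mem_pz.1 hp).1]
        have h4 := card_filter_add_card_filter_not (s := range p) (fun a => Q p a)
        rw [card_range] at h4
        have h5 : nuB Q p = ((range p).filter (fun a => Q p a)).card := rfl
        have h6 : nuB Q p + ((range p).filter (fun a => ¬ Q p a)).card = p := by rw [h5]; exact h4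
        have h7 : (nuB Q p : ℝ) + (((range p).filter (fun a => ¬ Q p a)).card : ℝ) = p := by exact_mod_cast h6
        linarith
      have c2 : ∀ p ∈ T, (((range p).filter (fun a => if p ≤ z0 then ¬ Q p a else Q p a)).card : ℝ) = nuB Q p := by
        intro p hp
        simp only [if_neg (hTz p hp)]
        rfl
      rw [prod_union hdT, prod_union hdT] at h3
      have e1 : ∏ p ∈ pz z0, ((((range p).filter (fun a => if p ≤ z0 then ¬ Q p a else Q p a)).card : ℝ) / p) = A0 := by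
        apply prod_congr rfl
        intro p hp
        rw [c1 p hp]
        have hp0 : (p : ℝ) ≠ 0 := by exact_mod_cast (hpz0 p hp).ne_zero
        field_simp
      have e2 : ∏ p ∈ T, ((((range p).filter (fun a => if p ≤ z0 then ¬ Q p a else Q p a)).card : ℝ) / p) = ∏ p ∈ T, ((nuB Q p : ℝ) / p) := by
        apply prod_congr rfl
        intro p hp
        rw [c2 p hp]
      have e3 : ∏ p ∈ pz z0, (((range p).filter (fun a => if p ≤ z0 then ¬ Q p a else Q p a)).card : ℝ) ≤ K0 := by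
        rw [hK0]
        push_cast
        apply prod_le_prod (fun _ _ => Nat.cast_nonneg _)
        intro p hp
        rw [c1 p hp]
        have : (0 : ℝ) ≤ nuB Q p := Nat.cast_nonneg _
        linarith
      have e4 : ∏ p ∈ T, (((range p).filter (fun a => if p ≤ z0 then ¬ Q p a else Q p a)).card : ℝ) ≤ D := by
        have h5 : ∏ p ∈ T, (((range p).filter (fun a => if p ≤ z0 then ¬ Q p a else Q p a)).card : ℝ) ≤ ∏ p ∈ T, (p : ℝ) := by
          apply prod_le_prod (fun _ _ => Nat.cast_nonneg _)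
          intro p hp
          rw [c2 p hp]
          exact_mod_cast nuB_le Q p
        refine h5.trans ?_
        have h6 : ((∏ p ∈ T, p : ℕ) : ℝ) ≤ D := by exact_mod_cast hTD
        push_cast at h6
        exact h6
      rw [e1, e2, Nat.cast_one, div_one] at h3
      have e5 : ∑ m ∈ ((Icc 1 X).filter (fun n => ∀ p ∈ pz z0, ¬ Q p n)).filter (fun m => ∀ p ∈ T, Q p m), (1 : ℝ) =
          (((Icc 1 X).filter (fun n => n ≡ 0 [MOD 1] ∧ ∀ p ∈ pz z0 ∪ T, if p ≤ z0 then ¬ Q p (n % p) else Q p (n % p))).card : ℝ) := by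
        rw [sum_const, nsmul_eq_mul, mul_one, filter_filter]
        congr 2
        apply filter_congr
        intro n _
        constructor
        · rintro ⟨h5, h6⟩
          refine ⟨Nat.modEq_one, fun p hp => ?_⟩
          rcases mem_union.1 hp with h | h
          · rw [if_pos (mem_pz.1 h).1]
            exact fun h7 => h5 p h ((hQ.per p n).2 h7)
          · rw [if_neg (hTz p h)]
            exact (hQ.per p n).1 (h6 p h)
        · rintro ⟨_, h5⟩
          constructor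
          · intro p hp h7
            have h8 := h5 p (mem_union_left _ hp)
            rw [if_pos (mem_pz.1 hp).1] at h8
            exact h8 ((hQ.per p n).1 h7)
          · intro p hp
            have h8 := h5 p (mem_union_right _ hp)
            rw [if_neg (hTz p hp)] at h8
            exact (hQ.per p n).2 h8
      rw [e5, mul_assoc]
      refine h3.trans ?_
      exact mul_le_mul e3 e4 (prod_nonneg fun _ _ => Nat.cast_nonneg _) (Nat.cast_nonneg _))
  have f1 : ∑ m ∈ ((Icc 1 X).filter (fun n => ∀ p ∈ pz z0, ¬ Q p n)).filter (fun m => ∀ p ∈ P, ¬ Q p m), (1 : ℝ) =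
      ((((Icc 1 X).filter (fun n : ℕ => ∀ p ∈ pz y, ¬ Q p n)).card : ℕ) : ℝ) := by
    rw [sum_const, nsmul_eq_mul, mul_one, filter_filter]
    congr 2
    apply filter_congr
    intro n _
    rw [hpzy]
    constructor
    · rintro ⟨h5, h6⟩ p hp
      rcases mem_union.1 hp with h | h
      · exact h5 p h
      · exact h6 p h
    · intro h
      exact ⟨fun p hp => h p (mem_union_left _ hp), fun p hp => h p (mem_union_right _ hp)⟩
  have f2 : (X : ℝ) * A0 * ∏ p ∈ P, (1 - (nuB Q p : ℝ) / p) = X * ∏ p ∈ pz y, (1 - (nuB Q p : ℝ) / p) := by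
    rw [hpzy, prod_union hdisj, mul_assoc]
  rw [f1, f2] at key
  refine key.trans ?_
  have hM0 : 0 ≤ (X : ℝ) * ∏ p ∈ pz y, (1 - (nuB Q p : ℝ) / p) := mul_nonneg (Nat.cast_nonneg _) (prod_nonneg fun p hp => hfac p (mem_pz.1 hp).2)
  apply add_le_add (mul_le_mul_of_nonneg_right hbε hM0)
  -- the error
  rw [sum_const, nsmul_eq_mul]
  have hcard : (P.powerset.filter (fun T : Finset ℕ => ∏ p ∈ T, p ≤ D)).card ≤ D := by
    calc _ ≤ (Icc 1 D).card := by
          apply card_le_card_of_injOn (fun T : Finset ℕ => ∏ p ∈ T, p)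
          · intro T hT
            rw [mem_coe, mem_filter, mem_powerset] at hT
            have h5 : 1 ≤ ∏ p ∈ T, p := Nat.pos_of_ne_zero (prod_ne_zero_iff.2 fun p hp => (hPp p (hT.1 hp)).1.ne_zero)
            exact mem_coe.2 (mem_Icc.2 ⟨h5, hT.2⟩)
          · intro T hT T' hT' h
            rw [mem_coe, mem_filter, mem_powerset] at hT hT'
            exact prod_inj T T' (fun p hp => (hPp p (hT.1 hp)).1) (fun p hp => (hPp p (hT'.1 hp)).1) h
      _ = D := by rw [Nat.card_Icc]; omega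
  have hDy : D ≤ y ^ (2 * (C0 * b)) := by
    calc D ≤ (y ^ 2) ^ (C0 * b) := Nat.pow_le_pow_left hYy _
      _ = _ := by rw [← pow_mul]
  have hJy : J + 2 ≤ 2 * y := JJ_small y (by omega)
  have htot : (J + 2) * (D * (K0 * D)) ≤ y ^ (8 * (C0 * b)) := by
    calc (J + 2) * (D * (K0 * D)) ≤ (2 * y) * (y ^ (2 * (C0 * b)) * (K0 * y ^ (2 * (C0 * b)))) := by gcongr
      _ = (2 * K0) * (y * (y ^ (2 * (C0 * b)) * y ^ (2 * (C0 * b)))) := by ring
      _ ≤ y * (y * (y ^ (2 * (C0 * b)) * y ^ (2 * (C0 * b)))) := Nat.mul_le_mul_right _ hyK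
      _ = y ^ (4 * (C0 * b) + 2) := by
          rw [← pow_add, show 4 * (C0 * b) + 2 = (2 * (C0 * b) + 2 * (C0 * b)) + 2 by ring, pow_add]
          ring
      _ ≤ y ^ (8 * (C0 * b)) := Nat.pow_le_pow_right (by omega) (by omega)
  have hfin : ((J : ℝ) + 2) * (((P.powerset.filter (fun T : Finset ℕ => ∏ p ∈ T, p ≤ D)).card : ℝ) * ((K0 : ℝ) * D)) ≤ ((y ^ (8 * (C0 * b)) : ℕ) : ℝ) := by
    have h5 : (J + 2) * ((P.powerset.filter (fun T : Finset ℕ => ∏ p ∈ T, p ≤ D)).card * (K0 * D)) ≤ y ^ (8 * (C0 * b)) := by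
      refine le_trans ?_ htot
      gcongr
    exact_mod_cast h5
  refine hfin.trans ?_
  apply Real.le_sqrt_of_sq_le
  have h5 : (y ^ (8 * (C0 * b))) ^ 2 ≤ x := by
    rw [← pow_mul]
    refine le_trans (le_of_eq ?_) hyx
    congr 1
    ring
  exact_mod_cast h5

end Pool.Agent.H373R2.T7
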