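import Mathlib
import Pool.Agent.H43.G.R_seed8.H373R2.T7.Minor

/-! Vaughan's method for the Moebius function. -/

namespace Pool.Agent.H373R2.T7
open Finset
open Pool.Agent.Helper112 (betaV)
open Pool.Agent.Helper112.TI (mu1 mu1_apply af_sub)
open Pool.Agent.Helper112.TII (betaV_abs betaV_zero)
open Pool.Agent.H373R2.T3 (hyp)
open Pool.Agent.H807R2.Dav

/-- the Moebius function beyond `U` -/
noncomputable def muB (U l : ℕ) : ℝ := if U < l then ((ArithmeticFunction.moebius l : ℤ) : ℝ) else 0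

open ArithmeticFunction in
lemma muII_eq (U n : ℕ) : ∑ i ∈ n.divisorsAntidiagonal, betaV U i.1 * muB U i.2 =
    ((((moebius : ArithmeticFunction ℤ) : ArithmeticFunction ℝ) - mu1 U) *
      ((ArithmeticFunction.zeta : ArithmeticFunction ℕ) : ArithmeticFunction ℝ) *
      (((moebius : ArithmeticFunction ℤ) : ArithmeticFunction ℝ) - mu1 U)) n := by
  rw [mul_apply]
  apply sum_congr rfl
  rintro ⟨b, c⟩ _
  rw [mul_comm (_ - mu1 U) (_ : ArithmeticFunction ℝ), coe_zeta_mul_apply]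
  congr 1
  · unfold betaV
    rw [sum_filter]
    apply sum_congr rfl
    intro e _
    rw [af_sub, mu1_apply, intCoe_apply]
    by_cases h : U < e
    · rw [if_pos h, if_neg (by omega)]; ring
    · rw [if_neg h, if_pos (by omega)]; ring
  · simp only
    rw [af_sub, mu1_apply, intCoe_apply]
    unfold muB
    by_cases h : U < c
    · rw [if_pos h, if_neg (by omega)]; ring
    · rw [if_neg h, if_pos (by omega)]; ring

open ArithmeticFunction in
lemma vaughan_mu_id (U n : ℕ) (hn : U < n) : ((moebius n : ℤ) : ℝ) =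
    ∑ i ∈ n.divisorsAntidiagonal, betaV U i.1 * muB U i.2 -
      (((ArithmeticFunction.zeta : ArithmeticFunction ℕ) : ArithmeticFunction ℝ) * (mu1 U * mu1 U)) n := by
  have h1 : ((moebius : ArithmeticFunction ℤ) : ArithmeticFunction ℝ) *
      ((ArithmeticFunction.zeta : ArithmeticFunction ℕ) : ArithmeticFunction ℝ) = 1 :=
    coe_moebius_mul_coe_zeta
  have h3 : (((moebius : ArithmeticFunction ℤ) : ArithmeticFunction ℝ)) = ((((moebius : ArithmeticFunction ℤ) : ArithmeticFunction ℝ) - mu1 U) *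
      ((ArithmeticFunction.zeta : ArithmeticFunction ℕ) : ArithmeticFunction ℝ) *
      (((moebius : ArithmeticFunction ℤ) : ArithmeticFunction ℝ) - mu1 U)) + (mu1 U + mu1 U) -
      ((ArithmeticFunction.zeta : ArithmeticFunction ℕ) : ArithmeticFunction ℝ) * (mu1 U * mu1 U) := by
    linear_combination (-(((moebius : ArithmeticFunction ℤ) : ArithmeticFunction ℝ)) + 2 * mu1 U) * h1
  have h4 := congrArg (fun g : ArithmeticFunction ℝ => g n) h3
  rw [af_sub, ArithmeticFunction.add_apply, ArithmeticFunction.add_apply, ← muII_eq, mu1_apply, if_neg (by omega), intCoe_apply] at h4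
  rw [h4]; ring

lemma mu_sum (U N N' : ℕ) (hUN : U ≤ N) (E : ℕ → ℂ) :
    ∑ n ∈ Ioc N N', (((ArithmeticFunction.moebius n : ℤ) : ℝ) : ℂ) * E n =
      ∑ m ∈ Icc 1 N', ∑ l ∈ Ioc (N / m) (N' / m), ((betaV U m : ℝ) : ℂ) * ((muB U l : ℝ) : ℂ) * E (m * l) -
      ∑ m ∈ Icc 1 N', (((mu1 U * mu1 U) m : ℝ) : ℂ) * ∑ l ∈ Ioc (N / m) (N' / m), E (m * l) := by
  have h1 : ∀ n ∈ Ioc N N', (((ArithmeticFunction.moebius n : ℤ) : ℝ) : ℂ) * E n =
      (∑ i ∈ n.divisorsAntidiagonal, ((betaV U i.1 : ℝ) : ℂ) * ((muB U i.2 : ℝ) : ℂ) * E (i.1 * i.2)) -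
      (∑ i ∈ n.divisorsAntidiagonal, (((mu1 U * mu1 U) i.1 : ℝ) : ℂ) * E (i.1 * i.2)) := by
    intro n hn
    rw [mem_Ioc] at hn
    have hE : ∀ i ∈ n.divisorsAntidiagonal, E (i.1 * i.2) = E n := by
      intro i hi
      rw [(Nat.mem_divisorsAntidiagonal.1 hi).1]
    have e1 : (∑ i ∈ n.divisorsAntidiagonal, ((betaV U i.1 : ℝ) : ℂ) * ((muB U i.2 : ℝ) : ℂ) * E (i.1 * i.2)) =
        ((∑ i ∈ n.divisorsAntidiagonal, betaV U i.1 * muB U i.2 : ℝ) : ℂ) * E n := by
      push_cast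
      rw [sum_mul]
      apply sum_congr rfl; intro i hi
      rw [hE i hi]
    have e3 : (∑ i ∈ n.divisorsAntidiagonal, (((mu1 U * mu1 U) i.1 : ℝ) : ℂ) * E (i.1 * i.2)) =
        (((((ArithmeticFunction.zeta : ArithmeticFunction ℕ) : ArithmeticFunction ℝ) * (mu1 U * mu1 U)) n : ℝ) : ℂ) * E n := by
      rw [mul_comm _ (mu1 U * mu1 U), ArithmeticFunction.mul_apply]
      push_cast
      rw [sum_mul]
      apply sum_congr rfl; intro i hi
      rw [hE i hi]
      have h2 : i.2 ≠ 0 := by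
        have := Nat.mem_divisorsAntidiagonal.1 hi
        rintro h
        rw [h] at this
        simp at this
        omega
      have h3 : (((ArithmeticFunction.zeta : ArithmeticFunction ℕ) : ArithmeticFunction ℝ) i.2) = 1 := by
        rw [ArithmeticFunction.natCoe_apply, ArithmeticFunction.zeta_apply, if_neg h2]; norm_num
      rw [h3]; push_cast; ring
    rw [e1, e3, vaughan_mu_id U n (by omega)]
    push_cast; ring
  rw [sum_congr rfl h1, sum_sub_distrib,
    hyp N N' (fun a b => ((betaV U a : ℝ) : ℂ) * ((muB U b : ℝ) : ℂ) * E (a * b)),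
    hyp N N' (fun a b => (((mu1 U * mu1 U) a : ℝ) : ℂ) * E (a * b))]
  simp_rw [mul_sum]

lemma mu1_abs (U n : ℕ) : |mu1 U n| ≤ 1 := by
  rw [mu1_apply]
  split_ifs
  · exact_mod_cast ArithmeticFunction.abs_moebius_le_one
  · simp

lemma muB_abs (U n : ℕ) : |muB U n| ≤ 1 := by
  unfold muB
  split_ifs
  · exact_mod_cast ArithmeticFunction.abs_moebius_le_one
  · simp

lemma conv_mu_abs (U m : ℕ) : |(mu1 U * mu1 U) m| ≤ m.divisors.card := by
  rw [ArithmeticFunction.mul_apply]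
  refine (abs_sum_le_sum_abs _ _).trans ?_
  have : ∀ i ∈ m.divisorsAntidiagonal, |mu1 U i.1 * mu1 U i.2| ≤ 1 := by
    intro i _
    rw [abs_mul]
    exact mul_le_one₀ (mu1_abs _ _) (abs_nonneg _) (mu1_abs _ _)
  refine (sum_le_sum this).trans ?_
  have h2 := Nat.sum_divisorsAntidiagonal (n := m) (fun _ _ => (1 : ℝ))
  rw [h2, sum_const, nsmul_eq_mul, mul_one]

lemma conv_mu_zero (U m : ℕ) (hm : U * U < m) : (mu1 U * mu1 U) m = 0 := by
  rw [ArithmeticFunction.mul_apply]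
  apply sum_eq_zero
  intro i hi
  have h1 := (Nat.mem_divisorsAntidiagonal.1 hi).1
  rw [mu1_apply, mu1_apply]
  by_cases h2 : i.1 ≤ U
  · by_cases h3 : i.2 ≤ U
    · exfalso
      have : i.1 * i.2 ≤ U * U := Nat.mul_le_mul h2 h3
      omega
    · rw [if_neg h3, mul_zero]
  · rw [if_neg h2, zero_mul]

theorem vaughan_mu (E : ℕ → ℂ) (N N' U : ℕ) (hN : 1 ≤ N) (hNN' : N ≤ N') (hN' : N' ≤ 2 * N) (hU : 1 ≤ U) (hUN : U * U ≤ N)
    (Y : ℕ → ℝ) (R : ℝ) (hR0 : 0 ≤ R) (hY0 : ∀ m, 0 ≤ Y m)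
    (hI : ∀ m ∈ Icc 1 (U * U), ∀ b, b ≤ N' / m → ‖∑ l ∈ Ioc (N / m) b, E (m * l)‖ ≤ Y m)
    (hII : ∀ (a b : ℕ → ℂ) (A₂ B₂ : ℝ), 0 ≤ A₂ → 0 ≤ B₂ → ∀ M L : ℕ, 1 ≤ M → 1 ≤ L → U < 2 * M → U < 2 * L → M * L ≤ N' →
      ∑ m ∈ Ioc M (2 * M), ‖a m‖ ^ 2 ≤ A₂ * M → ∑ l ∈ Ioc L (2 * L), ‖b l‖ ^ 2 ≤ B₂ * L →
      ‖∑ m ∈ Ioc M (2 * M), ∑ l ∈ Ioc L (2 * L), a m * b l * (if N < m * l ∧ m * l ≤ N' then E (m * l) else 0)‖ ^ 2 ≤
        A₂ * B₂ * R ^ 2) :
    ‖∑ n ∈ Ioc N N', (((ArithmeticFunction.moebius n : ℤ) : ℝ) : ℂ) * E n‖ ≤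
      8 * (1 + Real.log (4 * N)) ^ 4 * R + ∑ m ∈ Icc 1 (U * U), (m.divisors.card : ℝ) * Y m := by
  have hN0 : (1 : ℝ) ≤ N := by exact_mod_cast hN
  set Lg : ℝ := 1 + Real.log (4 * N) with hLg
  have hlog4N : 0 ≤ Real.log (4 * (N : ℝ)) := Real.log_nonneg (by linarith)
  have hLg1 : 1 ≤ Lg := by linarith
  have hlogle : ∀ t : ℝ, 1 ≤ t → t ≤ 4 * N → Real.log t ≤ Lg := by
    intro t ht ht2
    have := Real.log_le_log (by linarith) ht2
    linarith
  have hUUU : U ≤ U * U := Nat.le_mul_of_pos_left _ (by omega)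
  rw [mu_sum U N N' (by omega) E]
  have hS1 : ‖∑ m ∈ Icc 1 N', ∑ l ∈ Ioc (N / m) (N' / m), ((betaV U m : ℝ) : ℂ) * ((muB U l : ℝ) : ℂ) * E (m * l)‖ ≤
      (Nat.log 2 N' + 1 : ℝ) ^ 2 * (2 * Lg ^ 2 * R) := by
    apply bil_gen E N N' U hU (fun m => ((betaV U m : ℝ) : ℂ))
      (fun l => ((muB U l : ℝ) : ℂ)) (2 * Lg ^ 2 * R) (by positivity)
    · intro m hm
      rw [betaV_zero U m hm]; norm_num
    · intro l hl
      unfold muB
      rw [if_neg (by omega)]; norm_num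
    intro M L hM hL hM2 hL2 hML
    have hMN : M ≤ 2 * N := by
      have : M ≤ M * L := Nat.le_mul_of_pos_right _ (by omega)
      omega
    have hM0 : (0 : ℝ) < M := by exact_mod_cast hM
    have hL0 : (0 : ℝ) < L := by exact_mod_cast hL
    have key := hII (fun m => ((betaV U m : ℝ) : ℂ))
      (fun l => ((muB U l : ℝ) : ℂ)) (2 * Lg ^ 4) 1 (by positivity) (by positivity)
      M L hM hL hM2 hL2 hML (by
        calc ∑ m ∈ Ioc M (2 * M), ‖((betaV U m : ℝ) : ℂ)‖ ^ 2 ≤ ∑ m ∈ Ioc M (2 * M), 2 * M * ((m.divisors.card : ℝ) ^ 2 / m) := by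
              apply sum_le_sum; intro m hm
              rw [mem_Ioc] at hm
              have hm0 : (0 : ℝ) < m := by exact_mod_cast (by omega : 0 < m)
              rw [Complex.norm_real, Real.norm_eq_abs]
              have h2 : |betaV U m| ^ 2 ≤ (m.divisors.card : ℝ) ^ 2 := pow_le_pow_left₀ (abs_nonneg _) (betaV_abs U m) 2
              refine h2.trans ?_
              rw [mul_div_assoc', le_div_iff₀ hm0]
              have h3 : (m : ℝ) ≤ 2 * M := by exact_mod_cast hm.2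
              nlinarith [sq_nonneg (m.divisors.card : ℝ)]
          _ = 2 * M * ∑ m ∈ Ioc M (2 * M), ((m.divisors.card : ℝ) ^ 2 / m) := by rw [mul_sum]
          _ ≤ 2 * M * ∑ m ∈ Icc 1 (2 * M), ((m.divisors.card : ℝ) ^ 2 / m) := by
              apply mul_le_mul_of_nonneg_left _ (by positivity)
              apply sum_le_sum_of_subset_of_nonneg
              · intro m hm; rw [mem_Ioc] at hm; rw [mem_Icc]; omega
              · intro m _ _; positivity
          _ ≤ 2 * M * (1 + Real.log ((2 * M : ℕ) : ℝ)) ^ 4 := by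
              apply mul_le_mul_of_nonneg_left _ (by positivity)
              exact Pool.Agent.H316R2.tau_sq_sum_le (2 * M)
          _ ≤ 2 * M * Lg ^ 4 := by
              apply mul_le_mul_of_nonneg_left _ (by positivity)
              have h2 : (1 : ℝ) ≤ ((2 * M : ℕ) : ℝ) := by exact_mod_cast (by omega : 1 ≤ 2 * M)
              apply pow_le_pow_left₀
              · have := Real.log_nonneg h2; linarith
              · have h3 : ((2 * M : ℕ) : ℝ) ≤ 4 * N := by exact_mod_cast (by omega : 2 * M ≤ 4 * N)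
                have := Real.log_le_log (by linarith) h3
                linarith
          _ = _ := by ring) (by
        calc ∑ l ∈ Ioc L (2 * L), ‖((muB U l : ℝ) : ℂ)‖ ^ 2 ≤
              ∑ _l ∈ Ioc L (2 * L), (1 : ℝ) := by
              apply sum_le_sum; intro l hl
              rw [Complex.norm_real, Real.norm_eq_abs]
              exact pow_le_one₀ (abs_nonneg _) (muB_abs _ _)
          _ = 1 * L := by
              rw [sum_const, Nat.card_Ioc, nsmul_eq_mul, show 2 * L - L = L by omega]; ring)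
    have h3 : (2 * Lg ^ 4) * 1 * R ^ 2 ≤ (2 * Lg ^ 2 * R) ^ 2 := by
      have : 0 ≤ Lg ^ 4 * R ^ 2 := by positivity
      nlinarith
    exact le_of_sq_le_sq (key.trans h3) (by positivity)
  have hS3 : ‖∑ m ∈ Icc 1 N', (((mu1 U * mu1 U) m : ℝ) : ℂ) * ∑ l ∈ Ioc (N / m) (N' / m), E (m * l)‖ ≤
      ∑ m ∈ Icc 1 (U * U), (m.divisors.card : ℝ) * Y m := by
    have h2 : ∀ m ∈ Icc 1 N', ‖(((mu1 U * mu1 U) m : ℝ) : ℂ) * ∑ l ∈ Ioc (N / m) (N' / m), E (m * l)‖ ≤
        if m ≤ U * U then (m.divisors.card : ℝ) * Y m else 0 := by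
      intro m hm
      rw [mem_Icc] at hm
      split_ifs with hmU
      · rw [norm_mul, Complex.norm_real, Real.norm_eq_abs]
        exact mul_le_mul (conv_mu_abs U m) (hI m (mem_Icc.2 ⟨hm.1, hmU⟩) _ le_rfl) (norm_nonneg _) (by positivity)
      · rw [conv_mu_zero U m (by omega)]; simp
    refine (norm_sum_le _ _).trans ((sum_le_sum h2).trans ?_)
    rw [← sum_filter]
    apply sum_le_sum_of_subset_of_nonneg
    · intro m hm; rw [mem_filter, mem_Icc] at hm; rw [mem_Icc]; omega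
    · intro m _ _
      have := hY0 m
      positivity
  have hlog2 : (Nat.log 2 N' + 1 : ℝ) ≤ 2 * Lg := by
    have hN'1 : 1 ≤ N' := by omega
    have h2 : (Nat.log 2 N' : ℝ) * Real.log 2 ≤ Real.log N' := by
      have h3 : (2 : ℝ) ^ Nat.log 2 N' ≤ N' := by exact_mod_cast Nat.pow_log_le_self 2 (by omega)
      have h4 := Real.log_le_log (by positivity) h3
      rwa [Real.log_pow] at h4
    have h3 : Real.log N' ≤ Real.log (4 * N) := Real.log_le_log (by exact_mod_cast hN'1) (by exact_mod_cast (by omega : N' ≤ 4 * N))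
    have h4 := Real.log_two_gt_d9
    have h5 : (0 : ℝ) ≤ Nat.log 2 N' := Nat.cast_nonneg _
    nlinarith
  have hlog20 : (0 : ℝ) ≤ (Nat.log 2 N' + 1 : ℝ) := by positivity
  refine (norm_sub_le _ _).trans ?_
  have h7 : (Nat.log 2 N' + 1 : ℝ) ^ 2 * (2 * Lg ^ 2 * R) ≤ 8 * Lg ^ 4 * R := by
    calc (Nat.log 2 N' + 1 : ℝ) ^ 2 * (2 * Lg ^ 2 * R) ≤ (2 * Lg) ^ 2 * (2 * Lg ^ 2 * R) := by
          apply mul_le_mul_of_nonneg_right (pow_le_pow_left₀ hlog20 hlog2 2) (by positivity)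
      _ = _ := by ring
  linarith

/-- type I sums weighted by the divisor function -/
theorem typeI_tau {q : ℕ} (hq : 1 ≤ q) {a : ℤ} (hcop : IsCoprime a (q : ℤ)) {α : ℝ}
    (hα : |α - a / q| ≤ 1 / (q : ℝ) ^ 2) (N D : ℕ) (hN : 1 ≤ N) (hD : 1 ≤ D) :
    ∑ d ∈ Icc 1 D, (d.divisors.card : ℝ) * KK (2 * N / d) (d * α) ≤
      Real.sqrt (6 * N * (1 + Real.log D) ^ 4) *
        Real.sqrt (600 * (Nat.log 2 D + 1 : ℝ) * ((N : ℝ) / q + D + q) * (1 + Real.log q)) := by
  have hN0 : (0 : ℝ) < N := by exact_mod_cast hN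
  have hKK0 : ∀ d : ℕ, 0 ≤ KK (2 * N / d) (d * α) := fun d => KK_nonneg (by positivity) _
  have h1 := sum_mul_sq_le_sq_mul_sq (Icc 1 D) (fun d => (d.divisors.card : ℝ) * Real.sqrt (KK (2 * N / d) (d * α)))
    (fun d => Real.sqrt (KK (2 * N / d) (d * α)))
  have e1 : ∑ d ∈ Icc 1 D, (d.divisors.card : ℝ) * Real.sqrt (KK (2 * N / d) (d * α)) * Real.sqrt (KK (2 * N / d) (d * α)) =
      ∑ d ∈ Icc 1 D, (d.divisors.card : ℝ) * KK (2 * N / d) (d * α) := by
    apply sum_congr rfl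
    intro d _
    rw [mul_assoc, Real.mul_self_sqrt (hKK0 d)]
  have e2 : ∑ d ∈ Icc 1 D, Real.sqrt (KK (2 * N / d) (d * α)) ^ 2 = ∑ d ∈ Icc 1 D, KK (2 * N / d) (d * α) := by
    apply sum_congr rfl
    intro d _
    rw [Real.sq_sqrt (hKK0 d)]
  have e3 : ∑ d ∈ Icc 1 D, ((d.divisors.card : ℝ) * Real.sqrt (KK (2 * N / d) (d * α))) ^ 2 ≤ 6 * N * (1 + Real.log D) ^ 4 := by
    calc ∑ d ∈ Icc 1 D, ((d.divisors.card : ℝ) * Real.sqrt (KK (2 * N / d) (d * α))) ^ 2 ≤
          ∑ d ∈ Icc 1 D, 6 * N * ((d.divisors.card : ℝ) ^ 2 / d) := by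
          apply sum_le_sum
          intro d hd
          rw [mem_Icc] at hd
          have hd0 : (0 : ℝ) < d := by exact_mod_cast hd.1
          rw [mul_pow, Real.sq_sqrt (hKK0 d)]
          have h2 := KK_le (M := 2 * N / d) (by positivity) (d * α)
          calc (d.divisors.card : ℝ) ^ 2 * KK (2 * N / d) (d * α) ≤ (d.divisors.card : ℝ) ^ 2 * (3 * (2 * N / d)) := by
                apply mul_le_mul_of_nonneg_left _ (by positivity)
                linarith
            _ = _ := by field_simp; ring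
      _ = 6 * N * ∑ d ∈ Icc 1 D, ((d.divisors.card : ℝ) ^ 2 / d) := by rw [mul_sum]
      _ ≤ _ := by
          apply mul_le_mul_of_nonneg_left _ (by positivity)
          exact Pool.Agent.H316R2.tau_sq_sum_le D
  rw [e1, e2] at h1
  have h2 := h1.trans (mul_le_mul e3 (typeI_lin hq hcop hα N D hN hD) (sum_nonneg fun d _ => hKK0 d) (by positivity))
  have h3 := Real.sqrt_le_sqrt h2
  rw [Real.sqrt_sq (sum_nonneg fun d _ => mul_nonneg (by positivity) (hKK0 d)), Real.sqrt_mul (by positivity)] at h3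
  exact h3

end Pool.Agent.H373R2.T7
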