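import Mathlib
import Pool.Agent.H43.G.R_seed8.H373R2.T7.TupleMain

/-! A lower bound for truncated singular series. -/

namespace Pool.Agent.H373R2.T7
open Finset

lemma exp_low {y : ℝ} (h0 : 0 ≤ y) (h1 : y ≤ 1 / 3) : Real.exp (-(y + y ^ 2)) ≤ 1 - y := by
  have h2 := Real.quadratic_le_exp_of_nonneg (show 0 ≤ y + y ^ 2 by positivity)
  rw [Real.exp_neg, inv_le_comm₀ (Real.exp_pos _) (by linarith)]
  refine le_trans ?_ h2
  rw [inv_le_iff_one_le_mul₀ (by linarith)]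
  have h3 : 0 ≤ y ^ 2 := by positivity
  have h4 : 0 ≤ y ^ 3 := by positivity
  nlinarith [mul_nonneg h3 (show 0 ≤ 1 / 3 - y by linarith), mul_nonneg h4 (show 0 ≤ 1 / 3 - y by linarith), mul_nonneg (mul_nonneg h3 h3) (show 0 ≤ 1 / 3 - y by linarith)]

lemma sum_inv_sq (z : ℕ) : ∑ n ∈ Icc 1 z, 1 / (n : ℝ) ^ 2 ≤ 2 := by
  have h : ∀ z : ℕ, 1 ≤ z → ∑ n ∈ Icc 1 z, 1 / (n : ℝ) ^ 2 ≤ 2 - 1 / (z : ℝ) := by
    intro z hz
    induction z, hz using Nat.le_induction with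
    | base => norm_num
    | succ z hz ih =>
      rw [sum_Icc_succ_top (by omega)]
      have hz0 : (0 : ℝ) < z := by exact_mod_cast hz
      have h2 : 1 / (((z + 1 : ℕ) : ℝ)) ^ 2 ≤ 1 / z - 1 / ((z + 1 : ℕ) : ℝ) := by
        push_cast
        rw [div_sub_div _ _ hz0.ne' (by positivity), div_le_div_iff₀ (by positivity) (by positivity)]
        nlinarith
      linarith
  rcases Nat.eq_zero_or_pos z with h0 | h0
  · rw [h0]; simp
  · have := h z h0
    have h1 : 0 ≤ 1 / (z : ℝ) := by positivity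
    linarith

/-- lower bound for products of local factors -/
theorem local_low (m : ℕ) (hm : 1 ≤ m) (ν : ℕ → ℕ) (z : ℕ) (h1 : ∀ p ∈ pz z, ν p ≤ m) (h2 : ∀ p ∈ pz z, ν p + 1 ≤ p) :
    (1 / (3 * m : ℝ)) ^ (3 * m) * Real.exp (-(2 * (m : ℝ) ^ 2)) ≤ ∏ p ∈ pz z, (1 - (ν p : ℝ) / p) / (1 - 1 / (p : ℝ)) ^ m := by
  have hm0 : (1 : ℝ) ≤ m := by exact_mod_cast hm
  have hfac : ∀ p ∈ pz z, (if p < 3 * m then 1 / (3 * m : ℝ) else Real.exp (-((m : ℝ) ^ 2 * (1 / (p : ℝ) ^ 2)))) ≤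
      (1 - (ν p : ℝ) / p) / (1 - 1 / (p : ℝ)) ^ m := by
    intro p hp
    have hp2 : (2 : ℝ) ≤ p := by exact_mod_cast (mem_pz.1 hp).2.two_le
    have hp0 : (0 : ℝ) < p := by linarith
    have hq : 0 < 1 - 1 / (p : ℝ) := by rw [sub_pos, div_lt_one hp0]; linarith
    have hq1 : 1 - 1 / (p : ℝ) ≤ 1 := by have : 0 ≤ 1 / (p : ℝ) := by positivity
                                         linarith
    rw [le_div_iff₀ (by positivity)]
    split_ifs with h
    · have h3 : (1 - 1 / (p : ℝ)) ^ m ≤ 1 := pow_le_one₀ hq.le hq1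
      have h4 : 1 / (p : ℝ) ≤ 1 - (ν p : ℝ) / p := by
        have h5 : ((ν p : ℝ) + 1) ≤ p := by exact_mod_cast h2 p hp
        have h6 : 1 / (p : ℝ) + (ν p : ℝ) / p = (ν p + 1) / p := by ring
        have h7 : (ν p + 1) / (p : ℝ) ≤ 1 := by rw [div_le_one hp0]; exact h5
        linarith
      have h5 : 1 / (3 * m : ℝ) ≤ 1 / p := by
        apply one_div_le_one_div_of_le hp0
        have : (p : ℝ) < 3 * m := by exact_mod_cast h
        linarith
      calc 1 / (3 * m : ℝ) * (1 - 1 / (p : ℝ)) ^ m ≤ 1 / (3 * m : ℝ) * 1 := mul_le_mul_of_nonneg_left h3 (by positivity)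
        _ ≤ _ := by rw [mul_one]; linarith
    · have h3 : (3 * m : ℝ) ≤ p := by exact_mod_cast (not_lt.1 h)
      have hy : (m : ℝ) / p ≤ 1 / 3 := by rw [div_le_iff₀ hp0]; linarith
      have hy0 : 0 ≤ (m : ℝ) / p := by positivity
      have h4 := exp_low hy0 hy
      have h5 : (1 - 1 / (p : ℝ)) ^ m ≤ Real.exp (-((m : ℝ) / p)) := by
        have h6 : 1 - 1 / (p : ℝ) ≤ Real.exp (-(1 / p)) := by
          have := Real.add_one_le_exp (-(1 / (p : ℝ)))
          linarith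
        calc (1 - 1 / (p : ℝ)) ^ m ≤ (Real.exp (-(1 / p))) ^ m := pow_le_pow_left₀ hq.le h6 m
          _ = Real.exp (-((m : ℝ) / p)) := by rw [← Real.exp_nat_mul]; congr 1; ring
      have h6 : 1 - (m : ℝ) / p ≤ 1 - (ν p : ℝ) / p := by
        have h7 : (ν p : ℝ) ≤ m := by exact_mod_cast h1 p hp
        have := div_le_div_of_nonneg_right h7 hp0.le
        linarith
      calc Real.exp (-((m : ℝ) ^ 2 * (1 / (p : ℝ) ^ 2))) * (1 - 1 / (p : ℝ)) ^ m
          ≤ Real.exp (-((m : ℝ) ^ 2 * (1 / (p : ℝ) ^ 2))) * Real.exp (-((m : ℝ) / p)) := mul_le_mul_of_nonneg_left h5 (Real.exp_pos _).le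
        _ = Real.exp (-((m : ℝ) / p + ((m : ℝ) / p) ^ 2)) := by rw [← Real.exp_add]; congr 1; ring
        _ ≤ 1 - (m : ℝ) / p := h4
        _ ≤ _ := h6
  refine le_trans ?_ (prod_le_prod (fun p _ => by split_ifs <;> positivity) hfac)
  rw [prod_ite]
  have hA : (1 / (3 * m : ℝ)) ^ (3 * m) ≤ ∏ _p ∈ (pz z).filter (fun p => p < 3 * m), 1 / (3 * m : ℝ) := by
    rw [prod_const]
    apply pow_le_pow_of_le_one (by positivity)
    · rw [div_le_one (by positivity)]; linarith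
    · have : (pz z).filter (fun p => p < 3 * m) ⊆ range (3 * m) := by
        intro p hp
        rw [mem_filter] at hp
        exact mem_range.2 hp.2
      exact (card_le_card this).trans (by rw [card_range])
  have hB : Real.exp (-(2 * (m : ℝ) ^ 2)) ≤ ∏ p ∈ (pz z).filter (fun p => ¬ p < 3 * m), Real.exp (-((m : ℝ) ^ 2 * (1 / (p : ℝ) ^ 2))) := by
    rw [← Real.exp_sum]
    apply Real.exp_le_exp.2
    rw [sum_neg_distrib, ← mul_sum]
    have h3 : ∑ p ∈ (pz z).filter (fun p => ¬ p < 3 * m), 1 / (p : ℝ) ^ 2 ≤ ∑ n ∈ Icc 1 z, 1 / (n : ℝ) ^ 2 :=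
      sum_le_sum_of_subset_of_nonneg ((filter_subset _ _).trans (filter_subset _ _)) (fun _ _ _ => by positivity)
    have h4 := h3.trans (sum_inv_sq z)
    have h5 : (m : ℝ) ^ 2 * ∑ p ∈ (pz z).filter (fun p => ¬ p < 3 * m), 1 / (p : ℝ) ^ 2 ≤ (m : ℝ) ^ 2 * 2 :=
      mul_le_mul_of_nonneg_left h4 (by positivity)
    linarith
  exact mul_le_mul hA hB (Real.exp_pos _).le (prod_nonneg fun _ _ => by positivity)

lemma nuP_le {k : ℕ} (a : Fin k → ℤ) (p : ℕ) (hp : p.Prime) : nuP a p ≤ k + 1 := by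
  rw [nuP_eq a p hp]
  exact Nat.add_le_add_right (rhoP_le_k a p) 1

/-- the tuple `(0, a_1, ..., a_k)` is admissible -/
def Admissible {k : ℕ} (a : Fin k → ℤ) : Prop :=
  ∀ p : ℕ, p.Prime → ∃ r : ℤ, ¬ (p : ℤ) ∣ r ∧ ∀ i, ¬ (p : ℤ) ∣ r + a i

lemma nuP_adm {k : ℕ} (a : Fin k → ℤ) (ha : Admissible a) (p : ℕ) (hp : p.Prime) : nuP a p + 1 ≤ p := by
  obtain ⟨r, hr1, hr2⟩ := ha p hp
  have hp0 : (0 : ℤ) < p := by exact_mod_cast hp.pos
  set r' : ℕ := (r % p).toNat with hr'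
  have h1 : (r' : ℤ) = r % p := Int.toNat_of_nonneg (Int.emod_nonneg _ hp0.ne')
  have h2 : r' < p := by
    have := Int.emod_lt_of_pos r hp0
    omega
  have h3 : (r' : ℤ) = r + p * (-(r / p)) := by
    rw [h1]
    have := Int.emod_add_mul_ediv r p
    linarith
  unfold nuP
  have h4 : (range p).filter (fun r : ℕ => p ∣ r ∨ ∃ i, (p : ℤ) ∣ (r : ℤ) + a i) ⊆ (range p).erase r' := by
    intro s hs
    rw [mem_filter] at hs
    rw [mem_erase]
    refine ⟨?_, hs.1⟩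
    rintro rfl
    rcases hs.2 with h | ⟨i, h⟩
    · have h5 : (p : ℤ) ∣ (r' : ℤ) := by exact_mod_cast h
      rw [h3] at h5
      exact hr1 ((Int.dvd_add_left (dvd_mul_right _ _)).1 h5)
    · rw [h3] at h
      have e : r + p * (-(r / p)) + a i = (r + a i) + p * (-(r / p)) := by ring
      rw [e] at h
      exact hr2 i ((Int.dvd_add_left (dvd_mul_right _ _)).1 h)
  have h5 := card_le_card h4
  rw [card_erase_of_mem (mem_range.2 h2), card_range] at h5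
  have := hp.pos
  omega

theorem singZ_low (k : ℕ) : ∃ c : ℝ, 0 < c ∧ ∀ a : Fin k → ℤ, Admissible a → ∀ z : ℕ, c ≤ singZ a z := by
  refine ⟨(1 / (3 * ((k + 1 : ℕ) : ℝ))) ^ (3 * (k + 1)) * Real.exp (-(2 * ((k + 1 : ℕ) : ℝ) ^ 2)), by positivity, fun a ha z => ?_⟩
  have h := local_low (k + 1) (by omega) (nuP a) z (fun p hp => nuP_le a p (mem_pz.1 hp).2) (fun p hp => nuP_adm a ha p (mem_pz.1 hp).2)
  exact h

end Pool.Agent.H373R2.T7
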