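import Mathlib
import Pool.Agent.H43.G.R_seed8.H373R2.T7.SingLow

/-! Convergence of the singular series of a tuple, with a quantitative tail bound. -/

namespace Pool.Agent.H373R2.T7
open Finset

/-- local factor -/
noncomputable def Fp {k : ℕ} (a : Fin k → ℤ) (p : ℕ) : ℝ := (1 - (nuP a p : ℝ) / p) / (1 - 1 / (p : ℝ)) ^ (k + 1)

/-- bad primes -/
def badP {k : ℕ} (a : Fin k → ℤ) : Finset ℕ :=
  (univ.biUnion fun i => (a i).natAbs.primeFactors) ∪
    (univ.filter (fun q : Fin k × Fin k => q.1 ≠ q.2)).biUnion fun q => (a q.1 - a q.2).natAbs.primeFactors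

lemma nuP_good {k : ℕ} (a : Fin k → ℤ) (ha : ∀ i, a i ≠ 0) (hab : ∀ i j, i ≠ j → a i ≠ a j) (p : ℕ) (hp : p.Prime) (h : p ∉ badP a) :
    k + 1 ≤ nuP a p := by
  have hp0 : (0 : ℤ) < p := by exact_mod_cast hp.pos
  have h1 : ∀ i, ¬ (p : ℤ) ∣ a i := by
    intro i hd
    apply h
    unfold badP
    rw [mem_union, mem_biUnion]
    left
    exact ⟨i, mem_univ _, Nat.mem_primeFactors.2 ⟨hp, Int.natCast_dvd.1 hd, by simpa using ha i⟩⟩
  have h2 : ∀ i j, i ≠ j → ¬ (p : ℤ) ∣ a i - a j := by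
    intro i j hij hd
    apply h
    unfold badP
    rw [mem_union, mem_biUnion, mem_biUnion]
    right
    refine ⟨(i, j), by simpa using hij, Nat.mem_primeFactors.2 ⟨hp, Int.natCast_dvd.1 hd, ?_⟩⟩
    have := hab i j hij
    simpa [sub_eq_zero] using this
  -- an injection from Option (Fin k)
  set g : Option (Fin k) → ℕ := fun o => match o with
    | none => 0
    | some i => ((-(a i)) % p).toNat with hg
  have hgz : ∀ i, ((g (some i) : ℕ) : ℤ) = (-(a i)) % p := fun i => Int.toNat_of_nonneg (Int.emod_nonneg _ hp0.ne')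
  have hgd : ∀ i, (p : ℤ) ∣ ((g (some i) : ℕ) : ℤ) + a i := by
    intro i
    rw [hgz]
    have h3 := Int.emod_add_mul_ediv (-(a i)) p
    exact ⟨-(-(a i) / p), by linarith⟩
  have hcard : (univ.image g).card = k + 1 := by
    rw [card_image_of_injective, card_univ, Fintype.card_option, Fintype.card_fin]
    intro o o' hoo
    match o, o', hoo with
    | none, none, _ => rfl
    | none, some j, hoo =>
      exfalso
      have h3 := hgd j
      rw [← hoo] at h3
      apply h1 j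
      simpa [hg] using h3
    | some i, none, hoo =>
      exfalso
      have h3 := hgd i
      rw [hoo] at h3
      apply h1 i
      simpa [hg] using h3
    | some i, some j, hoo =>
      by_contra hne
      have hij : i ≠ j := fun h => hne (by rw [h])
      apply h2 i j hij
      have h3 := hgd i
      have h4 := hgd j
      rw [hoo] at h3
      have := dvd_sub h3 h4
      have e : ((g (some j) : ℕ) : ℤ) + a i - (((g (some j) : ℕ) : ℤ) + a j) = a i - a j := by ring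
      rwa [e] at this
  rw [← hcard]
  unfold nuP
  apply card_le_card
  intro r hr
  rw [mem_image] at hr
  obtain ⟨o, _, rfl⟩ := hr
  rw [mem_filter, mem_range]
  match o with
  | none => exact ⟨hp.pos, Or.inl (dvd_zero _)⟩
  | some i =>
    refine ⟨?_, Or.inr ⟨i, hgd i⟩⟩
    have h3 := hgz i
    have h4 := Int.emod_lt_of_pos (-(a i)) hp0
    rw [← h3] at h4
    exact_mod_cast h4

/-- bounds for the local factors at large primes -/
lemma Fp_bounds {k : ℕ} (a : Fin k → ℤ) (ha : ∀ i, a i ≠ 0) (hab : ∀ i j, i ≠ j → a i ≠ a j) (p : ℕ) (hp : p.Prime) (h3 : 3 * (k + 1) ≤ p) :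
    Real.exp (-(((k + 1 : ℕ) : ℝ) ^ 2 * (1 / (p : ℝ) ^ 2))) ≤ Fp a p ∧
    Fp a p ≤ Real.exp (if p ∈ badP a then 2 * ((k + 1 : ℕ) : ℝ) / p else 0) := by
  set m : ℕ := k + 1 with hm
  have hp2 : (2 : ℝ) ≤ p := by exact_mod_cast hp.two_le
  have hp0 : (0 : ℝ) < p := by linarith
  have hm3 : (3 * m : ℝ) ≤ p := by exact_mod_cast h3
  have hm1 : (1 : ℝ) ≤ m := by rw [hm]; push_cast; linarith [Nat.cast_nonneg (α := ℝ) k]
  have hq : 0 < 1 - 1 / (p : ℝ) := by rw [sub_pos, div_lt_one hp0]; linarith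
  have hq1 : 1 - 1 / (p : ℝ) ≤ 1 := by
    have : 0 ≤ 1 / (p : ℝ) := by positivity
    linarith
  have hy : (m : ℝ) / p ≤ 1 / 3 := by rw [div_le_iff₀ hp0]; linarith
  have hy0 : 0 ≤ (m : ℝ) / p := by positivity
  have hbern : 1 - (m : ℝ) / p ≤ (1 - 1 / (p : ℝ)) ^ m := by
    have h4 := one_add_mul_le_pow (a := -(1 / (p : ℝ))) (by linarith) m
    have e : 1 + (m : ℝ) * -(1 / (p : ℝ)) = 1 - m / p := by ring
    rw [e] at h4
    exact h4
  have hνm : (nuP a p : ℝ) ≤ m := by exact_mod_cast nuP_le a p hp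
  have hν0 : (0 : ℝ) ≤ nuP a p := Nat.cast_nonneg _
  constructor
  · unfold Fp
    rw [le_div_iff₀ (by positivity)]
    have h4 := exp_low hy0 hy
    have h5 : (1 - 1 / (p : ℝ)) ^ m ≤ Real.exp (-((m : ℝ) / p)) := by
      have h6 : 1 - 1 / (p : ℝ) ≤ Real.exp (-(1 / p)) := by
        have := Real.add_one_le_exp (-(1 / (p : ℝ)))
        linarith
      calc (1 - 1 / (p : ℝ)) ^ m ≤ (Real.exp (-(1 / p))) ^ m := pow_le_pow_left₀ hq.le h6 m
        _ = Real.exp (-((m : ℝ) / p)) := by rw [← Real.exp_nat_mul]; congr 1; ring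
    have h6 : 1 - (m : ℝ) / p ≤ 1 - (nuP a p : ℝ) / p := by
      have := div_le_div_of_nonneg_right hνm hp0.le
      linarith
    calc Real.exp (-((m : ℝ) ^ 2 * (1 / (p : ℝ) ^ 2))) * (1 - 1 / (p : ℝ)) ^ m
        ≤ Real.exp (-((m : ℝ) ^ 2 * (1 / (p : ℝ) ^ 2))) * Real.exp (-((m : ℝ) / p)) := mul_le_mul_of_nonneg_left h5 (Real.exp_pos _).le
      _ = Real.exp (-((m : ℝ) / p + ((m : ℝ) / p) ^ 2)) := by rw [← Real.exp_add]; congr 1; ring
      _ ≤ 1 - (m : ℝ) / p := h4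
      _ ≤ _ := h6
  · unfold Fp
    split_ifs with hb
    · have h4 : 1 - (nuP a p : ℝ) / p ≤ 1 := by
        have : 0 ≤ (nuP a p : ℝ) / p := by positivity
        linarith
      rw [div_le_iff₀ (by positivity)]
      have h5 : 1 + 2 * ((m : ℝ) / p) ≤ Real.exp (2 * (m : ℝ) / p) := by
        have := Real.add_one_le_exp (2 * (m : ℝ) / p)
        have e : 2 * (m : ℝ) / p = 2 * ((m : ℝ) / p) := by ring
        rw [e] at this ⊢
        linarith
      have h6 : 1 ≤ (1 + 2 * ((m : ℝ) / p)) * (1 - (m : ℝ) / p) := by nlinarith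
      calc 1 - (nuP a p : ℝ) / p ≤ 1 := h4
        _ ≤ (1 + 2 * ((m : ℝ) / p)) * (1 - (m : ℝ) / p) := h6
        _ ≤ Real.exp (2 * (m : ℝ) / p) * (1 - 1 / (p : ℝ)) ^ m := by
            apply mul_le_mul h5 hbern (by linarith) (Real.exp_pos _).le
    · rw [Real.exp_zero, div_le_one (by positivity)]
      have h4 := nuP_good a ha hab p hp hb
      have h5 : (m : ℝ) ≤ nuP a p := by exact_mod_cast h4
      have := div_le_div_of_nonneg_right h5 hp0.le
      linarith

lemma singZ_Fp {k : ℕ} (a : Fin k → ℤ) (z : ℕ) : singZ a z = ∏ p ∈ pz z, Fp a p := rfl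

lemma singZ_nonneg {k : ℕ} (a : Fin k → ℤ) (z : ℕ) : 0 ≤ singZ a z := by
  rw [singZ_Fp]
  apply prod_nonneg
  intro p hp
  have hpp := (mem_pz.1 hp).2
  have hp2 : (2 : ℝ) ≤ p := by exact_mod_cast hpp.two_le
  have hp0 : (0 : ℝ) < p := by linarith
  have hq : 0 < 1 - 1 / (p : ℝ) := by rw [sub_pos, div_lt_one hp0]; linarith
  unfold Fp
  apply div_nonneg _ (by positivity)
  rw [sub_nonneg, div_le_one hp0]
  have h1 : nuP a p ≤ p := by
    unfold nuP
    exact (card_filter_le _ _).trans (by rw [card_range])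
  exact_mod_cast h1

lemma tail_sq (z z' : ℕ) (hz : 0 < z) (hzz : z ≤ z') : ∑ n ∈ Ioc z z', 1 / (n : ℝ) ^ 2 ≤ 1 / (z : ℝ) - 1 / (z' : ℝ) := by
  have hz0 : (0 : ℝ) < z := by exact_mod_cast hz
  induction z', hzz using Nat.le_induction with
  | base => simp
  | succ w hw ih =>
    rw [sum_Ioc_succ_top (by omega)]
    have hw0 : (0 : ℝ) < w := lt_of_lt_of_le hz0 (by exact_mod_cast hw)
    have h2 : 1 / (((w + 1 : ℕ) : ℝ)) ^ 2 ≤ 1 / w - 1 / ((w + 1 : ℕ) : ℝ) := by
      push_cast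
      rw [div_sub_div _ _ hw0.ne' (by positivity), div_le_div_iff₀ (by positivity) (by positivity)]
      nlinarith
    linarith

/-- the tail -/
lemma tail_bound {k : ℕ} (a : Fin k → ℤ) (ha : ∀ i, a i ≠ 0) (hab : ∀ i j, i ≠ j → a i ≠ a j) (z z' : ℕ) (hz : 3 * (k + 1) ≤ z)
    (hzz : z ≤ z') : ∃ R : ℝ, singZ a z' = singZ a z * R ∧ Real.exp (-(((k + 1 : ℕ) : ℝ) ^ 2 / z)) ≤ R ∧
      R ≤ Real.exp (2 * ((k + 1 : ℕ) : ℝ) * (badP a).card / z) := by
  have hz0 : (0 : ℝ) < z := by exact_mod_cast (by omega : 0 < z)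
  refine ⟨∏ p ∈ (pz z').filter (fun p => ¬ p ≤ z), Fp a p, ?_, ?_, ?_⟩
  · rw [singZ_Fp, singZ_Fp, ← prod_filter_mul_prod_filter_not (pz z') (fun p => p ≤ z)]
    congr 1
    apply prod_congr _ (fun _ _ => rfl)
    ext p
    rw [mem_filter, mem_pz, mem_pz]
    constructor
    · rintro ⟨⟨_, h1⟩, h2⟩; exact ⟨h2, h1⟩
    · rintro ⟨h1, h2⟩; exact ⟨⟨h1.trans hzz, h2⟩, h1⟩
  · have h1 : ∀ p ∈ (pz z').filter (fun p => ¬ p ≤ z), Real.exp (-(((k + 1 : ℕ) : ℝ) ^ 2 * (1 / (p : ℝ) ^ 2))) ≤ Fp a p := by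
      intro p hp
      rw [mem_filter, mem_pz] at hp
      exact (Fp_bounds a ha hab p hp.1.2 (by omega)).1
    refine le_trans ?_ (prod_le_prod (fun p _ => (Real.exp_pos _).le) h1)
    rw [← Real.exp_sum]
    apply Real.exp_le_exp.2
    rw [sum_neg_distrib, ← mul_sum]
    have h2 : ∑ p ∈ (pz z').filter (fun p => ¬ p ≤ z), 1 / (p : ℝ) ^ 2 ≤ ∑ n ∈ Ioc z z', 1 / (n : ℝ) ^ 2 := by
      apply sum_le_sum_of_subset_of_nonneg
      · intro p hp
        rw [mem_filter, mem_pz] at hp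
        rw [mem_Ioc]
        omega
      · intro _ _ _; positivity
    have h3 := tail_sq z z' (by omega) hzz
    have h4 : (0 : ℝ) ≤ 1 / (z' : ℝ) := by positivity
    have h5 : (((k + 1 : ℕ) : ℝ)) ^ 2 * ∑ p ∈ (pz z').filter (fun p => ¬ p ≤ z), 1 / (p : ℝ) ^ 2 ≤ (((k + 1 : ℕ) : ℝ)) ^ 2 * (1 / z) :=
      mul_le_mul_of_nonneg_left (by linarith) (by positivity)
    rw [mul_one_div] at h5
    linarith
  · have h1 : ∀ p ∈ (pz z').filter (fun p => ¬ p ≤ z), Fp a p ≤ Real.exp (if p ∈ badP a then 2 * ((k + 1 : ℕ) : ℝ) / p else 0) := by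
      intro p hp
      rw [mem_filter, mem_pz] at hp
      exact (Fp_bounds a ha hab p hp.1.2 (by omega)).2
    have h0 : ∀ p ∈ (pz z').filter (fun p => ¬ p ≤ z), 0 ≤ Fp a p := by
      intro p hp
      rw [mem_filter, mem_pz] at hp
      exact (Real.exp_pos _).le.trans (Fp_bounds a ha hab p hp.1.2 (by omega)).1
    refine (prod_le_prod h0 h1).trans ?_
    rw [← Real.exp_sum]
    apply Real.exp_le_exp.2
    rw [← sum_filter]
    calc ∑ p ∈ ((pz z').filter (fun p => ¬ p ≤ z)).filter (fun p => p ∈ badP a), 2 * ((k + 1 : ℕ) : ℝ) / p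
        ≤ ∑ _p ∈ ((pz z').filter (fun p => ¬ p ≤ z)).filter (fun p => p ∈ badP a), 2 * ((k + 1 : ℕ) : ℝ) / z := by
          apply sum_le_sum
          intro p hp
          rw [mem_filter, mem_filter] at hp
          apply div_le_div_of_nonneg_left (by positivity) hz0
          exact_mod_cast (by omega : z ≤ p)
      _ = ((((pz z').filter (fun p => ¬ p ≤ z)).filter (fun p => p ∈ badP a)).card : ℝ) * (2 * ((k + 1 : ℕ) : ℝ) / z) := by
          rw [sum_const, nsmul_eq_mul]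
      _ ≤ ((badP a).card : ℝ) * (2 * ((k + 1 : ℕ) : ℝ) / z) := by
          apply mul_le_mul_of_nonneg_right _ (by positivity)
          exact_mod_cast card_le_card (fun p hp => (mem_filter.1 hp).2)
      _ = _ := by ring

end Pool.Agent.H373R2.T7
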