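import Mathlib
import Pool.Agent.H43.G.R_seed8.H373R2.T7.MinorMu
import Pool.Agent.H43.G.R_seed8.H373R2.T7.SupE2
import Pool.Agent.H43.G.R_seed8.H705R2.MLogF

/-! The exponential sum of the Moebius function at every point, with arbitrary logarithmic savings. -/

namespace Pool.Agent.H373R2.T7
open Finset
open Pool.Agent.H807R2.Dav

/-- the Moebius function as a real function -/
noncomputable def muR (n : ℕ) : ℝ := ((ArithmeticFunction.moebius n : ℤ) : ℝ)

lemma muR_abs (n : ℕ) : |muR n| ≤ 1 := by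
  unfold muR
  exact_mod_cast ArithmeticFunction.abs_moebius_le_one

lemma mu_ap (K U : ℕ) : ∃ N0 : ℕ, ∀ N : ℕ, N0 ≤ N → ∀ q : ℕ, 1 ≤ q → (q : ℝ) ≤ Real.log N ^ K → ∀ c y : ℕ, y ≤ N →
    |∑ n ∈ (Icc 1 y).filter (fun n => n ≡ c [MOD q]), muR n| ≤ N / Real.log N ^ U := by
  obtain ⟨N₁, h1⟩ := Pool.Agent.H705R2.MSW.swMu (U + 1) (K + 1)
  obtain ⟨m1, e1⟩ := ev_log' U 1
  obtain ⟨m2, e2⟩ := ev_L' (2 ^ (U + 2) + 2 * 2 ^ K)
  refine ⟨max (max m1 m2) (max (N₁ * N₁) 4), fun N hN q hq hqK c y hy => ?_⟩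
  have a1 := e1 N (le_trans (le_trans (le_max_left _ _) (le_max_left _ _)) hN)
  have a2 := e2 N (le_trans (le_trans (le_max_right _ _) (le_max_left _ _)) hN)
  have a3 : N₁ * N₁ ≤ N := le_trans (le_trans (le_max_left _ _) (le_max_right _ _)) hN
  have a4 : 4 ≤ N := le_trans (le_trans (le_max_right _ _) (le_max_right _ _)) hN
  have hNr : (4 : ℝ) ≤ N := by exact_mod_cast a4
  have hN0 : (0 : ℝ) < N := by linarith
  set L := Real.log N with hL
  have p1 : (1 : ℝ) ≤ 2 ^ (U + 2) := one_le_pow₀ (by norm_num)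
  have p2 : (1 : ℝ) ≤ 2 ^ K := one_le_pow₀ (by norm_num)
  have hL1 : 1 ≤ L := by linarith
  have hL0 : 0 < L := by linarith
  have hsum : ∑ n ∈ (Icc 1 y).filter (fun n => n ≡ c [MOD q]), muR n =
      ∑ n ∈ (range (y + 1)).filter (fun n => n % q = c % q), ((ArithmeticFunction.moebius n : ℤ) : ℝ) := by
    unfold muR
    refine sum_subset ?_ ?_
    · intro n hn
      rw [mem_filter, mem_Icc] at hn
      rw [mem_filter, mem_range]
      exact ⟨by omega, hn.2⟩
    · intro n hn hn'
      rw [mem_filter, mem_range] at hn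
      rw [mem_filter, mem_Icc] at hn'
      have : n = 0 := by
        by_contra h0
        apply hn'
        exact ⟨⟨by omega, by omega⟩, hn.2⟩
      rw [this]
      simp
  rcases le_or_gt ((y + 1) * (y + 1)) N with h | h
  · have t1 : |∑ n ∈ (Icc 1 y).filter (fun n => n ≡ c [MOD q]), muR n| ≤ y := by
      refine (abs_sum_le_sum_abs _ _).trans ?_
      refine (sum_le_sum fun n _ => muR_abs n).trans ?_
      rw [sum_const, nsmul_eq_mul, mul_one]
      have : ((Icc 1 y).filter (fun n => n ≡ c [MOD q])).card ≤ y := by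
        refine (card_filter_le _ _).trans ?_
        rw [Nat.card_Icc]; omega
      exact_mod_cast this
    refine t1.trans ?_
    have t2 : (y : ℝ) ≤ √N := by
      apply Real.le_sqrt_of_sq_le
      have : ((y + 1 : ℕ) : ℝ) * ((y + 1 : ℕ) : ℝ) ≤ N := by exact_mod_cast h
      push_cast at this
      have hy0 : (0 : ℝ) ≤ y := Nat.cast_nonneg _
      nlinarith
    refine t2.trans ?_
    rw [le_div_iff₀ (by positivity)]
    calc √(N : ℝ) * L ^ U ≤ √(N : ℝ) * √(N : ℝ) := by
          apply mul_le_mul_of_nonneg_left _ (Real.sqrt_nonneg _)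
          linarith
      _ = N := Real.mul_self_sqrt hN0.le
  · set w := y + 1 with hw
    have hwN : N₁ ≤ w := by
      by_contra hc
      push Not at hc
      have : w * w ≤ N₁ * N₁ := Nat.mul_le_mul hc.le hc.le
      omega
    have hw0 : (0 : ℝ) < w := by exact_mod_cast (by omega : 0 < w)
    have hLw : L ≤ 2 * Real.log w := by
      have h3 : (N : ℝ) ≤ (w : ℝ) ^ 2 := by
        have : (N : ℝ) ≤ ((w * w : ℕ) : ℝ) := by exact_mod_cast h.le
        push_cast at this
        linarith [pow_two (w : ℝ)]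
      have h4 := Real.log_le_log hN0 h3
      rw [Real.log_pow] at h4
      push_cast at h4
      exact h4
    have hlw0 : 0 < Real.log w := by linarith
    have hqw : (q : ℝ) ≤ Real.log w ^ (K + 1) := by
      calc (q : ℝ) ≤ L ^ K := hqK
        _ ≤ (2 * Real.log w) ^ K := pow_le_pow_left₀ hL0.le hLw _
        _ = Real.log w ^ K * 2 ^ K := by rw [mul_pow]; ring
        _ ≤ Real.log w ^ K * Real.log w := by
            apply mul_le_mul_of_nonneg_left _ (by positivity)
            linarith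
        _ = _ := by rw [pow_succ]
    rw [hsum]
    refine (h1 w hwN q (c % q) hq hqw).trans ?_
    have hwr : (w : ℝ) ≤ 2 * N := by
      have : w ≤ 2 * N := by omega
      exact_mod_cast this
    have h5 : (L / 2) ^ (U + 1) ≤ Real.log w ^ (U + 1) := pow_le_pow_left₀ (by positivity) (by linarith) _
    calc (w : ℝ) / Real.log w ^ (U + 1) ≤ (2 * N) / (L / 2) ^ (U + 1) := by
          gcongr
      _ = (2 ^ (U + 2) / L) * (N / L ^ U) := by
          rw [div_pow, pow_succ L, pow_succ (2 : ℝ) (U + 1)]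
          field_simp
      _ ≤ 1 * (N / L ^ U) := by
          apply mul_le_mul_of_nonneg_right _ (by positivity)
          rw [div_le_one hL0]
          linarith
      _ = _ := one_mul _

/-- Davenport's estimate -/
theorem sup_mu (U : ℕ) : ∃ N0 : ℕ, ∀ N : ℕ, N0 ≤ N → ∀ α : ℝ,
    ‖∑ n ∈ Icc 1 N, ((muR n : ℝ) : ℂ) * ee ((n : ℝ) * α)‖ ≤ N / Real.log N ^ U := by
  obtain ⟨B, m1, hmin⟩ := minor_mu U
  obtain ⟨m3, hap⟩ := mu_ap B (2 * B + U + 1)
  obtain ⟨m5, h5⟩ := ev_log' B 2
  obtain ⟨m6, h6⟩ := ev_L' 20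
  refine ⟨max (max m1 m3) (max (max m5 m6) 4), fun N hN α => ?_⟩
  have hm1 : m1 ≤ N := le_trans (le_trans (le_max_left _ _) (le_max_left _ _)) hN
  have hm3 : m3 ≤ N := le_trans (le_trans (le_max_right _ _) (le_max_left _ _)) hN
  have a5 := h5 N (le_trans (le_trans (le_trans (le_max_left _ _) (le_max_left _ _)) (le_max_right _ _)) hN)
  have hL := h6 N (le_trans (le_trans (le_trans (le_max_right _ _) (le_max_left _ _)) (le_max_right _ _)) hN)
  have hN4 : 4 ≤ N := le_trans (le_trans (le_max_right _ _) (le_max_right _ _)) hN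
  have hNr : (4 : ℝ) ≤ N := by exact_mod_cast hN4
  have hN0 : (0 : ℝ) < N := by linarith
  set L := Real.log N with hLd
  have hL0 : 0 < L := by linarith
  have hL1 : 1 ≤ L := by linarith
  have hLB1 : 1 ≤ L ^ B := one_le_pow₀ hL1
  have hLB0 : 0 < L ^ B := by positivity
  have hsN : √(N : ℝ) ≤ N := by
    rw [Real.sqrt_le_left (by positivity)]; nlinarith
  have h2LB : 2 * L ^ B ≤ N := a5.trans hsN
  set Q : ℕ := ⌊(N : ℝ) / L ^ B⌋₊ with hQ
  have hNLB : 2 ≤ (N : ℝ) / L ^ B := by rw [le_div_iff₀ hLB0]; exact h2LB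
  have hQpos : 0 < Q := by
    rw [hQ, Nat.floor_pos]
    linarith
  obtain ⟨r, hr1, hr2⟩ := Real.exists_rat_abs_sub_le_and_den_le α hQpos
  set q : ℕ := r.den with hq
  have hq1 : 1 ≤ q := r.den_pos
  have hq0 : (0 : ℝ) < q := by exact_mod_cast hq1
  have hrq : ((r : ℚ) : ℝ) = (r.num : ℝ) / q := by
    rw [hq]; exact_mod_cast (Rat.num_div_den r).symm
  rw [hrq] at hr1
  have hcop : IsCoprime r.num (q : ℤ) := by
    rw [Int.isCoprime_iff_gcd_eq_one]
    have := r.reduced
    rw [Nat.Coprime] at this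
    rw [Int.gcd]
    simpa using this
  have hqQ : (q : ℝ) ≤ N / L ^ B := by
    have h1 : (q : ℝ) ≤ Q := by exact_mod_cast hr2
    exact h1.trans (Nat.floor_le (by positivity))
  rcases le_or_gt (L ^ B) (q : ℝ) with hqb | hqs
  · have hα : |α - (r.num : ℝ) / q| ≤ 1 / (q : ℝ) ^ 2 := by
      refine hr1.trans ?_
      rw [pow_two]
      apply one_div_le_one_div_of_le (by positivity)
      apply mul_le_mul_of_nonneg_right _ hq0.le
      have h1 : (q : ℝ) ≤ Q := by exact_mod_cast hr2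
      linarith
    exact hmin N hm1 q hqb hqQ r.num hcop α hα
  · have hAP : ∀ y : ℕ, y ≤ N → ∀ c : ℕ, |∑ n ∈ (Icc 1 y).filter (fun n => n ≡ c [MOD q]), muR n| ≤
        N / L ^ (2 * B + U + 1) := fun y hy c => hap N hm3 q hq1 hqs.le c y hy
    have hpart : ∀ y : ℕ, y ≤ N → ‖∑ n ∈ Icc 1 y, ((muR n : ℝ) : ℂ) * ee (n * ((r.num : ℝ) / q))‖ ≤
        N / L ^ (B + U + 1) := by
      intro y hy
      have h1 := rat_twist muR y q hq1 r.num (N / L ^ (2 * B + U + 1)) (hAP y hy)
      refine h1.trans ?_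
      calc (q : ℝ) * (N / L ^ (2 * B + U + 1)) ≤ L ^ B * (N / L ^ (2 * B + U + 1)) := by gcongr
        _ = N / L ^ (B + U + 1) := by
            have e : L ^ (2 * B + U + 1) = L ^ B * L ^ (B + U + 1) := by rw [← pow_add]; congr 1; ring
            rw [e]
            field_simp
    set γ : ℝ := α - (r.num : ℝ) / q with hγ
    have h1 := abel_ee (fun n => ((muR n : ℝ) : ℂ) * ee (n * ((r.num : ℝ) / q))) γ (N / L ^ (B + U + 1)) N hpart
    have h2 : ∑ n ∈ Icc 1 N, ((muR n : ℝ) : ℂ) * ee ((n : ℝ) * α) =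
        ∑ n ∈ Icc 1 N, (((muR n : ℝ) : ℂ) * ee (n * ((r.num : ℝ) / q))) * ee (n * γ) := by
      apply sum_congr rfl
      intro n _
      rw [mul_assoc, ← ee_add]
      congr 2
      rw [hγ]
      ring
    rw [h2]
    refine h1.trans ?_
    have hγ1 : |γ| ≤ 1 / ((Q + 1) * q) := hr1
    have hγ2 : |γ| ≤ L ^ B / N := by
      refine hγ1.trans ?_
      rw [div_le_div_iff₀ (by positivity) hN0, one_mul]
      have h3 : (N : ℝ) / L ^ B < Q + 1 := Nat.lt_floor_add_one _
      rw [div_lt_iff₀ hLB0] at h3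
      have h4 : (1 : ℝ) ≤ q := by exact_mod_cast hq1
      have h5 : 0 ≤ ((Q : ℝ) + 1) * L ^ B := by positivity
      nlinarith
    have h3 : ‖ee γ - 1‖ ≤ 7 * |γ| := by
      unfold ee
      have h4 : (2 * Real.pi * Complex.I * (γ : ℂ)) = ((2 * Real.pi * γ : ℝ) : ℂ) * Complex.I := by
        push_cast; ring
      rw [h4]
      have h5 := Real.norm_exp_I_mul_ofReal_sub_one_le (x := 2 * Real.pi * γ)
      rw [mul_comm Complex.I] at h5
      refine h5.trans ?_
      rw [Real.norm_eq_abs, abs_mul, abs_of_pos (by positivity : (0 : ℝ) < 2 * Real.pi)]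
      have := Real.pi_lt_d2
      have := abs_nonneg γ
      nlinarith
    have h4 : 1 + (N : ℝ) * ‖ee γ - 1‖ ≤ 8 * L ^ B := by
      have h5 : (N : ℝ) * ‖ee γ - 1‖ ≤ 7 * L ^ B := by
        calc (N : ℝ) * ‖ee γ - 1‖ ≤ N * (7 * (L ^ B / N)) := by
              apply mul_le_mul_of_nonneg_left _ hN0.le
              linarith
          _ = _ := by field_simp
      linarith
    calc (N : ℝ) / L ^ (B + U + 1) * (1 + N * ‖ee γ - 1‖) ≤ N / L ^ (B + U + 1) * (8 * L ^ B) :=
          mul_le_mul_of_nonneg_left h4 (by positivity)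
      _ = (8 / L) * (N / L ^ U) := by
          have e : L ^ (B + U + 1) = L ^ B * (L ^ U * L) := by rw [pow_add, pow_add, pow_one]; ring
          rw [e]
          field_simp
      _ ≤ 1 * (N / L ^ U) := by
          apply mul_le_mul_of_nonneg_right _ (by positivity)
          rw [div_le_one hL0]
          linarith
      _ = _ := one_mul _

end Pool.Agent.H373R2.T7
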