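import Mathlib
import Pool.Agent.H43.G.R_seed8.H373R2.T7.SupMu
import Pool.Agent.H43.G.R_seed8.H373R2.T7.BilH
import Pool.Agent.H43.G.R_seed8.H534R2.BH_Lam

/-! The exponential sum of the Liouville function, with arbitrary logarithmic savings. -/

namespace Pool.Agent.H373R2.T7
open Finset
open Pool.Agent.H807R2.Dav

/-- the Liouville function -/
noncomputable def liR (n : ℕ) : ℂ := (-1 : ℂ) ^ (ArithmeticFunction.cardFactors n)

/-- the Moebius function, complex valued -/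
noncomputable def muC (n : ℕ) : ℂ := ((ArithmeticFunction.moebius n : ℤ) : ℂ)

lemma muC_eq (n : ℕ) : muC n = ((muR n : ℝ) : ℂ) := by
  unfold muC muR
  push_cast
  rfl

lemma muC_norm (n : ℕ) : ‖muC n‖ ≤ 1 := by
  rw [muC_eq, Complex.norm_real, Real.norm_eq_abs]
  exact muR_abs n

lemma liR_norm (n : ℕ) : ‖liR n‖ ≤ 1 := by
  unfold liR
  rw [norm_pow, norm_neg, norm_one, one_pow]

theorem sup_muC : SupSmall muC := by
  intro U
  obtain ⟨N0, h⟩ := sup_mu U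
  refine ⟨N0, fun N hN α => ?_⟩
  refine le_trans (le_of_eq ?_) (h N hN α)
  congr 1

lemma liou_split (N : ℕ) (α : ℝ) : ∑ n ∈ Icc 1 N, liR n * ee ((n : ℝ) * α) =
    ∑ d ∈ Icc 1 N, ∑ m ∈ Icc 1 (N / d ^ 2), muC m * ee ((m : ℝ) * ((d : ℝ) ^ 2 * α)) := by
  have h1 : ∀ n ∈ Icc 1 N, liR n * ee ((n : ℝ) * α) =
      ∑ d ∈ Icc 1 N, if d ^ 2 ∣ n then muC (n / d ^ 2) * ee ((n : ℝ) * α) else 0 := by
    intro n hn
    unfold liR
    rw [Pool.Agent.H534R2.BH.lam_eq N n hn, sum_mul]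
    apply sum_congr rfl
    intro d _
    unfold muC
    split_ifs
    · rfl
    · rw [zero_mul]
  rw [sum_congr rfl h1, sum_comm]
  apply sum_congr rfl
  intro d hd
  rw [mem_Icc] at hd
  have hd2 : 0 < d ^ 2 := pow_pos (by omega) 2
  rw [← sum_filter]
  symm
  refine sum_bij' (fun m _ => d ^ 2 * m) (fun n _ => n / d ^ 2) ?_ ?_ ?_ ?_ ?_
  · intro m hm
    rw [mem_Icc] at hm
    rw [mem_filter, mem_Icc]
    refine ⟨⟨?_, ?_⟩, Dvd.intro _ rfl⟩
    · exact Nat.one_le_iff_ne_zero.mpr (Nat.mul_ne_zero hd2.ne' (by omega))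
    · calc d ^ 2 * m ≤ d ^ 2 * (N / d ^ 2) := Nat.mul_le_mul_left _ hm.2
        _ ≤ N := Nat.mul_div_le _ _
  · intro n hn
    rw [mem_filter, mem_Icc] at hn
    obtain ⟨⟨h1, h2⟩, c, hc⟩ := hn
    rw [mem_Icc]
    refine ⟨?_, Nat.div_le_div_right h2⟩
    rw [hc, Nat.mul_div_cancel_left _ hd2]
    rcases Nat.eq_zero_or_pos c with h | h
    · rw [h, mul_zero] at hc; omega
    · exact h
  · intro m _
    exact Nat.mul_div_cancel_left _ hd2
  · intro n hn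
    rw [mem_filter] at hn
    exact Nat.mul_div_cancel' hn.2
  · intro m _
    rw [Nat.mul_div_cancel_left _ hd2]
    congr 2
    push_cast
    ring

theorem sup_liou : SupSmall liR := by
  intro U
  obtain ⟨N1, h1⟩ := sup_muC (U + 1)
  obtain ⟨m1, e1⟩ := ev_log' (2 * (U + 1)) 16
  obtain ⟨m2, e2⟩ := ev_L' (2 ^ (U + 2) + 1)
  refine ⟨max (max m1 m2) (max (N1 * N1) 4), fun N hN α => ?_⟩
  have a1 := e1 N (le_trans (le_trans (le_max_left _ _) (le_max_left _ _)) hN)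
  have a2 := e2 N (le_trans (le_trans (le_max_right _ _) (le_max_left _ _)) hN)
  have a3 : N1 * N1 ≤ N := le_trans (le_trans (le_max_left _ _) (le_max_right _ _)) hN
  have a4 : 4 ≤ N := le_trans (le_trans (le_max_right _ _) (le_max_right _ _)) hN
  have hNr : (4 : ℝ) ≤ N := by exact_mod_cast a4
  have hN0 : (0 : ℝ) < N := by linarith
  set L := Real.log N with hL
  have p1 : (1 : ℝ) ≤ 2 ^ (U + 2) := one_le_pow₀ (by norm_num)
  have hL1 : 1 ≤ L := by linarith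
  have hL0 : 0 < L := by linarith
  have hLU : 1 ≤ L ^ (U + 1) := one_le_pow₀ hL1
  set D : ℕ := ⌈L ^ (U + 1)⌉₊ with hD
  have hD1 : L ^ (U + 1) ≤ D := Nat.le_ceil _
  have hD2 : (D : ℝ) ≤ 2 * L ^ (U + 1) := by
    have := (Nat.ceil_lt_add_one (by positivity : (0 : ℝ) ≤ L ^ (U + 1))).le
    rw [← hD] at this
    linarith
  have hDpos : 1 ≤ D := by
    have : (1 : ℝ) ≤ D := hLU.trans hD1
    exact_mod_cast this
  have hDsq : 2 * (D : ℝ) ^ 2 ≤ √(N : ℝ) := by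
    calc 2 * (D : ℝ) ^ 2 ≤ 2 * (2 * L ^ (U + 1)) ^ 2 := by gcongr
      _ = 8 * L ^ (2 * (U + 1)) := by rw [mul_pow, ← pow_mul]; ring
      _ ≤ 16 * L ^ (2 * (U + 1)) := by
          have : 0 ≤ L ^ (2 * (U + 1)) := by positivity
          linarith
      _ ≤ _ := a1
  have hsq : √(N : ℝ) * √(N : ℝ) = N := Real.mul_self_sqrt hN0.le
  have hsq1 : 1 ≤ √(N : ℝ) := by
    rw [Real.one_le_sqrt]; linarith
  rw [liou_split]
  set I : ℕ → ℂ := fun d => ∑ m ∈ Icc 1 (N / d ^ 2), muC m * ee ((m : ℝ) * ((d : ℝ) ^ 2 * α)) with hI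
  have htriv : ∀ d : ℕ, 1 ≤ d → ‖I d‖ ≤ N * ((d : ℝ) ^ 2)⁻¹ := by
    intro d hd
    rw [hI]
    refine (norm_sum_le _ _).trans ?_
    have : ∀ m ∈ Icc 1 (N / d ^ 2), ‖muC m * ee ((m : ℝ) * ((d : ℝ) ^ 2 * α))‖ ≤ 1 := by
      intro m _
      rw [norm_mul, norm_ee, mul_one]
      exact muC_norm m
    refine (sum_le_sum this).trans ?_
    rw [sum_const, Nat.card_Icc, nsmul_eq_mul, mul_one, Nat.add_sub_cancel]
    have := Nat.cast_div_le (α := ℝ) (m := N) (n := d ^ 2)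
    push_cast at this
    rw [← div_eq_mul_inv]
    exact this
  have hsmall : ∀ d : ℕ, 1 ≤ d → d ≤ D → ‖I d‖ ≤ (2 ^ (U + 1) * (N / L ^ (U + 1))) * ((d : ℝ) ^ 2)⁻¹ := by
    intro d hd hdD
    have hd0 : (0 : ℝ) < d := by exact_mod_cast hd
    have hdr : (d : ℝ) ^ 2 ≤ D ^ 2 := by
      have : (d : ℝ) ≤ D := by exact_mod_cast hdD
      gcongr
    set K : ℕ := N / d ^ 2 with hK
    have hKlow : √(N : ℝ) ≤ K := by
      have h2 : (N : ℝ) / (d : ℝ) ^ 2 < K + 1 := by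
        rw [div_lt_iff₀ (by positivity)]
        have h3 : N < (K + 1) * d ^ 2 := by
          rw [hK]
          exact Nat.lt_mul_of_div_lt (Nat.lt_succ_self _) (by positivity)
        exact_mod_cast h3
      have h4 : 2 * √(N : ℝ) ≤ (N : ℝ) / (d : ℝ) ^ 2 := by
        rw [le_div_iff₀ (by positivity)]
        calc 2 * √(N : ℝ) * (d : ℝ) ^ 2 ≤ 2 * √(N : ℝ) * D ^ 2 := by gcongr
          _ = √(N : ℝ) * (2 * (D : ℝ) ^ 2) := by ring
          _ ≤ √(N : ℝ) * √(N : ℝ) := by gcongr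
          _ = N := hsq
      linarith
    have hK1 : N1 ≤ K := by
      have h2 : (N1 : ℝ) ≤ √(N : ℝ) := by
        apply Real.le_sqrt_of_sq_le
        have : ((N1 * N1 : ℕ) : ℝ) ≤ N := by exact_mod_cast a3
        push_cast at this
        rw [pow_two]; exact this
      have h3 : (N1 : ℝ) ≤ K := h2.trans hKlow
      exact_mod_cast h3
    have hlogK : L / 2 ≤ Real.log K := by
      have h2 : Real.log (√(N : ℝ)) ≤ Real.log K := Real.log_le_log (by linarith) hKlow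
      rw [Real.log_sqrt hN0.le] at h2
      exact h2
    have hKle : (K : ℝ) ≤ N * ((d : ℝ) ^ 2)⁻¹ := by
      have := Nat.cast_div_le (α := ℝ) (m := N) (n := d ^ 2)
      push_cast at this
      rw [← div_eq_mul_inv]
      exact this
    refine (h1 K hK1 ((d : ℝ) ^ 2 * α)).trans ?_
    calc (K : ℝ) / Real.log K ^ (U + 1) ≤ (N * ((d : ℝ) ^ 2)⁻¹) / (L / 2) ^ (U + 1) := by
          gcongr
      _ = _ := by rw [div_pow]; field_simp
  have hsplit : ∑ d ∈ Icc 1 N, ‖I d‖ ≤ ∑ d ∈ Icc 1 D, ‖I d‖ + ∑ d ∈ Ioc D (N + D), ‖I d‖ := by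
    rw [← sum_union (by
      rw [disjoint_left]; intro n hn hn'
      rw [mem_Icc] at hn; rw [mem_Ioc] at hn'; omega)]
    apply sum_le_sum_of_subset_of_nonneg
    · intro d hd
      rw [mem_Icc] at hd
      rw [mem_union, mem_Icc, mem_Ioc]
      omega
    · intro _ _ _; exact norm_nonneg _
  have hA : ∑ d ∈ Icc 1 D, ‖I d‖ ≤ 2 * (2 ^ (U + 1) * (N / L ^ (U + 1))) := by
    have h2 : ∑ d ∈ Icc 1 D, ‖I d‖ ≤ ∑ d ∈ Icc 1 D, (2 ^ (U + 1) * (N / L ^ (U + 1))) * ((d : ℝ) ^ 2)⁻¹ := by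
      apply sum_le_sum
      intro d hd
      rw [mem_Icc] at hd
      exact hsmall d hd.1 hd.2
    refine h2.trans ?_
    rw [← mul_sum, mul_comm (2 : ℝ)]
    apply mul_le_mul_of_nonneg_left _ (by positivity)
    have e : Icc 1 D = insert 1 (Ioc 1 D) := by
      ext d; rw [mem_insert, mem_Icc, mem_Ioc]; omega
    rw [e, sum_insert (by simp)]
    have h3 := sum_Ioc_inv_sq_le_sub (α := ℝ) (k := 1) (n := D) (by norm_num) hDpos
    have h4 : (0 : ℝ) ≤ (D : ℝ)⁻¹ := by positivity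
    push_cast at h3 ⊢
    norm_num at h3 ⊢
    linarith
  have hB : ∑ d ∈ Ioc D (N + D), ‖I d‖ ≤ N / L ^ (U + 1) := by
    have h2 : ∑ d ∈ Ioc D (N + D), ‖I d‖ ≤ ∑ d ∈ Ioc D (N + D), N * ((d : ℝ) ^ 2)⁻¹ := by
      apply sum_le_sum
      intro d hd
      rw [mem_Ioc] at hd
      exact htriv d (by omega)
    refine h2.trans ?_
    rw [← mul_sum]
    have h3 := sum_Ioc_inv_sq_le_sub (α := ℝ) (k := D) (n := N + D) (by omega) (by omega)
    have h4 : (0 : ℝ) ≤ ((N + D : ℕ) : ℝ)⁻¹ := by positivity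
    calc (N : ℝ) * ∑ d ∈ Ioc D (N + D), ((d : ℝ) ^ 2)⁻¹ ≤ N * (D : ℝ)⁻¹ := by
          apply mul_le_mul_of_nonneg_left _ hN0.le
          linarith
      _ ≤ N * (L ^ (U + 1))⁻¹ := by
          apply mul_le_mul_of_nonneg_left _ hN0.le
          exact inv_anti₀ (by positivity) hD1
      _ = _ := by rw [div_eq_mul_inv]
  refine (norm_sum_le _ _).trans (hsplit.trans ((add_le_add hA hB).trans ?_))
  calc 2 * (2 ^ (U + 1) * (N / L ^ (U + 1))) + N / L ^ (U + 1) = ((2 ^ (U + 2) + 1) / L) * (N / L ^ U) := by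
        rw [pow_succ L U, pow_succ (2 : ℝ) (U + 1)]
        field_simp
    _ ≤ 1 * (N / L ^ U) := by
        apply mul_le_mul_of_nonneg_right _ (by positivity)
        rw [div_le_one hL0]
        exact a2
    _ = _ := one_mul _

end Pool.Agent.H373R2.T7
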