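import Mathlib
import Pool.Agent.H43.G.R_seed8.H373R2.T7.Tuple2
import Pool.Agent.H43.G.R_seed8.H373R2.T7.SingLow

/-! Prime tuples: the final theorem. -/

namespace Pool.Agent.H373R2.T7
open Finset Polynomial

lemma upper_size {k : ℕ} (f : Fin k → ℤ[X]) (B N : ℕ) (x : Fin k → ℕ) (hx : ∀ i, x i ^ (f i).natDegree ≤ B * N) (i : Fin k) (n v : ℕ)
    (hn : n ≤ N) (hv : v ∈ Icc 1 (x i)) : (n : ℤ) + (f i).eval (v : ℤ) ≤ (((1 + univ.sup (fun i => cf (f i)) * B) * N : ℕ) : ℤ) := by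
  rw [mem_Icc] at hv
  have h4 := (abs_le.1 (abs_eval_le (f i) v hv.1)).2
  have h5 : cf (f i) * v ^ (f i).natDegree ≤ univ.sup (fun i => cf (f i)) * (B * N) := by
    apply Nat.mul_le_mul (le_sup (f := fun i => cf (f i)) (mem_univ i))
    exact (Nat.pow_le_pow_left hv.2 _).trans (hx i)
  have h7 : ((cf (f i) * v ^ (f i).natDegree : ℕ) : ℤ) ≤ ((univ.sup (fun i => cf (f i)) * (B * N) : ℕ) : ℤ) := by exact_mod_cast h5
  have h8 : (n : ℤ) ≤ N := by exact_mod_cast hn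
  have h9 : (((1 + univ.sup (fun i => cf (f i)) * B) * N : ℕ) : ℤ) = N + ((univ.sup (fun i => cf (f i)) * (B * N) : ℕ) : ℤ) := by push_cast; ring
  rw [h9]
  have h10 : ((cf (f i) * v ^ (f i).natDegree : ℕ) : ℤ) = (cf (f i) : ℤ) * (v : ℤ) ^ (f i).natDegree := by push_cast; ring
  rw [h10] at h7
  linarith

open Classical in
theorem tuples {k : ℕ} (hk : 1 ≤ k) (f : Fin k → ℤ[X]) (hd : ∀ i, 1 ≤ (f i).natDegree) (hl : ∀ i, 0 < (f i).leadingCoeff)
    (B : ℕ) (hB : 1 ≤ B) (U : ℕ) :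
    ∃ B0 : ℕ, ∀ E : ℕ, ∃ N0 : ℕ, ∀ N : ℕ, N0 ≤ N → ∀ x : Fin k → ℕ,
      (∀ i, N ≤ B * x i ^ (f i).natDegree ∧ x i ^ (f i).natDegree ≤ B * N) →
      ∀ z : ℕ, Real.log N ^ B0 ≤ z → (z : ℝ) ≤ Real.log N ^ E →
      (((Fintype.piFinset (fun i => Icc 1 (x i))).filter (fun m : Fin k → ℕ => (N : ℝ) / Real.log N ^ U <
        |tupleCount (fun i => (f i).eval (m i : ℤ)) N - singZ (fun i => (f i).eval (m i : ℤ)) z * N|)).card : ℝ) ≤
        (∏ i, (x i : ℝ)) / Real.log N ^ U := by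
  obtain ⟨B0, hB0⟩ := tuple_diff f hd hl B hB (2 * U + 1)
  refine ⟨B0, fun E => ?_⟩
  obtain ⟨n1, h1⟩ := hB0 E
  obtain ⟨n2, h2⟩ := tuple_main k E (U + 1) hk
  obtain ⟨n3, h3⟩ := Vz_inv_small E
  have hlow := fun i => lower_bdd (f i) (hd i) (hl i)
  choose Cl hCl using hlow
  set Cf : ℕ := univ.sup Cl with hCf
  set c1 : ℕ := 1 + univ.sup (fun i => cf (f i)) * B with hc1
  obtain ⟨n4, h4⟩ := ev_log' (U + k + 4) 1
  obtain ⟨n5, h5⟩ := ev_L' (Real.log c1 + 16 + 8 * Cf + 8 * (((k : ℝ) + 1) * 2 ^ (k + 1) * (4 * c1)))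
  refine ⟨max (max (max n1 n2) (max n3 n4)) (max n5 3), fun N hN x hx z hz1 hz2 => ?_⟩
  have b1 := le_trans (le_trans (le_trans (le_max_left _ _) (le_max_left _ _)) (le_max_left _ _)) hN
  have b2 := le_trans (le_trans (le_trans (le_max_right _ _) (le_max_left _ _)) (le_max_left _ _)) hN
  have b3 := le_trans (le_trans (le_trans (le_max_left _ _) (le_max_right _ _)) (le_max_left _ _)) hN
  have b4 := le_trans (le_trans (le_trans (le_max_right _ _) (le_max_right _ _)) (le_max_left _ _)) hN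
  have b5 := le_trans (le_trans (le_max_left _ _) (le_max_right _ _)) hN
  have hN3 : 3 ≤ N := le_trans (le_trans (le_max_right _ _) (le_max_right _ _)) hN
  have hNr : (3 : ℝ) ≤ N := by exact_mod_cast hN3
  have hN0' : (0 : ℝ) < N := by linarith
  have hL := h5 N b5
  have a4 := h4 N b4
  set L := Real.log N with hLd
  rw [one_mul] at a4
  have hc1r : (1 : ℝ) ≤ c1 := by rw [hc1]; push_cast; nlinarith [Nat.cast_nonneg (α := ℝ) (univ.sup (fun i => cf (f i))), Nat.cast_nonneg (α := ℝ) B]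
  have hlc1 : 0 ≤ Real.log c1 := Real.log_nonneg hc1r
  have hCf0 : (0 : ℝ) ≤ Cf := Nat.cast_nonneg _
  have hKK0 : 0 ≤ 8 * (((k : ℝ) + 1) * 2 ^ (k + 1) * (4 * c1)) := by positivity
  have hL16 : 16 ≤ L := by linarith
  have hL1 : 1 ≤ L := by linarith
  have hL0 : 0 < L := by linarith
  have hz : 1 ≤ z := by
    have : (1 : ℝ) ≤ z := (one_le_pow₀ hL1).trans hz1
    exact_mod_cast this
  have hV := h3 N b3 z hz hz2
  have hss : √(N : ℝ) * √(N : ℝ) = N := Real.mul_self_sqrt hN0'.le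
  have hs0 : 0 < √(N : ℝ) := Real.sqrt_pos.2 hN0'
  have hs1 : 1 ≤ √(N : ℝ) := (one_le_pow₀ hL1).trans a4
  set X : ℕ := c1 * N with hX
  have hXr : (X : ℝ) = c1 * N := by rw [hX]; push_cast; ring
  have hlogX : Real.log X ≤ 2 * L := by
    rw [hXr, Real.log_mul (by linarith) hN0'.ne']; linarith
  have hlogX0 : 0 ≤ Real.log X := Real.log_natCast_nonneg X
  have hsX : √(X : ℝ) ≤ c1 * √N := by
    rw [hXr, Real.sqrt_mul (by linarith)]
    apply mul_le_mul_of_nonneg_right _ hs0.le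
    rw [Real.sqrt_le_left (by linarith)]
    nlinarith
  -- deterministic part
  set T : ℝ := N / L ^ (U + 1) with hT
  have hT0 : 0 < T := by positivity
  have hTL : T * 8 * (L / 8) = N / L ^ U := by rw [hT, pow_succ]; field_simp
  have hsT : √(N : ℝ) * L ^ (k + 3) ≤ T := by
    rw [hT, le_div_iff₀ (by positivity)]
    calc √(N : ℝ) * L ^ (k + 3) * L ^ (U + 1) = √(N : ℝ) * L ^ (U + k + 4) := by rw [mul_assoc, ← pow_add]; congr 2; ring
      _ ≤ √(N : ℝ) * √(N : ℝ) := mul_le_mul_of_nonneg_left a4 hs0.le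
      _ = N := hss
  have hdet : ∀ m ∈ Fintype.piFinset (fun i => Icc 1 (x i)),
      |tupleCount (fun i => (f i).eval (m i : ℤ)) N - singZ (fun i => (f i).eval (m i : ℤ)) z * N| ≤
      |∑ n ∈ Icc 1 N, ArithmeticFunction.vonMangoldt n *
        (∏ i, lamI ((n : ℤ) + (f i).eval (m i : ℤ)) - ∏ i, lamzI z ((n : ℤ) + (f i).eval (m i : ℤ)))| + (1 / 2) * (N / L ^ U) := by
    intro m hm
    rw [Fintype.mem_piFinset] at hm
    set a : Fin k → ℤ := fun i => (f i).eval (m i : ℤ) with ha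
    have e1 := toPrimes a N X (by omega) (Nat.le_mul_of_pos_left _ (by omega)) (fun i n hn => by
      rw [mem_Icc] at hn
      exact upper_size f B N x (fun i => (hx i).2) i n (m i) hn.2 (hm i)) (2 * L) (by linarith) hlogX
    have e3 := model_swap a N z Cf (fun i => by
      have h6 := hCl i (m i)
      have h7 : (Cl i : ℤ) ≤ Cf := by exact_mod_cast le_sup (f := Cl) (mem_univ i)
      rw [ha]
      linarith) L hL1 le_rfl hV
    have e4 := h2 N b2 z hz hz2 a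
    set S1 := ∑ n ∈ Icc 1 N, ArithmeticFunction.vonMangoldt n * ∏ i, lamI ((n : ℤ) + a i) with hS1
    set S2 := ∑ n ∈ Icc 1 N, ArithmeticFunction.vonMangoldt n * ∏ i, lamzI z ((n : ℤ) + a i) with hS2
    set S3 := ∑ n ∈ Icc 1 N, ArithmeticFunction.vonMangoldt n *
      ∏ i, (if ∀ p ∈ pz z, ¬ (p : ℤ) ∣ (n : ℤ) + a i then (Vz z)⁻¹ else 0) with hS3
    have e2 : ∑ n ∈ Icc 1 N, ArithmeticFunction.vonMangoldt n *
        (∏ i, lamI ((n : ℤ) + (f i).eval (m i : ℤ)) - ∏ i, lamzI z ((n : ℤ) + (f i).eval (m i : ℤ))) = S1 - S2 := by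
      rw [hS1, hS2, ← sum_sub_distrib]
      apply sum_congr rfl
      intro n _
      rw [mul_sub]
    rw [e2]
    have e5 : tupleCount a N - singZ a z * N = -(S1 - tupleCount a N) + (S1 - S2) + (S2 - S3) + (S3 - singZ a z * N) := by ring
    rw [e5]
    have g1 : ((k : ℝ) + 1) * (2 * L) ^ (k + 1) * (2 * √(X : ℝ) * Real.log X) ≤
        (((k : ℝ) + 1) * 2 ^ (k + 1) * (4 * c1)) * T := by
      calc ((k : ℝ) + 1) * (2 * L) ^ (k + 1) * (2 * √(X : ℝ) * Real.log X) ≤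
          ((k : ℝ) + 1) * (2 * L) ^ (k + 1) * (2 * (c1 * √N) * (2 * L)) := by gcongr
        _ = (((k : ℝ) + 1) * 2 ^ (k + 1) * (4 * c1)) * (√N * L ^ (k + 2)) := by rw [mul_pow]; ring
        _ ≤ (((k : ℝ) + 1) * 2 ^ (k + 1) * (4 * c1)) * T := by
            apply mul_le_mul_of_nonneg_left _ (by positivity)
            refine le_trans ?_ hsT
            apply mul_le_mul_of_nonneg_left _ hs0.le
            exact pow_le_pow_right₀ hL1 (by omega)
    have g3 : (Cf : ℝ) * L ^ (k + 1) ≤ Cf * T := by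
      apply mul_le_mul_of_nonneg_left _ hCf0
      refine le_trans ?_ hsT
      have h6 : L ^ (k + 1) ≤ L ^ (k + 3) := pow_le_pow_right₀ hL1 (by omega)
      have h7 : 0 ≤ L ^ (k + 3) := by positivity
      nlinarith
    have g5 : (((k : ℝ) + 1) * 2 ^ (k + 1) * (4 * c1)) * T + Cf * T + T ≤ (1 / 2) * (N / L ^ U) := by
      rw [← hTL]
      have h6 : ((((k : ℝ) + 1) * 2 ^ (k + 1) * (4 * c1)) + Cf + 1) ≤ L / 8 * 4 := by linarith
      nlinarith
    calc |-(S1 - tupleCount a N) + (S1 - S2) + (S2 - S3) + (S3 - singZ a z * N)|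
        ≤ |S1 - tupleCount a N| + |S1 - S2| + |S2 - S3| + |S3 - singZ a z * N| := by
          have q1 := abs_add_le (-(S1 - tupleCount a N) + (S1 - S2) + (S2 - S3)) (S3 - singZ a z * N)
          have q2 := abs_add_le (-(S1 - tupleCount a N) + (S1 - S2)) (S2 - S3)
          have q3 := abs_add_le (-(S1 - tupleCount a N)) (S1 - S2)
          rw [abs_neg] at q3
          linarith
      _ ≤ |S1 - S2| + (1 / 2) * (N / L ^ U) := by linarith
  have hsum := h1 N b1 x hx z hz1 hz2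
  set D : (Fin k → ℕ) → ℝ := fun m => |∑ n ∈ Icc 1 N, ArithmeticFunction.vonMangoldt n *
        (∏ i, lamI ((n : ℤ) + (f i).eval (m i : ℤ)) - ∏ i, lamzI z ((n : ℤ) + (f i).eval (m i : ℤ)))| with hD
  set bad := (Fintype.piFinset (fun i => Icc 1 (x i))).filter (fun m : Fin k → ℕ => (N : ℝ) / L ^ U <
        |tupleCount (fun i => (f i).eval (m i : ℤ)) N - singZ (fun i => (f i).eval (m i : ℤ)) z * N|) with hbad
  have hb : (bad.card : ℝ) * ((1 / 2) * (N / L ^ U)) ≤ N * (∏ i, (x i : ℝ)) / L ^ (2 * U + 1) := by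
    refine le_trans ?_ hsum
    calc (bad.card : ℝ) * ((1 / 2) * (N / L ^ U)) = ∑ _m ∈ bad, (1 / 2) * ((N : ℝ) / L ^ U) := by rw [sum_const, nsmul_eq_mul]
      _ ≤ ∑ m ∈ bad, D m := by
          apply sum_le_sum
          intro m hm
          rw [hbad, mem_filter] at hm
          have h6 := hdet m hm.1
          have h7 := hm.2
          rw [hD]
          linarith
      _ ≤ _ := sum_le_sum_of_subset_of_nonneg (filter_subset _ _) (fun _ _ _ => abs_nonneg _)
  have hprod : 0 ≤ ∏ i, (x i : ℝ) := prod_nonneg fun _ _ => Nat.cast_nonneg _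
  have h6 : N * (∏ i, (x i : ℝ)) / L ^ (2 * U + 1) = ((2 / L) * ((∏ i, (x i : ℝ)) / L ^ U)) * ((1 / 2) * (N / L ^ U)) := by
    rw [show 2 * U + 1 = U + U + 1 by ring, pow_succ, pow_add]
    field_simp
  rw [h6] at hb
  have h7 := le_of_mul_le_mul_right hb (by positivity)
  refine h7.trans ?_
  calc (2 / L) * ((∏ i, (x i : ℝ)) / L ^ U) ≤ 1 * ((∏ i, (x i : ℝ)) / L ^ U) := by
        apply mul_le_mul_of_nonneg_right _ (by positivity)
        rw [div_le_one hL0]; linarith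
    _ = _ := one_mul _

end Pool.Agent.H373R2.T7
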