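import Mathlib
import Pool.Agent.H43.G.R_seed8.H373R2.T7.Tuple3
import Pool.Agent.H43.G.R_seed8.H373R2.T7.SingLim
import Pool.Agent.H43.G.R_seed8.H373R2.BH.Poly

/-! Prime tuples with the full singular series. -/

namespace Pool.Agent.H373R2.T7
open Finset Polynomial

open Classical in
/-- few degenerate tuples -/
lemma degenerate {k : ℕ} (f : Fin k → ℤ[X]) (hd : ∀ i, 1 ≤ (f i).natDegree) (x : Fin k → ℕ) (hx : ∀ i, 1 ≤ x i) (D : ℕ) (hD : ∀ i, (f i).natDegree ≤ D)
    (w : ℝ) (hw : 0 < w) (hxw : ∀ i, w ≤ x i) :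
    (((Fintype.piFinset (fun i => Icc 1 (x i))).filter (fun m : Fin k → ℕ => (∃ i, (f i).eval (m i : ℤ) = 0) ∨
      ∃ i j, i ≠ j ∧ (f i).eval (m i : ℤ) = (f j).eval (m j : ℤ))).card : ℝ) ≤ (k + k * k) * D * (∏ i, (x i : ℝ)) / w := by
  set Box := Fintype.piFinset (fun i => Icc 1 (x i)) with hBox
  have hprod : 0 < ∏ i, (x i : ℝ) := prod_pos fun i _ => by exact_mod_cast hx i
  -- one equation in the coordinate `i`
  have hone : ∀ i : Fin k, ∀ g : (Fin k → ℕ) → ℤ, (∀ m v, g (Function.update m i v) = g m) →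
      ((Box.filter (fun m => (f i).eval (m i : ℤ) = g m)).card : ℝ) ≤ D * (∏ i, (x i : ℝ)) / w := by
    intro i g hg
    have h1 := avg_coord (fun i => Icc 1 (x i)) i (fun m => if (f i).eval (m i : ℤ) = g m then (1 : ℝ) else 0)
    have h2 : ((Icc 1 (x i)).card : ℝ) = x i := by simp
    rw [h2] at h1
    have h3 : ∑ m ∈ Box, (if (f i).eval (m i : ℤ) = g m then (1 : ℝ) else 0) = ((Box.filter (fun m => (f i).eval (m i : ℤ) = g m)).card : ℝ) := by
      rw [← sum_filter, sum_const, nsmul_eq_mul, mul_one]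
    rw [← hBox, h3] at h1
    have h4 : ∀ m ∈ Box, ∑ v ∈ Icc 1 (x i), (if (f i).eval ((Function.update m i v) i : ℤ) = g (Function.update m i v) then (1 : ℝ) else 0) ≤ D := by
      intro m _
      have h5 : ∑ v ∈ Icc 1 (x i), (if (f i).eval ((Function.update m i v) i : ℤ) = g (Function.update m i v) then (1 : ℝ) else 0) =
          (((Icc 1 (x i)).filter (fun v : ℕ => (f i).eval (v : ℤ) = g m)).card : ℝ) := by
        rw [card_eq_sum_ones]
        push_cast
        rw [sum_filter]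
        apply sum_congr rfl
        intro v _
        rw [Function.update_self, hg]
      rw [h5]
      exact_mod_cast (Pool.Agent.H373R2.BH.card_eval_eq_le (f i) (hd i) (g m) _).trans (hD i)
    have h5 := sum_le_sum h4
    rw [h1, sum_const, nsmul_eq_mul] at h5
    have h6 : (Box.card : ℝ) = ∏ i, (x i : ℝ) := by
      rw [hBox, Fintype.card_piFinset]
      push_cast
      apply prod_congr rfl
      intro j _
      simp
    rw [h6] at h5
    have hxi : (0 : ℝ) < x i := by exact_mod_cast hx i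
    rw [le_div_iff₀ hw]
    calc ((Box.filter (fun m => (f i).eval (m i : ℤ) = g m)).card : ℝ) * w ≤
        ((Box.filter (fun m => (f i).eval (m i : ℤ) = g m)).card : ℝ) * x i := mul_le_mul_of_nonneg_left (hxw i) (Nat.cast_nonneg _)
      _ = x i * ((Box.filter (fun m => (f i).eval (m i : ℤ) = g m)).card : ℝ) := mul_comm _ _
      _ ≤ _ := by rw [mul_comm (D : ℝ)]; exact h5
  have hsub : Box.filter (fun m : Fin k → ℕ => (∃ i, (f i).eval (m i : ℤ) = 0) ∨
      ∃ i j, i ≠ j ∧ (f i).eval (m i : ℤ) = (f j).eval (m j : ℤ)) ⊆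
      (univ.biUnion fun i : Fin k => Box.filter (fun m => (f i).eval (m i : ℤ) = (fun _ => (0 : ℤ)) m)) ∪
      ((univ.filter (fun q : Fin k × Fin k => q.1 ≠ q.2)).biUnion fun q => Box.filter (fun m => (f q.1).eval (m q.1 : ℤ) = (f q.2).eval (m q.2 : ℤ))) := by
    intro m hm
    rw [mem_filter] at hm
    rw [mem_union, mem_biUnion, mem_biUnion]
    rcases hm.2 with ⟨i, hi⟩ | ⟨i, j, hij, h⟩
    · left; exact ⟨i, mem_univ _, mem_filter.2 ⟨hm.1, hi⟩⟩
    · right; exact ⟨(i, j), by simpa using hij, mem_filter.2 ⟨hm.1, h⟩⟩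
  set P : ℝ := D * (∏ i, (x i : ℝ)) / w with hP
  have hP0 : 0 ≤ P := by positivity
  have c1 : (((univ.biUnion fun i : Fin k => Box.filter (fun m => (f i).eval (m i : ℤ) = (fun _ => (0 : ℤ)) m))).card : ℝ) ≤ k * P := by
    have h1 : (((univ.biUnion fun i : Fin k => Box.filter (fun m => (f i).eval (m i : ℤ) = (fun _ => (0 : ℤ)) m))).card : ℝ) ≤
        ∑ i : Fin k, ((Box.filter (fun m => (f i).eval (m i : ℤ) = (fun _ => (0 : ℤ)) m)).card : ℝ) := by exact_mod_cast card_biUnion_le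
    refine h1.trans ((sum_le_sum fun i _ => hone i (fun _ => 0) (fun _ _ => rfl)).trans ?_)
    rw [sum_const, card_univ, Fintype.card_fin, nsmul_eq_mul]
  have c2 : (((univ.filter (fun q : Fin k × Fin k => q.1 ≠ q.2)).biUnion fun q => Box.filter (fun m => (f q.1).eval (m q.1 : ℤ) = (f q.2).eval (m q.2 : ℤ))).card : ℝ) ≤
      (k * k) * P := by
    have h1 : (((univ.filter (fun q : Fin k × Fin k => q.1 ≠ q.2)).biUnion fun q => Box.filter (fun m => (f q.1).eval (m q.1 : ℤ) = (f q.2).eval (m q.2 : ℤ))).card : ℝ) ≤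
        ∑ q ∈ univ.filter (fun q : Fin k × Fin k => q.1 ≠ q.2), ((Box.filter (fun m => (f q.1).eval (m q.1 : ℤ) = (f q.2).eval (m q.2 : ℤ))).card : ℝ) := by
      exact_mod_cast card_biUnion_le
    refine h1.trans ((sum_le_sum (g := fun _ => P) fun q hq => ?_).trans ?_)
    · rw [mem_filter] at hq
      exact hone q.1 (fun m => (f q.2).eval (m q.2 : ℤ)) (fun m v => by rw [Function.update_of_ne (Ne.symm hq.2)])
    · rw [sum_const, nsmul_eq_mul]
      apply mul_le_mul_of_nonneg_right _ hP0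
      have h2 : (univ.filter (fun q : Fin k × Fin k => q.1 ≠ q.2)).card ≤ k * k := by
        refine (card_filter_le _ _).trans ?_
        rw [card_univ, Fintype.card_prod, Fintype.card_fin]
      exact_mod_cast h2
  have h3 : ((Box.filter (fun m : Fin k → ℕ => (∃ i, (f i).eval (m i : ℤ) = 0) ∨
      ∃ i j, i ≠ j ∧ (f i).eval (m i : ℤ) = (f j).eval (m j : ℤ))).card : ℝ) ≤ k * P + (k * k) * P := by
    refine le_trans ?_ (add_le_add c1 c2)
    exact_mod_cast (card_le_card hsub).trans (card_union_le _ _)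
  refine h3.trans (le_of_eq ?_)
  rw [hP]; ring

lemma singZ_le {k : ℕ} (a : Fin k → ℤ) (z : ℕ) (L : ℝ) (hV : (Vz z)⁻¹ ≤ L) : singZ a z ≤ L ^ k := by
  rw [singZ_eq]
  have hV0 := (inv_pos.2 (Vz_pos z)).le
  have hP : ∏ p ∈ pz z, (1 - (rhoP a p : ℝ) / (p - 1 : ℝ)) ≤ 1 ∧ 0 ≤ ∏ p ∈ pz z, (1 - (rhoP a p : ℝ) / (p - 1 : ℝ)) := by
    have hh : ∀ p ∈ pz z, 0 ≤ 1 - (rhoP a p : ℝ) / (p - 1 : ℝ) ∧ 1 - (rhoP a p : ℝ) / (p - 1 : ℝ) ≤ 1 := by
      intro p hp
      have hp2 : (2 : ℝ) ≤ p := by exact_mod_cast (mem_pz.1 hp).2.two_le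
      have h5 := rhoP_le a p
      have h6 : (rhoP a p : ℝ) ≤ ((p - 1 : ℕ) : ℝ) := by exact_mod_cast h5
      rw [Nat.cast_sub (mem_pz.1 hp).2.one_le] at h6
      push_cast at h6
      have h7 : (rhoP a p : ℝ) / (p - 1 : ℝ) ≤ 1 := by rw [div_le_one (by linarith)]; exact h6
      have h8 : 0 ≤ (rhoP a p : ℝ) / (p - 1 : ℝ) := div_nonneg (Nat.cast_nonneg _) (by linarith)
      constructor <;> linarith
    exact ⟨prod_le_one (fun p hp => (hh p hp).1) (fun p hp => (hh p hp).2), prod_nonneg fun p hp => (hh p hp).1⟩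
  have h1 : ((Vz z)⁻¹) ^ k ≤ L ^ k := pow_le_pow_left₀ hV0 hV k
  calc ((Vz z)⁻¹) ^ k * _ ≤ ((Vz z)⁻¹) ^ k * 1 := mul_le_mul_of_nonneg_left hP.1 (by positivity)
    _ ≤ _ := by rw [mul_one]; exact h1

open Classical in
theorem tuples_full {k : ℕ} (hk : 1 ≤ k) (f : Fin k → ℤ[X]) (hd : ∀ i, 1 ≤ (f i).natDegree) (hl : ∀ i, 0 < (f i).leadingCoeff)
    (B : ℕ) (hB : 1 ≤ B) (U : ℕ) :
    ∃ N0 : ℕ, ∀ N : ℕ, N0 ≤ N → ∀ x : Fin k → ℕ,
      (∀ i, N ≤ B * x i ^ (f i).natDegree ∧ x i ^ (f i).natDegree ≤ B * N) →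
      (((Fintype.piFinset (fun i => Icc 1 (x i))).filter (fun m : Fin k → ℕ =>
        ¬ ∃ S : ℝ, Filter.Tendsto (fun z => singZ (fun i => (f i).eval (m i : ℤ)) z) Filter.atTop (nhds S) ∧
        |tupleCount (fun i => (f i).eval (m i : ℤ)) N - S * N| ≤ (N : ℝ) / Real.log N ^ U)).card : ℝ) ≤
        (∏ i, (x i : ℝ)) / Real.log N ^ U := by
  obtain ⟨B0, hB0⟩ := tuples hk f hd hl B hB (U + 1)
  set E1 := B0 + U + k + 6 with hE1
  obtain ⟨n1, h1⟩ := hB0 (E1 + 1)
  obtain ⟨n2, h2⟩ := Vz_inv_small (E1 + 1)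
  set D : ℕ := univ.sup (fun i => (f i).natDegree) with hD
  set c1 : ℕ := 1 + univ.sup (fun i => cf (f i)) * B with hc1
  set c2 : ℝ := (k + 1 : ℝ) ^ 2 + 4 * (k + 1) * ((k + k * k) * 8) with hc2
  obtain ⟨n4, h4⟩ := ev_log' ((U + 3) * D + 1) (2 * B)
  obtain ⟨n5, h5⟩ := ev_L' (Real.log (2 * c1) + 4 * ((k + k * k) * D) + c2 + 3 * (k + 1) + 16)
  refine ⟨max (max n1 n2) (max n4 (max n5 3)), fun N hN x hx => ?_⟩
  have b1 := le_trans (le_trans (le_max_left _ _) (le_max_left _ _)) hN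
  have b2 := le_trans (le_trans (le_max_right _ _) (le_max_left _ _)) hN
  have b4 := le_trans (le_trans (le_max_left _ _) (le_max_right _ _)) hN
  have b5 := le_trans (le_trans (le_trans (le_max_left _ _) (le_max_right _ _)) (le_max_right _ _)) hN
  have hN3 : 3 ≤ N := le_trans (le_trans (le_trans (le_max_right _ _) (le_max_right _ _)) (le_max_right _ _)) hN
  have hNr : (3 : ℝ) ≤ N := by exact_mod_cast hN3
  have hN0' : (0 : ℝ) < N := by linarith
  have hL := h5 N b5
  have a4 := h4 N b4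
  set L := Real.log N with hLd
  have hc1r : (1 : ℝ) ≤ c1 := by rw [hc1]; push_cast; nlinarith [Nat.cast_nonneg (α := ℝ) (univ.sup (fun i => cf (f i))), Nat.cast_nonneg (α := ℝ) B]
  have hk0 : (0 : ℝ) ≤ k := Nat.cast_nonneg _
  have hD0 : (0 : ℝ) ≤ D := Nat.cast_nonneg _
  have hlc1 : 0 ≤ Real.log (2 * c1) := Real.log_nonneg (by linarith)
  have hc20 : 0 < c2 := by positivity
  have hkD : 0 ≤ 4 * (((k : ℝ) + k * k) * D) := by positivity
  have hL16 : 16 ≤ L := by nlinarith
  have hL1 : 1 ≤ L := by linarith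
  have hL0 : 0 < L := by linarith
  have hLa : Real.log (2 * c1) ≤ L := by linarith
  have hLb : 4 * (((k : ℝ) + k * k) * D) ≤ L := by linarith
  have hLc : c2 ≤ L := by linarith
  have hLd' : 3 * ((k : ℝ) + 1) ≤ L := by linarith
  -- the truncation
  set z : ℕ := ⌈L ^ E1⌉₊ with hz
  have hz1 : L ^ E1 ≤ z := Nat.le_ceil _
  have hz2 : (z : ℝ) ≤ L ^ (E1 + 1) := by
    have h6 := (Nat.ceil_lt_add_one (show 0 ≤ L ^ E1 by positivity)).le
    have h7 : 1 ≤ L ^ E1 := one_le_pow₀ hL1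
    rw [pow_succ]
    nlinarith
  have hzB : L ^ B0 ≤ z := (pow_le_pow_right₀ hL1 (by omega)).trans hz1
  have hz0 : (0 : ℝ) < z := lt_of_lt_of_le (by positivity) hz1
  have hzn : 1 ≤ z := by exact_mod_cast hz0
  have hV := h2 N b2 z hzn hz2
  have hx1 : ∀ i, 1 ≤ x i := by
    intro i
    rcases Nat.eq_zero_or_pos (x i) with h | h
    · have := (hx i).1
      have h4 : (f i).natDegree ≠ 0 := by have := hd i; omega
      rw [h, zero_pow h4, mul_zero] at this
      omega
    · exact h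
  -- lower bound for `x i`
  have hxw : ∀ i, L ^ (U + 3) ≤ x i := by
    intro i
    by_contra hlt
    push Not at hlt
    have h6 : (N : ℝ) ≤ B * (x i : ℝ) ^ (f i).natDegree := by exact_mod_cast (hx i).1
    have h7 : (x i : ℝ) ^ (f i).natDegree ≤ (L ^ (U + 3)) ^ D := by
      calc (x i : ℝ) ^ (f i).natDegree ≤ (L ^ (U + 3)) ^ (f i).natDegree := pow_le_pow_left₀ (Nat.cast_nonneg _) hlt.le _
        _ ≤ _ := pow_le_pow_right₀ (one_le_pow₀ hL1) (le_sup (f := fun i => (f i).natDegree) (mem_univ i))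
    rw [← pow_mul] at h7
    have h8 : L ^ ((U + 3) * D) ≤ L ^ ((U + 3) * D + 1) := pow_le_pow_right₀ hL1 (by omega)
    have hBr : (1 : ℝ) ≤ B := by exact_mod_cast hB
    have h9 : √(N : ℝ) ≤ N / 1 := by
      rw [div_one, Real.sqrt_le_left (by positivity)]; nlinarith
    have h10 : 0 < L ^ ((U + 3) * D + 1) := by positivity
    have h11 : (N : ℝ) ≤ B * L ^ ((U + 3) * D + 1) := h6.trans (mul_le_mul_of_nonneg_left (h7.trans h8) (by linarith))
    have h12 : B * L ^ ((U + 3) * D + 1) * 2 ≤ N := by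
      have := a4.trans h9
      rw [div_one] at this
      linarith
    have h13 : 0 < B * L ^ ((U + 3) * D + 1) := by positivity
    linarith
  have hA := h1 N b1 x hx z hzB hz2
  have hDeg := degenerate f hd x hx1 D (fun i => le_sup (f := fun i => (f i).natDegree) (mem_univ i)) (L ^ (U + 3)) (by positivity) hxw
  have hprod : 0 < ∏ i, (x i : ℝ) := prod_pos fun i _ => by exact_mod_cast hx1 i
  set Box := Fintype.piFinset (fun i => Icc 1 (x i)) with hBox
  set S1 := Box.filter (fun m : Fin k → ℕ => (N : ℝ) / L ^ (U + 1) <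
        |tupleCount (fun i => (f i).eval (m i : ℤ)) N - singZ (fun i => (f i).eval (m i : ℤ)) z * N|) with hS1
  set S2 := Box.filter (fun m : Fin k → ℕ => (∃ i, (f i).eval (m i : ℤ) = 0) ∨
      ∃ i j, i ≠ j ∧ (f i).eval (m i : ℤ) = (f j).eval (m j : ℤ)) with hS2
  have hsub : Box.filter (fun m : Fin k → ℕ =>
        ¬ ∃ S : ℝ, Filter.Tendsto (fun z => singZ (fun i => (f i).eval (m i : ℤ)) z) Filter.atTop (nhds S) ∧
        |tupleCount (fun i => (f i).eval (m i : ℤ)) N - S * N| ≤ (N : ℝ) / L ^ U) ⊆ S1 ∪ S2 := by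
    intro m hm
    rw [mem_filter] at hm
    rw [mem_union]
    by_contra hcon
    push Not at hcon
    obtain ⟨hn1, hn2⟩ := hcon
    have hn1' : |tupleCount (fun i => (f i).eval (m i : ℤ)) N - singZ (fun i => (f i).eval (m i : ℤ)) z * N| ≤ (N : ℝ) / L ^ (U + 1) := by
      by_contra h
      exact hn1 (mem_filter.2 ⟨hm.1, not_le.1 h⟩)
    have hn2' : ¬ ((∃ i, (f i).eval (m i : ℤ) = 0) ∨ ∃ i j, i ≠ j ∧ (f i).eval (m i : ℤ) = (f j).eval (m j : ℤ)) :=
      fun h => hn2 (mem_filter.2 ⟨hm.1, h⟩)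
    push Not at hn2'
    set a : Fin k → ℤ := fun i => (f i).eval (m i : ℤ) with ha
    have ha1 : ∀ i, a i ≠ 0 := hn2'.1
    have ha2 : ∀ i j, i ≠ j → a i ≠ a j := hn2'.2
    obtain ⟨S, hS, hSb⟩ := sing_limit a ha1 ha2
    apply hm.2
    refine ⟨S, hS, ?_⟩
    have hmB := Fintype.mem_piFinset.1 hm.1
    -- size of the shifts
    have hsize : ∀ i, (a i).natAbs ≤ c1 * N := by
      intro i
      have h6 := hmB i
      have h7 := mem_Icc.1 h6
      have h8 := abs_eval_le (f i) (m i) h7.1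
      have h9 : cf (f i) * (m i) ^ (f i).natDegree ≤ c1 * N := by
        calc cf (f i) * (m i) ^ (f i).natDegree ≤ univ.sup (fun i => cf (f i)) * (B * N) := by
              apply Nat.mul_le_mul (le_sup (f := fun i => cf (f i)) (mem_univ i))
              exact (Nat.pow_le_pow_left h7.2 _).trans (hx i).2
          _ ≤ c1 * N := by rw [hc1, ← mul_assoc]; exact Nat.mul_le_mul_right _ (by omega)
      have h10 : ((cf (f i) * (m i) ^ (f i).natDegree : ℕ) : ℤ) ≤ ((c1 * N : ℕ) : ℤ) := by exact_mod_cast h9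
      have h11 : ((a i).natAbs : ℤ) = |a i| := (Int.abs_eq_natAbs _).symm
      have h12 : ((a i).natAbs : ℤ) ≤ ((c1 * N : ℕ) : ℤ) := by
        rw [h11]
        refine h8.trans ?_
        push_cast at h10 ⊢
        exact h10
      exact_mod_cast h12
    set Y := 2 * c1 * N with hY
    have hbad := card_badP a Y (fun i => (hsize i).trans (by rw [hY]; nlinarith [Nat.zero_le (c1 * N)])) (fun i j => by
      have h6 := Int.natAbs_sub_le (a i) (a j)
      have h7 := hsize i
      have h8 := hsize j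
      rw [hY]
      calc (a i - a j).natAbs ≤ c1 * N + c1 * N := h6.trans (add_le_add h7 h8)
        _ = _ := by ring)
    have hY1 : 1 ≤ Y := by rw [hY, hc1]; nlinarith
    have hlogY : (Nat.log 2 Y : ℝ) ≤ 4 * L := by
      refine (natlog_le Y hY1).trans ?_
      have h6 : (Y : ℝ) = (2 * c1) * N := by rw [hY]; push_cast; ring
      rw [h6, Real.log_mul (by positivity) hN0'.ne']
      linarith
    have hKc : Kc a ≤ c2 * L := by
      unfold Kc
      have h6 : ((badP a).card : ℝ) ≤ (k + k * k) * (4 * L) := by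
        have h7 : ((badP a).card : ℝ) ≤ (k + k * k) * (Nat.log 2 Y : ℝ) := by exact_mod_cast hbad
        refine h7.trans ?_
        apply mul_le_mul_of_nonneg_left hlogY (by positivity)
      push_cast
      calc ((k : ℝ) + 1) ^ 2 + 4 * (k + 1) * ((badP a).card : ℝ) ≤ ((k : ℝ) + 1) ^ 2 * L + 4 * (k + 1) * ((k + k * k) * (4 * L)) := by
            apply add_le_add
            · exact le_mul_of_one_le_right (by positivity) hL1
            · gcongr
        _ ≤ c2 * L := by
            rw [hc2]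
            have : 0 ≤ 4 * ((k : ℝ) + 1) * ((k + k * k) * (4 * L)) := by positivity
            nlinarith
    have hKL : Kc a ≤ L ^ 2 := by nlinarith
    have hL2z : L ^ 2 ≤ z := (pow_le_pow_right₀ hL1 (by omega)).trans hz1
    have h3k : 3 * (k + 1) ≤ z := by
      have h6 : (3 * ((k : ℝ) + 1)) ≤ z := by
        have : L ≤ L ^ 2 := by nlinarith
        linarith
      exact_mod_cast h6
    have hdiff := hSb z h3k (hKL.trans hL2z)
    have hsz := singZ_le a z L hV
    have hs0 := singZ_nonneg a z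
    have hdiff2 : |S - singZ a z| ≤ 1 / L ^ (U + 2) := by
      refine hdiff.trans ?_
      calc singZ a z * (Kc a / z) ≤ L ^ k * (L ^ 2 / L ^ E1) := by
            apply mul_le_mul hsz _ (by
              apply div_nonneg _ hz0.le
              unfold Kc; positivity) (by positivity)
            apply div_le_div₀ (by positivity) hKL (by positivity) hz1
        _ = L ^ (k + 2) / L ^ E1 := by rw [pow_add]; ring
        _ ≤ 1 / L ^ (U + 2) := by
            rw [div_le_div_iff₀ (by positivity) (by positivity), one_mul, ← pow_add]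
            exact pow_le_pow_right₀ hL1 (by omega)
    have e : tupleCount a N - S * N = (tupleCount a N - singZ a z * N) - (S - singZ a z) * N := by ring
    rw [e]
    refine (abs_sub _ _).trans ?_
    have h6 : |(S - singZ a z) * N| ≤ 1 / L ^ (U + 2) * N := by
      rw [abs_mul, abs_of_pos hN0']
      exact mul_le_mul_of_nonneg_right hdiff2 hN0'.le
    calc |tupleCount a N - singZ a z * N| + |(S - singZ a z) * N| ≤ N / L ^ (U + 1) + 1 / L ^ (U + 2) * N := add_le_add hn1' h6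
      _ = (1 / L + 1 / L ^ 2) * (N / L ^ U) := by rw [pow_add, pow_add]; field_simp
      _ ≤ 1 * (N / L ^ U) := by
          apply mul_le_mul_of_nonneg_right _ (by positivity)
          have h7 : 1 / L ≤ 1 / 16 := one_div_le_one_div_of_le (by norm_num) hL16
          have h8 : 1 / L ^ 2 ≤ 1 / 16 := by
            apply one_div_le_one_div_of_le (by norm_num)
            nlinarith
          linarith
      _ = _ := one_mul _
  have hcard : ((Box.filter (fun m : Fin k → ℕ =>
        ¬ ∃ S : ℝ, Filter.Tendsto (fun z => singZ (fun i => (f i).eval (m i : ℤ)) z) Filter.atTop (nhds S) ∧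
        |tupleCount (fun i => (f i).eval (m i : ℤ)) N - S * N| ≤ (N : ℝ) / L ^ U)).card : ℝ) ≤ S1.card + S2.card := by
    exact_mod_cast (card_le_card hsub).trans (card_union_le _ _)
  refine hcard.trans ((add_le_add hA hDeg).trans ?_)
  set Q : ℝ := (∏ i, (x i : ℝ)) / L ^ U with hQ
  have hQ0 : 0 < Q := by positivity
  have e1 : (∏ i, (x i : ℝ)) / L ^ (U + 1) = Q * (1 / L) := by rw [hQ, pow_succ]; field_simp
  have e2 : (k + k * k) * D * (∏ i, (x i : ℝ)) / L ^ (U + 3) = Q * (((k + k * k) * D) / L ^ 3) := by rw [hQ, pow_add]; field_simp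
  rw [e1, e2, ← mul_add]
  have h6 : 1 / L + ((k + k * k) * D) / L ^ 3 ≤ 1 := by
    have h7 : 1 / L ≤ 1 / 16 := one_div_le_one_div_of_le (by norm_num) hL16
    have h8 : (((k : ℝ) + k * k) * D) / L ^ 3 ≤ 1 / 2 := by
      rw [div_le_iff₀ (by positivity)]
      have h9 : L ≤ L ^ 3 := le_self_pow₀ hL1 (by norm_num)
      linarith
    linarith
  calc Q * _ ≤ Q * 1 := mul_le_mul_of_nonneg_left h6 hQ0.le
    _ = Q := mul_one _

end Pool.Agent.H373R2.T7
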